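import Pool.Agent.Lib.MP_e9c977_fvb.Defs

/-!
# Faces by affine functions
-/

namespace Pool.Agent.FVB

open Module Pool.Agent.FV
open scoped Classical

variable {E : Type} [NormedAddCommGroup E] [InnerProductSpace ℝ E]

/-- Affine functions. -/
def IsAff (f : E → ℝ) : Prop := ∃ (l : E →ₗ[ℝ] ℝ) (c : ℝ), ∀ x, f x = l x + c

theorem IsAff.add {f g : E → ℝ} (hf : IsAff f) (hg : IsAff g) : IsAff (fun x => f x + g x) := by
  obtain ⟨l, c, h⟩ := hf
  obtain ⟨l', c', h'⟩ := hg
  exact ⟨l + l', c + c', fun x => by simp only [h, h', LinearMap.add_apply]; ring⟩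

theorem IsAff.const_mul {f : E → ℝ} (hf : IsAff f) (a : ℝ) : IsAff (fun x => a * f x) := by
  obtain ⟨l, c, h⟩ := hf
  exact ⟨a • l, a * c, fun x => by simp only [h, LinearMap.smul_apply, smul_eq_mul]; ring⟩

theorem IsAff.const (a : ℝ) : IsAff (fun _ : E => a) := ⟨0, a, fun x => by simp⟩

theorem IsAff.sub_const {f : E → ℝ} (hf : IsAff f) (a : ℝ) : IsAff (fun x => f x - a) := by
  obtain ⟨l, c, h⟩ := hf
  exact ⟨l, c - a, fun x => by simp only [h]; ring⟩

theorem faceSet_of_aff {V S : Finset E} (hne : S.Nonempty) (hS : S ⊆ V) {f : E → ℝ}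
    (hf : IsAff f) (h0 : ∀ x ∈ V, 0 ≤ f x) (h : ∀ x ∈ V, f x = 0 ↔ x ∈ S) : FaceSet V S := by
  obtain ⟨l, c, hl⟩ := hf
  refine ⟨hne, hS, -l, c, fun x hx => ?_, fun x hx => ?_⟩
  · have := h0 x hx
    rw [hl] at this
    rw [LinearMap.neg_apply]
    linarith
  · rw [← h x hx, hl, LinearMap.neg_apply]
    constructor <;> intro h' <;> linarith

theorem FaceSet.exists_aff {V S : Finset E} (h : FaceSet V S) :
    ∃ f : E → ℝ, IsAff f ∧ (∀ x ∈ V, 0 ≤ f x) ∧ ∀ x ∈ V, (f x = 0 ↔ x ∈ S) := by
  obtain ⟨-, -, l, c, h1, h2⟩ := h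
  refine ⟨fun x => (-l) x + c, ⟨-l, c, fun x => rfl⟩, fun x hx => ?_, fun x hx => ?_⟩
  · have := h1 x hx
    simp only [LinearMap.neg_apply]
    linarith
  · rw [← h2 x hx]
    simp only [LinearMap.neg_apply]
    constructor <;> intro h' <;> linarith

/-- A point beyond a supporting hyperplane of the others is a vertex. -/
theorem faceSet_single {V : Finset E} {v : E} (hv : v ∈ V) {g : E → ℝ} (hg : IsAff g)
    (h : ∀ x ∈ V, x ≠ v → 0 ≤ g x) (hv' : g v < 0) : FaceSet V {v} := by
  refine faceSet_of_aff (Finset.singleton_nonempty v) (Finset.singleton_subset_iff.2 hv)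
    (hg.sub_const (g v)) (fun x hx => ?_) (fun x hx => ?_)
  · by_cases hxv : x = v
    · rw [hxv, sub_self]
    · have := h x hx hxv
      linarith
  · rw [Finset.mem_singleton]
    by_cases hxv : x = v
    · simp [hxv]
    · have := h x hx hxv
      constructor
      · intro h'
        linarith
      · intro h'
        exact absurd h' hxv

/-- Two vertices beyond or on a supporting hyperplane of the others, at least one of them beyond,
are adjacent. -/
theorem faceSet_pair {V : Finset E} {u w : E} (hu : FaceSet V {u}) (hw : FaceSet V {w})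
    (huw : u ≠ w) {q : E → ℝ} (hq : IsAff q) (h : ∀ x ∈ V, x ≠ u → x ≠ w → 0 ≤ q x)
    (hqu : q u ≤ 0) (hqw : q w ≤ 0) (hlt : q u < 0 ∨ q w < 0) : FaceSet V {u, w} := by
  have huV : u ∈ V := hu.2.1 (by simp)
  have hwV : w ∈ V := hw.2.1 (by simp)
  obtain ⟨a, ha, ha0, haz⟩ := FaceSet.exists_aff hu
  obtain ⟨b, hb, hb0, hbz⟩ := FaceSet.exists_aff hw
  have hau : a u = 0 := (haz u huV).2 (by simp)
  have hbw : b w = 0 := (hbz w hwV).2 (by simp)
  have hapos : ∀ x ∈ V, x ≠ u → 0 < a x := fun x hx hxu =>
    lt_of_le_of_ne (ha0 x hx) (fun h' => hxu (Finset.mem_singleton.1 ((haz x hx).1 h'.symm)))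
  have hbpos : ∀ x ∈ V, x ≠ w → 0 < b x := fun x hx hxw =>
    lt_of_le_of_ne (hb0 x hx) (fun h' => hxw (Finset.mem_singleton.1 ((hbz x hx).1 h'.symm)))
  have haw : 0 < a w := hapos w hwV huw.symm
  have hbu : 0 < b u := hbpos u huV huw
  have hα : 0 ≤ -q w / a w := div_nonneg (by linarith) haw.le
  have hβ : 0 ≤ -q u / b u := div_nonneg (by linarith) hbu.le
  refine faceSet_of_aff (by simp) ?_
    (((hq.add (ha.const_mul (-q w / a w))).add (hb.const_mul (-q u / b u))))
    (f := fun x => (q x + (-q w / a w) * a x) + (-q u / b u) * b x) ?_ ?_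
  · intro x hx
    rcases Finset.mem_insert.1 hx with rfl | hx
    · exact huV
    · rw [Finset.mem_singleton.1 hx]
      exact hwV
  · intro x hx
    by_cases hxu : x = u
    · subst hxu
      have : -q x / b x * b x = -q x := div_mul_cancel₀ _ hbu.ne'
      rw [hau, this]
      linarith
    · by_cases hxw : x = w
      · subst hxw
        have : -q x / a x * a x = -q x := div_mul_cancel₀ _ haw.ne'
        rw [hbw, this]
        linarith
      · have h1 := h x hx hxu hxw
        have h2 := mul_nonneg hα (ha0 x hx)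
        have h3 := mul_nonneg hβ (hb0 x hx)
        linarith
  · intro x hx
    rw [Finset.mem_insert, Finset.mem_singleton]
    by_cases hxu : x = u
    · subst hxu
      have : -q x / b x * b x = -q x := div_mul_cancel₀ _ hbu.ne'
      rw [hau, this]
      constructor
      · intro _
        left
        trivial
      · intro _; ring
    · by_cases hxw : x = w
      · subst hxw
        have : -q x / a x * a x = -q x := div_mul_cancel₀ _ haw.ne'
        rw [hbw, this]
        constructor
        · intro _
          right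
          trivial
        · intro _; ring
      · have h1 := h x hx hxu hxw
        have h2 := mul_nonneg hα (ha0 x hx)
        have h3 := mul_nonneg hβ (hb0 x hx)
        constructor
        · intro h'
          exfalso
          rcases hlt with h4 | h4
          · have : 0 < (-q u / b u) * b x :=
              mul_pos (div_pos (by linarith) hbu) (hbpos x hx hxw)
            linarith
          · have : 0 < (-q w / a w) * a x :=
              mul_pos (div_pos (by linarith) haw) (hapos x hx hxu)
            linarith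
        · rintro (h' | h')
          · exact absurd h' hxu
          · exact absurd h' hxw

/-- Affine functions and affine combinations. -/
theorem IsAff.map_sum {f : E → ℝ} (hf : IsAff f) {ι : Type} {s : Finset ι} {μ : ι → ℝ} {p : ι → E}
    (hμ : ∑ i ∈ s, μ i = 1) : f (∑ i ∈ s, μ i • p i) = ∑ i ∈ s, μ i * f (p i) := by
  obtain ⟨l, c, hl⟩ := hf
  rw [hl, _root_.map_sum]
  have h1 : ∑ i ∈ s, μ i * f (p i) = ∑ i ∈ s, (l (μ i • p i) + μ i * c) :=
    Finset.sum_congr rfl fun i _ => by rw [hl, map_smul, smul_eq_mul]; ring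
  rw [h1, Finset.sum_add_distrib, ← Finset.sum_mul, hμ, one_mul]

/-- Affine functions are continuous. -/
theorem IsAff.continuous [FiniteDimensional ℝ E] {f : E → ℝ} (hf : IsAff f) : Continuous f := by
  obtain ⟨l, c, hl⟩ := hf
  have : f = fun x => l x + c := funext hl
  rw [this]
  exact (LinearMap.continuous_of_finiteDimensional l).add continuous_const

end Pool.Agent.FVB
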