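import Pool.Agent.Lib.MP_e9c977_fvb.Ineq

/-!
# Row LO: the known lower bound, the new upper bound, and the f-vectors
-/

namespace Pool.Agent.FVB

open Module Pool.Agent.FV
open scoped Classical

noncomputable section

theorem finrank_E4 : finrank ℝ E4 = 4 := by rw [finrank_euclideanSpace_fin]

theorem Conf.le_choose {n x e : ℕ} {V : Finset E4} (h : Conf n x e V) : x + e ≤ n.choose 2 := by
  have h1 := excess_le h.conv h.dim
  have h2 := h.card
  have h3 := h.edges
  have h4 := h.exc
  have h5 : (n + 1).choose 2 = n.choose 1 + n.choose 2 := Nat.choose_succ_succ' n 1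
  rw [Nat.choose_one_right] at h5
  rw [h2, h5] at h1
  omega

theorem Conf.euler {n x e : ℕ} {V : Finset E4} (h : Conf n x e V) :
    (faces V 2).card + 2 * n + e = 2 * x := by
  have h1 := euler_four h.conv h.dim
  have h2 := h.card
  have h3 := h.edges
  have h4 := h.exc
  omega

theorem Conf.lower {n x e : ℕ} {V : Finset E4} (h : Conf n x e V) : 4 * n ≤ x + 3 * e + 10 := by
  have h1 := ziegler_ineq finrank_E4 h.conv h.dim
  have h2 := h.card
  have h3 := h.edges
  have h4 := h.exc
  have h5 := h.euler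
  omega

theorem Conf.even {n x e : ℕ} {V : Finset E4} (h : Conf n x e V) (h' : 4 * n = x + 3 * e + 10) :
    Even e := by
  have h2 := h.card
  have h3 := h.edges
  have h4 := h.exc
  have h5 := h.euler
  have ht : Tight V := by
    unfold Tight
    omega
  obtain ⟨a, b, e0, e1, e2, e3⟩ := Tight.classify finrank_E4 h.conv h.dim ht
  exact ⟨b, by omega⟩

theorem Conf.five_le {n x e : ℕ} {V : Finset E4} (h : Conf n x e V) : 5 ≤ n := by
  have h1 : adim V + 1 ≤ V.card := adim_add_one_le_card (nonempty_of_adim (n := 3) h.dim)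
  have h2 := h.card
  have h3 := h.dim
  omega

theorem isFVector_iff_conf (f : Fin 4 → ℕ) (e : ℕ) (he : f 1 = f 0 + f 3 + e) :
    IsFVector 4 f ↔ (f 0 + f 2 = f 1 + f 3 ∧ ∃ V, Conf (f 0) (f 1) e V) := by
  rw [isFVector_iff (by norm_num) f]
  constructor
  · rintro ⟨V, hV, h4, hfV⟩
    have h0 : (faces V 0).card = f 0 := hfV 0
    have h1 : (faces V 1).card = f 1 := hfV 1
    have h2 : (faces V 2).card = f 2 := hfV 2
    have h3 : (faces V 3).card = f 3 := hfV 3
    rw [card_faces_zero hV] at h0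
    have h5 := euler_four hV h4
    exact ⟨by omega, V, hV, h4, h0, h1, by omega⟩
  · rintro ⟨h, V, hc⟩
    have h0 := hc.card
    have h1 := hc.edges
    have h3 := hc.exc
    have h5 := hc.euler
    refine ⟨V, hc.conv, hc.dim, ?_⟩
    intro i
    fin_cases i
    · simpa [card_faces_zero hc.conv] using h0
    · simpa using h1
    · have : (faces V 2).card = f 2 := by omega
      simpa using this
    · have : (faces V 3).card = f 3 := by omega
      simpa using this

theorem isFVector_reverse_of {f : Fin 4 → ℕ} (hf : IsFVector 4 f) :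
    IsFVector 4 ![f 3, f 2, f 1, f 0] := by
  rw [isFVector_iff (by norm_num)] at hf ⊢
  obtain ⟨V, hV, h4, hfV⟩ := hf
  have h0 : (faces V 0).card = f 0 := hfV 0
  have h1 : (faces V 1).card = f 1 := hfV 1
  have h2 : (faces V 2).card = f 2 := hfV 2
  have h3 : (faces V 3).card = f 3 := hfV 3
  rw [card_faces_zero hV] at h0
  obtain ⟨V', hV', h4', e0, e1, e2, e3, -⟩ := exists_polar_four hV h4 finrank_E4
  refine ⟨V', hV', h4', ?_⟩
  intro i
  fin_cases i
  · simpa [card_faces_zero hV'] using e0.trans h3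
  · simpa using e1.trans h2
  · simpa using e2.trans h1
  · simpa using e3.trans h0

theorem isFVector_reverse (f : Fin 4 → ℕ) :
    IsFVector 4 f ↔ IsFVector 4 ![f 3, f 2, f 1, f 0] := by
  refine ⟨isFVector_reverse_of, fun h => ?_⟩
  have h1 := isFVector_reverse_of h
  have h2 : (![(![f 3, f 2, f 1, f 0] : Fin 4 → ℕ) 3, (![f 3, f 2, f 1, f 0] : Fin 4 → ℕ) 2,
      (![f 3, f 2, f 1, f 0] : Fin 4 → ℕ) 1, (![f 3, f 2, f 1, f 0] : Fin 4 → ℕ) 0] : Fin 4 → ℕ)
      = f := by
    funext i
    fin_cases i <;> rfl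
  rwa [h2] at h1

end

end Pool.Agent.FVB
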