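import Pool.Agent.Lib.MP_e9c977_fvb.Top
import Pool.Agent.Lib.MP_e9c977_fvb.Lower

/-!
# Row B3: the product of two triangles, as a polar polytope
-/

namespace Pool.Agent.FVB

open Module Pool.Agent.FV
open scoped Classical

noncomputable section

theorem exists_base_three : ∃ V, Conf 9 18 3 V ∧ HasSimple V := by
  obtain ⟨W, x, hW, hx⟩ := exists_top 0 6 (by norm_num) (by norm_num)
  have h6 : (6 : ℕ).choose 2 = 15 := rfl
  rw [h6] at hx
  have e0 := hW.card
  have e1 := hW.edges
  have e2 := hW.euler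
  have e3 := hW.exc
  obtain ⟨V, hV, h4, c0, c1, c2, c3, -⟩ := exists_polar_four hW.conv hW.dim finrank_E4
  have hcV : V.card = 9 := by omega
  refine ⟨V, ⟨hV, h4, by omega, by omega, by omega⟩, ?_⟩
  have hsum := sum_card_nbr hV
  have hdeg : ∀ z ∈ V, 4 ≤ (nbr V z).card := fun z hz => by
    have := adim_le_card_nbr hV hz
    omega
  by_contra hcon
  unfold HasSimple at hcon
  push Not at hcon
  have hdeg5 : ∀ z ∈ V, 5 ≤ (nbr V z).card := fun z hz => by
    have h1 := hdeg z hz
    have h2 := hcon z hz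
    omega
  have h7 : ∑ _z ∈ V, 5 ≤ ∑ z ∈ V, (nbr V z).card := Finset.sum_le_sum hdeg5
  rw [Finset.sum_const, smul_eq_mul] at h7
  omega

end

end Pool.Agent.FVB
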