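import Pool.Agent.Lib.MP_e9c977_fvb.Defs

/-!
# Three-dimensional facts and the formula for the excess
-/

namespace Pool.Agent.FVB

open Module Pool.Agent.FV
open scoped Classical

variable {E : Type} [NormedAddCommGroup E] [InnerProductSpace ℝ E]

theorem three_mul_card_le {F : Finset E} (hF : ConvPos F) (h3 : adim F = 3) :
    3 * F.card ≤ 2 * (faces F 1).card := by
  rw [← sum_card_nbr hF]
  calc 3 * F.card = ∑ _x ∈ F, 3 := by simp [mul_comm]
    _ ≤ ∑ x ∈ F, (nbr F x).card := Finset.sum_le_sum fun x hx => by
        have := adim_le_card_nbr hF hx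
        omega

theorem four_le_card {F : Finset E} (h3 : adim F = 3) : 4 ≤ F.card := by
  have hne : F.Nonempty := nonempty_of_adim (n := 2) h3
  have := adim_add_one_le_card hne
  omega

theorem four_le_faces_two {F : Finset E} (hF : ConvPos F) (h3 : adim F = 3) :
    4 ≤ (faces F 2).card := by
  have h1 := three_mul_card_le hF h3
  have h2 := four_le_card h3
  have h4 := euler_three hF h3
  omega

theorem card_faces_one_le {V : Finset E} (hV : ConvPos V) :
    (faces V 1).card ≤ V.card.choose 2 := by
  rw [← Finset.card_powersetCard 2 V]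
  exact Finset.card_le_card (faces_one_subset_powersetCard hV)

theorem faces_two_simplex {F : Finset E} (hF : ConvPos F) (h3 : adim F = 3) (hc : F.card = 4) :
    (faces F 2).card = 4 := by
  have h1 := three_mul_card_le hF h3
  have h2 := card_faces_one_le hF
  have h4 := euler_three hF h3
  rw [hc] at h1 h2 h4
  have h5 : (4 : ℕ).choose 2 = 6 := rfl
  rw [h5] at h2
  push_cast at h4
  omega

/-- `2 e = ∑ (f₂(F) - 4)` -/
theorem two_excess {V : Finset E} (hV : ConvPos V) (h4 : adim V = 4) :
    2 * ((faces V 1).card : ℤ) = 2 * V.card + 2 * (faces V 3).card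
      + ∑ F ∈ faces V 3, (((faces F 2).card : ℤ) - 4) := by
  have h1 := sum_card_facets (V := V) h4
  have h2 := euler_four hV h4
  have h3 : ∑ F ∈ faces V 3, (((faces F 2).card : ℤ) - 4)
      = ((∑ F ∈ faces V 3, (faces F 2).card : ℕ) : ℤ) - 4 * (faces V 3).card := by
    rw [Finset.sum_sub_distrib, Finset.sum_const, nsmul_eq_mul]
    push_cast
    ring
  rw [h3, h1]
  push_cast
  omega

end Pool.Agent.FVB
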