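import Pool.Agent.Lib.MP_e9c977_fvb.GFace
import Pool.Agent.Lib.MP_e9c977_fvb.Simplex3

/-!
# Dimensions and edge counts
-/

namespace Pool.Agent.FVB

open Module Pool.Agent.FV
open scoped Classical

attribute [-instance] WithLp.instDecidableEq

noncomputable section

section general

variable {E : Type} [NormedAddCommGroup E] [InnerProductSpace ℝ E]

/-- Counting edges through the missing pairs. -/
theorem card_edges_of_missing {V : Finset E} (hV : ConvPos V) {M : Finset (Finset E)}
    (hM : M ⊆ Finset.powersetCard 2 V)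
    (h : ∀ x ∈ V, ∀ y ∈ V, x ≠ y → (FaceSet V {x, y} ↔ ({x, y} : Finset E) ∉ M)) :
    (faces V 1).card + M.card = V.card.choose 2 := by
  have h1 : faces V 1 = Finset.powersetCard 2 V \ M := by
    ext S
    rw [Finset.mem_sdiff]
    constructor
    · intro hS
      obtain ⟨x, y, hxy, rfl, hf⟩ := (mem_faces_one hV).1 hS
      have hx : x ∈ V := hf.2.1 (by simp)
      have hy : y ∈ V := hf.2.1 (by simp)
      exact ⟨Finset.mem_powersetCard.2 ⟨hf.2.1, Finset.card_pair hxy⟩, (h x hx y hy hxy).1 hf⟩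
    · rintro ⟨hS, hSM⟩
      obtain ⟨hSV, hS2⟩ := Finset.mem_powersetCard.1 hS
      obtain ⟨x, y, hxy, rfl⟩ := Finset.card_eq_two.1 hS2
      exact (mem_faces_one hV).2 ⟨x, y, hxy, rfl,
        (h x (hSV (by simp)) y (hSV (by simp)) hxy).2 hSM⟩
  have h2 := Finset.card_sdiff_add_card_eq_card hM
  rw [h1, h2, Finset.card_powersetCard]

theorem adim_insert_le (S : Finset E) (x : E) : adim (insert x S) ≤ adim S + 1 := by
  unfold adim
  rw [Finset.coe_insert]
  exact finrank_vectorSpan_insert_le_set ℝ _ x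

end general

variable {I Sp : Finset ℕ} {Z : Finset E4}

theorem apply_mv (l : E4 →ₗ[ℝ] ℝ) (s : ℝ) :
    l (mv s) = l (EuclideanSpace.single 0 1) * s ^ 3 + l (EuclideanSpace.single 1 1) * s ^ 2
      + l (EuclideanSpace.single 2 1) * s + l (EuclideanSpace.single 3 1) := by
  have h : mv s = s ^ 3 • EuclideanSpace.single (𝕜 := ℝ) (0 : Fin 4) (1 : ℝ)
      + s ^ 2 • EuclideanSpace.single (1 : Fin 4) (1 : ℝ)
      + s • EuclideanSpace.single (2 : Fin 4) (1 : ℝ) + EuclideanSpace.single (3 : Fin 4) (1 : ℝ) := by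
    ext i
    fin_cases i <;> simp [mv]
  rw [h]
  simp only [map_add, map_smul, smul_eq_mul]
  ring

/-- A linear functional vanishing at four of the points vanishes. -/
theorem eq_zero_of_four {J : Finset ℕ} (h4 : 4 ≤ J.card) {l : E4 →ₗ[ℝ] ℝ}
    (h : ∀ s ∈ J, l (mv (s : ℝ)) = 0) : l = 0 := by
  set a := l (EuclideanSpace.single 0 1) with ha
  set b := l (EuclideanSpace.single 1 1) with hb
  set c := l (EuclideanSpace.single 2 1) with hc
  set d := l (EuclideanSpace.single 3 1) with hd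
  set p : Polynomial ℝ := Polynomial.C a * Polynomial.X ^ 3 + Polynomial.C b * Polynomial.X ^ 2
    + Polynomial.C c * Polynomial.X + Polynomial.C d with hp
  have hdeg : p.natDegree ≤ 3 := by
    rw [hp]
    compute_degree
  have hp0 : p = 0 := by
    by_contra hne
    have h1 : (J.image (fun s : ℕ => (s : ℝ))) ⊆ p.roots.toFinset := by
      intro x hx
      obtain ⟨s, hs, rfl⟩ := Finset.mem_image.1 hx
      rw [Multiset.mem_toFinset, Polynomial.mem_roots hne, Polynomial.IsRoot.def, hp]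
      have := h s hs
      rw [apply_mv] at this
      simpa using this
    have h2 := Finset.card_le_card h1
    rw [Finset.card_image_of_injective _ Nat.cast_injective] at h2
    have h3 := Multiset.toFinset_card_le p.roots
    have h5 := Polynomial.card_roots' p
    omega
  have ea : a = 0 := by
    have := congrArg (fun q => Polynomial.coeff q 3) hp0
    simpa [hp, Polynomial.coeff_X, Polynomial.coeff_C] using this
  have eb : b = 0 := by
    have := congrArg (fun q => Polynomial.coeff q 2) hp0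
    simpa [hp, Polynomial.coeff_X, Polynomial.coeff_C] using this
  have ec : c = 0 := by
    have := congrArg (fun q => Polynomial.coeff q 1) hp0
    simpa [hp, Polynomial.coeff_X, Polynomial.coeff_C, Polynomial.coeff_X_pow] using this
  have ed : d = 0 := by
    have := congrArg (fun q => Polynomial.coeff q 0) hp0
    simpa [hp, Polynomial.coeff_X, Polynomial.coeff_C] using this
  apply (EuclideanSpace.basisFun (Fin 4) ℝ).toBasis.ext
  intro i
  fin_cases i
  · simpa using ea
  · simpa using eb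
  · simpa using ec
  · simpa using ed

theorem adim_of_four (hI : Idx I Sp) {J : Finset ℕ} (hJ : J ⊆ I) (h4 : 4 ≤ J.card) :
    adim (insert 0 (J.image (P Sp))) = 4 := by
  have htop : vectorSpan ℝ ((insert 0 (J.image (P Sp)) : Finset E4) : Set E4) = ⊤ := by
    by_contra hne
    obtain ⟨l, hl0, hl⟩ := Submodule.exists_le_ker_of_lt_top _ (lt_top_iff_ne_top.2 hne)
    apply hl0
    apply eq_zero_of_four h4
    intro s hs
    have h1 : P Sp s - 0 ∈ vectorSpan ℝ ((insert 0 (J.image (P Sp)) : Finset E4) : Set E4) := by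
      apply vsub_mem_vectorSpan
      · rw [Finset.mem_coe]
        exact Finset.mem_insert_of_mem (Finset.mem_image_of_mem _ hs)
      · rw [Finset.mem_coe]
        exact Finset.mem_insert_self _ _
    have h2 := hl h1
    rw [LinearMap.mem_ker, sub_zero] at h2
    rw [← smul_P hI (hJ hs), map_smul, h2, smul_zero]
  unfold adim
  rw [htop, finrank_top, finrank_euclideanSpace_fin]

theorem adim_W (hI : Idx I Sp) (h4 : 4 ≤ I.card) : adim (V0 I Sp ∪ Z) = 4 := by
  have h1 := adim_of_four hI subset_rfl h4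
  have h2 : adim (insert 0 (I.image (P Sp))) ≤ adim (V0 I Sp ∪ Z) :=
    adim_mono Finset.subset_union_left
  have h3 := adim_le_finrank (V0 I Sp ∪ Z)
  rw [finrank_euclideanSpace_fin] at h3
  omega

theorem adim_G (hI : Idx I Sp) (hZ : ∀ z ∈ Z, GoodZ I Sp z) (h4 : 4 ≤ I.card) {s : ℕ}
    (hs : s ∈ Ax Sp) : adim (G Sp s) = 3 := by
  have h1 := adim_of_four hI (gI_subset hI hs) (by rw [card_gI (hI.pos s (hI.asub hs))]; omega)
  have h2 := adim_insert_le (G Sp s) 0
  have h3 : adim (insert 0 (G Sp s)) = 4 := h1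
  have h5 := (face_G hI hZ hs).adim_lt (T := V0 I Sp ∪ Z) ?_ subset_rfl
  · rw [adim_W hI h4] at h5
    omega
  · refine Finset.ssubset_iff_subset_ne.2 ⟨G_subset hI hs, fun h => ?_⟩
    have h6 : (0 : E4) ∈ G Sp s := by
      rw [h]
      exact zero_mem
    obtain ⟨u, hu, he⟩ := Finset.mem_image.1 h6
    exact P_ne_zero hI (gI_subset hI hs hu) he

theorem convPos_V0 (hI : Idx I Sp) : ConvPos (V0 I Sp) := by
  have hZ : ∀ z ∈ (∅ : Finset E4), GoodZ I Sp z := fun z hz => absurd hz (Finset.notMem_empty z)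
  have h1 := face_zero hI hZ
  have h2 := fun s hs => face_pt hI hZ (s := s) hs
  rw [Finset.union_empty] at h1 h2
  intro x hx
  rcases mem_V0.1 hx with rfl | ⟨s, hs, rfl⟩
  · exact h1
  · exact h2 s hs

theorem card_V0 (hI : Idx I Sp) : (V0 I Sp).card = I.card + 1 := by
  rw [V0, Finset.card_insert_of_notMem, Finset.card_image_of_injOn (injOn_P hI)]
  intro h
  obtain ⟨s, hs, he⟩ := Finset.mem_image.1 h
  exact P_ne_zero hI hs he

/-- The missing pairs. -/
def Mi (Sp : Finset ℕ) : Finset (Finset E4) := (Ax Sp).image (fun s => {P Sp s, P Sp (s + 2)})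

theorem mem_Mi {S : Finset E4} :
    S ∈ Mi Sp ↔ ∃ s ∈ Ax Sp, ({P Sp s, P Sp (s + 2)} : Finset E4) = S := by
  simp [Mi]

theorem pair_eq_iff (hI : Idx I Sp) {s t u v : ℕ} (hs : s ∈ I) (ht : t ∈ I) (hu : u ∈ I)
    (hv : v ∈ I) (h : ({P Sp s, P Sp t} : Finset E4) = {P Sp u, P Sp v}) :
    (s = u ∨ s = v) ∧ (t = u ∨ t = v) := by
  have h1 : P Sp s ∈ ({P Sp u, P Sp v} : Finset E4) := by
    rw [← h]
    simp
  have h2 : P Sp t ∈ ({P Sp u, P Sp v} : Finset E4) := by
    rw [← h]
    simp
  rw [Finset.mem_insert, Finset.mem_singleton] at h1 h2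
  rw [P_inj hI hs hu, P_inj hI hs hv] at h1
  rw [P_inj hI ht hu, P_inj hI ht hv] at h2
  exact ⟨h1, h2⟩

theorem card_Mi (hI : Idx I Sp) : (Mi Sp).card = (Ax Sp).card := by
  rw [Mi, Finset.card_image_of_injOn]
  intro s hs t ht h
  rw [Finset.mem_coe] at hs ht
  have h1 := pair_eq_iff hI (hI.asub hs) (hI.b2 s hs) (hI.asub ht) (hI.b2 t ht) h
  omega

/-- which pairs of `V0` are missing -/
theorem pair_mem_Mi (hI : Idx I Sp) {s t : ℕ} (hs : s ∈ I) (ht : t ∈ I) (hst : s ≠ t) :
    ({P Sp s, P Sp t} : Finset E4) ∉ Mi Sp ↔ Adj Sp s t := by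
  rw [mem_Mi]
  constructor
  · intro h
    refine ⟨fun h1 => h ⟨s, h1.1, by rw [h1.2]⟩, fun h1 => h ⟨t, h1.1, ?_⟩⟩
    rw [h1.2, Finset.pair_comm]
  · rintro ⟨h1, h2⟩ ⟨u, hu, he⟩
    have h3 := pair_eq_iff hI (hI.asub hu) (hI.b2 u hu) hs ht he
    rcases h3.1 with rfl | rfl
    · rcases h3.2 with h4 | h4
      · omega
      · exact h1 ⟨hu, h4.symm⟩
    · rcases h3.2 with h4 | h4
      · exact h2 ⟨hu, h4.symm⟩
      · omega

/-- Pairs of `V0`: faces of `V0 ∪ Z` iff not missing. -/
theorem face_pair_iff (hI : Idx I Sp) (hZ : ∀ z ∈ Z, GoodZ I Sp z) {x y : E4} (hx : x ∈ V0 I Sp)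
    (hy : y ∈ V0 I Sp) (hxy : x ≠ y) :
    FaceSet (V0 I Sp ∪ Z) {x, y} ↔ ({x, y} : Finset E4) ∉ Mi Sp := by
  have hz : ∀ s ∈ I, ({0, P Sp s} : Finset E4) ∉ Mi Sp := by
    intro s hs h
    obtain ⟨u, hu, he⟩ := mem_Mi.1 h
    have h1 : (0 : E4) ∈ ({P Sp u, P Sp (u + 2)} : Finset E4) := by
      rw [he]
      simp
    rw [Finset.mem_insert, Finset.mem_singleton] at h1
    rcases h1 with h1 | h1
    · exact P_ne_zero hI (hI.asub hu) h1.symm
    · exact P_ne_zero hI (hI.b2 u hu) h1.symm
  rcases mem_V0.1 hx with rfl | ⟨s, hs, rfl⟩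
  · rcases mem_V0.1 hy with rfl | ⟨t, ht, rfl⟩
    · exact absurd rfl hxy
    · exact ⟨fun _ => hz t ht, fun _ => face_zero_pt hI hZ ht⟩
  · rcases mem_V0.1 hy with rfl | ⟨t, ht, rfl⟩
    · rw [Finset.pair_comm]
      exact ⟨fun _ => hz s hs, fun _ => face_zero_pt hI hZ hs⟩
    · have hst : s ≠ t := fun h => hxy (by rw [h])
      rw [pair_mem_Mi hI hs ht hst]
      refine ⟨fun h => ⟨fun h1 => ?_, fun h1 => ?_⟩, face_pt_pt hI hZ hs ht hst⟩
      · rw [h1.2] at h
        exact not_face_axis hI h1.1 h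
      · rw [h1.2, Finset.pair_comm] at h
        exact not_face_axis hI h1.1 h

theorem Mi_subset (hI : Idx I Sp) : Mi Sp ⊆ Finset.powersetCard 2 (V0 I Sp) := by
  intro S hS
  obtain ⟨s, hs, rfl⟩ := mem_Mi.1 hS
  rw [Finset.mem_powersetCard]
  constructor
  · intro x hx
    rcases Finset.mem_insert.1 hx with rfl | hx
    · exact mem_V0.2 (Or.inr ⟨s, hI.asub hs, rfl⟩)
    · rw [Finset.mem_singleton.1 hx]
      exact mem_V0.2 (Or.inr ⟨s + 2, hI.b2 s hs, rfl⟩)
  · apply Finset.card_pair
    intro h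
    have := (P_inj hI (hI.asub hs) (hI.b2 s hs)).1 h
    omega

theorem card_edges_V0 (hI : Idx I Sp) :
    (faces (V0 I Sp) 1).card + (Ax Sp).card = (I.card + 1).choose 2 := by
  have hZ : ∀ z ∈ (∅ : Finset E4), GoodZ I Sp z := fun z hz => absurd hz (Finset.notMem_empty z)
  have h := card_edges_of_missing (convPos_V0 hI) (Mi_subset hI) (fun x hx y hy hxy => by
    have := face_pair_iff hI hZ hx hy hxy
    rwa [Finset.union_empty] at this)
  rwa [card_Mi hI, card_V0 hI] at h

/-- The facets with five points have six 2-faces. -/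
theorem card_faces_G (hI : Idx I Sp) (hZ : ∀ z ∈ Z, GoodZ I Sp z) (h4 : 4 ≤ I.card) {s : ℕ}
    (hs : s ∈ Ax Sp) (hconv : ConvPos (V0 I Sp ∪ Z)) : (faces (G Sp s) 2).card = 6 := by
  have hf := face_G hI hZ hs
  have hG : ConvPos (G Sp s) := hconv.mono hf.2.1
  have h3 := adim_G hI hZ h4 hs
  have hsub : G Sp s ⊆ V0 I Sp := by
    intro x hx
    obtain ⟨t, ht, rfl⟩ := Finset.mem_image.1 hx
    exact mem_V0.2 (Or.inr ⟨t, gI_subset hI hs ht, rfl⟩)
  have hM : ({({P Sp s, P Sp (s + 2)} : Finset E4)} : Finset (Finset E4))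
      ⊆ Finset.powersetCard 2 (G Sp s) := by
    rw [Finset.singleton_subset_iff, Finset.mem_powersetCard]
    constructor
    · intro x hx
      rcases Finset.mem_insert.1 hx with rfl | hx
      · exact Finset.mem_image_of_mem _ (by simp [gI])
      · rw [Finset.mem_singleton.1 hx]
        exact Finset.mem_image_of_mem _ (by simp [gI])
    · apply Finset.card_pair
      intro h
      have := (P_inj hI (hI.asub hs) (hI.b2 s hs)).1 h
      omega
  have hedge := card_edges_of_missing hG hM (fun x hx y hy hxy => by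
    have h1 := face_pair_iff hI hZ (hsub hx) (hsub hy) hxy
    have h2 : FaceSet (G Sp s) {x, y} ↔ FaceSet (V0 I Sp ∪ Z) {x, y} := by
      constructor
      · intro h
        exact FaceSet.trans hf h
      · intro h
        refine h.of_subset hf.2.1 ?_
        intro w hw
        rcases Finset.mem_insert.1 hw with rfl | hw
        · exact hx
        · rw [Finset.mem_singleton.1 hw]
          exact hy
    rw [h2, h1, Finset.mem_singleton]
    constructor
    · intro h he
      exact h (mem_Mi.2 ⟨s, hs, he.symm⟩)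
    · intro h he
      obtain ⟨u, hu, he'⟩ := mem_Mi.1 he
      -- the pair `u, u + 2` is inside `gI s`
      have hmem : ∀ w ∈ ({x, y} : Finset E4), w ∈ G Sp s := by
        intro w hw
        rcases Finset.mem_insert.1 hw with h5 | h5
        · rw [h5]
          exact hx
        · rw [Finset.mem_singleton.1 h5]
          exact hy
      have hu1 : P Sp u ∈ G Sp s := hmem _ (by
        rw [← he']
        simp)
      have hu2 : P Sp (u + 2) ∈ G Sp s := hmem _ (by
        rw [← he']
        simp)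
      obtain ⟨v, hv, hve⟩ := Finset.mem_image.1 hu1
      obtain ⟨v', hv', hve'⟩ := Finset.mem_image.1 hu2
      have huv : v = u := (P_inj hI (gI_subset hI hs hv) (hI.asub hu)).1 hve
      have huv' : v' = u + 2 := (P_inj hI (gI_subset hI hs hv') (hI.b2 u hu)).1 hve'
      rw [huv] at hv
      rw [huv'] at hv'
      simp only [gI, Finset.mem_insert, Finset.mem_singleton] at hv hv'
      have h2s := hI.two s hs
      have huS := hI.axs hu
      rcases hv with rfl | rfl | rfl | rfl | rfl
      · exact hI.na1 s hs huS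
      · exact h he'.symm
      · exact hI.nb1 s hs huS
      · omega
      · omega)
  rw [Finset.card_singleton, card_G hI hs] at hedge
  have h5 : (5 : ℕ).choose 2 = 10 := rfl
  rw [h5] at hedge
  have he := euler_three hG h3
  rw [card_G hI hs] at he
  push_cast at he
  omega

theorem G_injOn (hI : Idx I Sp) : Set.InjOn (G Sp) (Ax Sp : Set ℕ) := by
  have key : ∀ s ∈ Ax Sp, ∀ t ∈ Ax Sp, G Sp s = G Sp t → s = t ∨ s = t + 2 := by
    intro s hs t ht h
    have h1 : P Sp s ∈ G Sp t := by
      rw [← h]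
      exact Finset.mem_image_of_mem _ (by simp [gI])
    obtain ⟨v, hv, hve⟩ := Finset.mem_image.1 h1
    have huv : v = s := (P_inj hI (gI_subset hI ht hv) (hI.asub hs)).1 hve
    rw [huv] at hv
    have hsS := hI.axs hs
    simp only [gI, Finset.mem_insert, Finset.mem_singleton] at hv
    rcases hv with rfl | rfl | rfl | rfl | rfl
    · exact absurd hsS (hI.na1 t ht)
    · exact Or.inl rfl
    · exact absurd hsS (hI.nb1 t ht)
    · exact Or.inr rfl
    · exact absurd hsS (hI.nb3 t ht)
  intro s hs t ht h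
  rw [Finset.mem_coe] at hs ht
  have h1 := key s hs t ht h
  have h2 := key t ht s hs h.symm
  omega

/-- The excess is at least the number of facets with five points. -/
theorem card_Ax_le (hI : Idx I Sp) (hZ : ∀ z ∈ Z, GoodZ I Sp z) (h4 : 4 ≤ I.card)
    (hconv : ConvPos (V0 I Sp ∪ Z)) :
    ((V0 I Sp ∪ Z).card : ℤ) + (faces (V0 I Sp ∪ Z) 3).card + (Ax Sp).card
      ≤ (faces (V0 I Sp ∪ Z) 1).card := by
  set V := V0 I Sp ∪ Z with hV
  have hd : adim V = 4 := adim_W hI h4
  have h1 := two_excess hconv hd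
  have hsub : (Ax Sp).image (G Sp) ⊆ faces V 3 := by
    intro F hF
    obtain ⟨s, hs, rfl⟩ := Finset.mem_image.1 hF
    exact mem_faces.2 ⟨face_G hI hZ hs, adim_G hI hZ h4 hs⟩
  have h2 : ∑ F ∈ (Ax Sp).image (G Sp), (((faces F 2).card : ℤ) - 4)
      ≤ ∑ F ∈ faces V 3, (((faces F 2).card : ℤ) - 4) := by
    apply Finset.sum_le_sum_of_subset_of_nonneg hsub
    intro F hF _
    have hF' := mem_faces.1 hF
    have := four_le_faces_two (hconv.mono hF'.1.2.1) hF'.2
    omega
  have h3 : ∑ F ∈ (Ax Sp).image (G Sp), (((faces F 2).card : ℤ) - 4) = 2 * (Ax Sp).card := by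
    rw [Finset.sum_image (G_injOn hI)]
    rw [Finset.sum_congr rfl (fun s hs => by rw [card_faces_G hI hZ h4 hs hconv])]
    rw [Finset.sum_const, nsmul_eq_mul]
    push_cast
    ring
  omega

end

end Pool.Agent.FVB
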