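import Pool.Agent.Lib.MP_e9c977_fvb.Lower
import Pool.Agent.Lib.MP_e9c977_fvb.Count

/-!
# Row B2: the pyramid over the square pyramid
-/

namespace Pool.Agent.FVB

open Module Pool.Agent.FV
open scoped Classical

attribute [-instance] WithLp.instDecidableEq

noncomputable section

namespace BT

/-- the signs -/
def sg : Fin 6 → ℤ := ![1, -1, 1, -1, 1, 1]

/-- the axes -/
def ax : Fin 6 → Fin 4 := ![0, 0, 1, 1, 2, 3]

/-- the inner products -/
def mat (i j : Fin 6) : ℤ := if ax i = ax j then sg i * sg j else 0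

/-- the points -/
def p (i : Fin 6) : E4 := (sg i : ℝ) • EuclideanSpace.single (ax i) (1 : ℝ)

theorem inner_p (i j : Fin 6) : inner ℝ (p i) (p j) = (mat i j : ℝ) := by
  unfold p mat
  rw [inner_smul_left, inner_smul_right, EuclideanSpace.inner_single_left]
  by_cases h : ax i = ax j
  · simp [h]
  · simp [h]

theorem p_inj : Function.Injective p := by
  intro i j h
  have h1 : (mat i i : ℝ) = mat i j := by rw [← inner_p, ← inner_p, h]
  have h2 : mat i i = mat i j := by exact_mod_cast h1
  clear h h1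
  revert i j
  decide

/-- the configuration -/
def W : Finset E4 := Finset.univ.image p

theorem mem_W {x : E4} : x ∈ W ↔ ∃ i, p i = x := by simp [W]

theorem card_W : W.card = 6 := by
  rw [W, Finset.card_image_of_injective _ p_inj, Finset.card_univ, Fintype.card_fin]

theorem mem_image_p {S : Finset (Fin 6)} {i : Fin 6} : p i ∈ S.image p ↔ i ∈ S := by
  rw [Finset.mem_image]
  constructor
  · rintro ⟨j, hj, h⟩
    rwa [← p_inj h]
  · exact fun h => ⟨i, h, rfl⟩

theorem image_p_inj {S T : Finset (Fin 6)} (h : S.image p = T.image p) : S = T := by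
  ext i
  rw [← mem_image_p, h, mem_image_p]

/-- Faces by integer weights. -/
theorem face_of_weights {S : Finset (Fin 6)} (hS : S.Nonempty) (w : Fin 6 → ℤ) (c : ℤ)
    (h1 : ∀ k, ∑ m, w m * mat m k ≤ c) (h2 : ∀ k, ∑ m, w m * mat m k = c ↔ k ∈ S) :
    FaceSet W (S.image p) := by
  refine ⟨hS.image _, Finset.image_subset_image (Finset.subset_univ _),
    ∑ m, (w m : ℝ) • (innerₛₗ ℝ (p m)), c, ?_, ?_⟩
  · intro x hx
    obtain ⟨k, rfl⟩ := mem_W.1 hx
    have := h1 k
    simp only [LinearMap.sum_apply, LinearMap.smul_apply, innerₛₗ_apply_apply, smul_eq_mul, inner_p]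
    exact_mod_cast this
  · intro x hx
    obtain ⟨k, rfl⟩ := mem_W.1 hx
    rw [mem_image_p, ← h2 k]
    simp only [LinearMap.sum_apply, LinearMap.smul_apply, innerₛₗ_apply_apply, smul_eq_mul, inner_p]
    norm_cast

/-- the indicator -/
def ind (S : Finset (Fin 6)) (m : Fin 6) : ℤ := if m ∈ S then 1 else 0

theorem face_single (i : Fin 6) : FaceSet W {p i} := by
  have h := face_of_weights (S := {i}) (Finset.singleton_nonempty i) (ind {i}) 1 (by
    revert i
    decide) (by
    revert i
    decide)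
  rwa [Finset.image_singleton] at h

theorem convPos_W : ConvPos W := by
  intro x hx
  obtain ⟨i, rfl⟩ := mem_W.1 hx
  exact face_single i

/-- the missing pairs -/
def Mm : Finset (Finset (Fin 6)) := {{0, 1}, {2, 3}}

theorem face_pair {i j : Fin 6} (hij : i ≠ j) (h : ({i, j} : Finset (Fin 6)) ∉ Mm) :
    FaceSet W {p i, p j} := by
  have h' := face_of_weights (S := {i, j}) (by simp) (ind {i, j}) 1 (by
    revert i j
    decide) (by
    revert i j
    decide)
  rwa [Finset.image_insert, Finset.image_singleton] at h'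

theorem p_add : p 0 + p 1 = p 2 + p 3 := by
  ext i
  fin_cases i <;> simp [p, sg, ax]

theorem not_face_aux {a b c d : Fin 6} (h : p a + p b = p c + p d)
    (hne : c ≠ a ∧ c ≠ b) : ¬ FaceSet W {p a, p b} := by
  intro hf
  obtain ⟨f, ⟨l, k, hl⟩, h0, hz⟩ := FaceSet.exists_aff hf
  have e := congrArg l h
  rw [map_add, map_add] at e
  have ha := (hz (p a) (mem_W.2 ⟨a, rfl⟩)).2 (by simp)
  have hb := (hz (p b) (mem_W.2 ⟨b, rfl⟩)).2 (by simp)
  have hc := h0 (p c) (mem_W.2 ⟨c, rfl⟩)
  have hd := h0 (p d) (mem_W.2 ⟨d, rfl⟩)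
  rw [hl] at ha hb hc hd
  have hc0 : f (p c) = 0 := by
    rw [hl]
    linarith
  have h1 := (hz (p c) (mem_W.2 ⟨c, rfl⟩)).1 hc0
  rw [Finset.mem_insert, Finset.mem_singleton] at h1
  rcases h1 with h1 | h1
  · exact hne.1 (p_inj h1)
  · exact hne.2 (p_inj h1)

theorem not_face_pair {i j : Fin 6} (h : ({i, j} : Finset (Fin 6)) ∈ Mm) :
    ¬ FaceSet W {p i, p j} := by
  have h01 : ¬ FaceSet W {p 0, p 1} := not_face_aux p_add (by decide)
  have h23 : ¬ FaceSet W {p 2, p 3} := not_face_aux p_add.symm (by decide)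
  have h10 : ¬ FaceSet W {p 1, p 0} := by rwa [Finset.pair_comm]
  have h32 : ¬ FaceSet W {p 3, p 2} := by rwa [Finset.pair_comm]
  have key : (i = 0 ∧ j = 1) ∨ (i = 1 ∧ j = 0) ∨ (i = 2 ∧ j = 3) ∨ (i = 3 ∧ j = 2) := by
    revert i j
    decide
  rcases key with ⟨rfl, rfl⟩ | ⟨rfl, rfl⟩ | ⟨rfl, rfl⟩ | ⟨rfl, rfl⟩
  · exact h01
  · exact h10
  · exact h23
  · exact h32

theorem card_edges_W : (faces W 1).card = 13 := by
  have hM : (Mm.image (fun S => S.image p)) ⊆ Finset.powersetCard 2 W := by
    intro T hT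
    obtain ⟨S, hS, rfl⟩ := Finset.mem_image.1 hT
    rw [Finset.mem_powersetCard, Finset.card_image_of_injective _ p_inj]
    refine ⟨Finset.image_subset_image (Finset.subset_univ _), ?_⟩
    clear hT
    revert S
    decide
  have h := card_edges_of_missing convPos_W hM (by
    intro x hx y hy hxy
    obtain ⟨i, rfl⟩ := mem_W.1 hx
    obtain ⟨j, rfl⟩ := mem_W.1 hy
    have hij : i ≠ j := fun h => hxy (by rw [h])
    have himg : ({p i, p j} : Finset E4) ∈ Mm.image (fun S => S.image p) ↔
        ({i, j} : Finset (Fin 6)) ∈ Mm := by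
      rw [Finset.mem_image]
      constructor
      · rintro ⟨S, hS, he⟩
        have h1 : S = {i, j} := image_p_inj (by
          rw [he, Finset.image_insert, Finset.image_singleton])
        rwa [← h1]
      · intro h
        exact ⟨_, h, by rw [Finset.image_insert, Finset.image_singleton]⟩
    rw [himg]
    exact ⟨fun hf hM => not_face_pair hM hf, face_pair hij⟩)
  rw [Finset.card_image_of_injOn (fun S _ T _ h => image_p_inj h), card_W] at h
  have h1 : Mm.card = 2 := by decide
  have h2 : (6 : ℕ).choose 2 = 15 := rfl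
  omega

/-- the simplices -/
def FS : Finset (Finset (Fin 6)) := {{0, 2, 4, 5}, {0, 3, 4, 5}, {1, 2, 4, 5}, {1, 3, 4, 5}}

theorem face_FS {S : Finset (Fin 6)} (hS : S ∈ FS) : FaceSet W (S.image p) := by
  refine face_of_weights ?_ (ind S) 1 ?_ ?_
  · revert S
    decide
  · revert S
    decide
  · revert S
    decide

theorem three_le_adim_FS {S : Finset (Fin 6)} (hS : S ∈ FS) : 3 ≤ adim (S.image p) := by
  have hax : ∀ k : Fin 4, ∃ i ∈ S, ax i = k := by
    revert S
    decide
  have htop : vectorSpan ℝ ((insert 0 (S.image p) : Finset E4) : Set E4) = ⊤ := by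
    by_contra hne
    obtain ⟨l, hl0, hl⟩ := Submodule.exists_le_ker_of_lt_top _ (lt_top_iff_ne_top.2 hne)
    apply hl0
    apply (EuclideanSpace.basisFun (Fin 4) ℝ).toBasis.ext
    intro k
    obtain ⟨i, hi, rfl⟩ := hax k
    have h1 : p i - 0 ∈ vectorSpan ℝ ((insert 0 (S.image p) : Finset E4) : Set E4) := by
      apply vsub_mem_vectorSpan
      · rw [Finset.mem_coe]
        exact Finset.mem_insert_of_mem (Finset.mem_image_of_mem _ hi)
      · rw [Finset.mem_coe]
        exact Finset.mem_insert_self _ _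
    have h2 := hl h1
    rw [LinearMap.mem_ker, sub_zero, p, map_smul, smul_eq_mul, mul_eq_zero] at h2
    have h3 : (sg i : ℝ) ≠ 0 := by
      have : sg i ≠ 0 := by
        clear h1 h2 hi
        revert i
        decide
      exact_mod_cast this
    simpa using h2.resolve_left h3
  have h1 : adim (insert 0 (S.image p)) = 4 := by
    unfold adim
    rw [htop, finrank_top, finrank_euclideanSpace_fin]
  have h2 := adim_insert_le (S.image p) 0
  omega

theorem image_ssubset {S : Finset (Fin 6)} (hS : S ≠ Finset.univ) : S.image p ⊂ W :=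
  Finset.ssubset_iff_subset_ne.2 ⟨Finset.image_subset_image (Finset.subset_univ _),
    fun h => hS (image_p_inj h)⟩

theorem adim_W' : adim W = 4 := by
  have hS : ({0, 2, 4, 5} : Finset (Fin 6)) ∈ FS := by decide
  have h1 := (face_FS hS).adim_lt (image_ssubset (by decide)) subset_rfl
  have h2 := three_le_adim_FS hS
  have h3 := adim_le_finrank W
  rw [finrank_euclideanSpace_fin] at h3
  omega

theorem adim_FS {S : Finset (Fin 6)} (hS : S ∈ FS) : adim (S.image p) = 3 := by
  have h1 := (face_FS hS).adim_lt (image_ssubset (by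
    revert S
    decide)) subset_rfl
  have h2 := three_le_adim_FS hS
  rw [adim_W'] at h1
  omega

/-- the big facets -/
def FB : Finset (Finset (Fin 6)) := {{0, 1, 2, 3, 4}, {0, 1, 2, 3, 5}}

theorem face_FB {S : Finset (Fin 6)} (hS : S ∈ FB) : FaceSet W (S.image p) := by
  refine face_of_weights ?_ (fun m => - ind Sᶜ m) 0 ?_ ?_
  · revert S
    decide
  · revert S
    decide
  · revert S
    decide

theorem adim_FB {S : Finset (Fin 6)} (hS : S ∈ FB) : adim (S.image p) = 3 := by
  have h1 := (face_FB hS).adim_lt (image_ssubset (by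
    revert S
    decide)) subset_rfl
  obtain ⟨i, hi⟩ : ∃ i, insert i S = Finset.univ := by
    clear h1
    revert S
    decide
  have h2 := adim_insert_le (S.image p) (p i)
  rw [← Finset.image_insert, hi] at h2
  have h3 : adim (Finset.univ.image p) = 4 := adim_W'
  rw [adim_W'] at h1
  omega

theorem six_le : 6 ≤ (faces W 3).card := by
  have h1 : ((FS ∪ FB).image (fun S => S.image p)) ⊆ faces W 3 := by
    intro T hT
    obtain ⟨S, hS, rfl⟩ := Finset.mem_image.1 hT
    rcases Finset.mem_union.1 hS with hS | hS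
    · exact mem_faces.2 ⟨face_FS hS, adim_FS hS⟩
    · exact mem_faces.2 ⟨face_FB hS, adim_FB hS⟩
  have h2 := Finset.card_le_card h1
  rw [Finset.card_image_of_injOn (fun S _ T _ h => image_p_inj h)] at h2
  have h3 : (FS ∪ FB).card = 6 := by decide
  omega

theorem card_nbr_zero : (nbr W (p 0)).card = 4 := by
  have h : nbr W (p 0) = ({2, 3, 4, 5} : Finset (Fin 6)).image p := by
    ext x
    constructor
    · intro hx
      obtain ⟨hne, hf⟩ := mem_nbr.1 hx
      obtain ⟨j, rfl⟩ := mem_W.1 (hf.2.1 (show x ∈ ({p 0, x} : Finset E4) by simp))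
      rw [mem_image_p]
      have hj0 : j ≠ 0 := fun h => hne (by rw [h])
      have hj1 : ({0, j} : Finset (Fin 6)) ∉ Mm := fun h => not_face_pair h hf
      clear hne hf hx
      revert j
      decide
    · intro hx
      obtain ⟨j, hj, rfl⟩ := Finset.mem_image.1 hx
      have hj0 : (0 : Fin 6) ≠ j := by
        clear hx
        revert j
        decide
      refine mem_nbr.2 ⟨fun h => hj0 (p_inj h).symm, face_pair hj0 ?_⟩
      clear hx
      revert j
      decide
  rw [h, Finset.card_image_of_injective _ p_inj]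
  decide

end BT

open BT

theorem exists_base_two : ∃ V, Conf 6 13 1 V ∧ HasSimplex V ∧ HasSimple V := by
  have h1 := six_le
  have h2 := ziegler_ineq finrank_E4 convPos_W adim_W'
  have h3 := euler_four convPos_W adim_W'
  rw [card_W, card_edges_W] at h2 h3
  refine ⟨W, ⟨convPos_W, adim_W', card_W, card_edges_W, by omega⟩, ?_, ?_⟩
  · have hS : ({0, 2, 4, 5} : Finset (Fin 6)) ∈ FS := by decide
    refine ⟨_, mem_faces.2 ⟨face_FS hS, adim_FS hS⟩, ?_⟩
    rw [Finset.card_image_of_injective _ p_inj]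
    decide
  · exact ⟨p 0, mem_W.2 ⟨0, rfl⟩, card_nbr_zero⟩

end

end Pool.Agent.FVB
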