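import Pool.Agent.Lib.MP_e9c977_fvb.Lower

/-!
# Row E1: excess one
-/

namespace Pool.Agent.FVB

open Module Pool.Agent.FV
open scoped Classical

noncomputable section

variable {E : Type} [NormedAddCommGroup E] [InnerProductSpace ℝ E]

/-- a strictly smaller face -/
theorem ssubset_of_adim {F R : Finset E} (hR : R ⊆ F) (h : adim R < adim F) : R ⊂ F :=
  Finset.ssubset_iff_subset_ne.2 ⟨hR, fun he => by rw [he] at h; exact lt_irrefl _ h⟩

theorem card_eq_four_of_faces {F : Finset E} (hF : ConvPos F) (h3 : adim F = 3)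
    (h4 : (faces F 2).card = 4) : F.card = 4 := by
  have h1 := three_mul_card_le hF h3
  have h2 := four_le_card h3
  have h5 := euler_three hF h3
  omega

/-- In a 3-polytope with five facets, the facets have at most four vertices. -/
theorem card_le_four_of_five {F : Finset E} (hF : ConvPos F) (h3 : adim F = 3)
    (h5 : (faces F 2).card = 5) {R : Finset E} (hR : R ∈ faces F 2) : R.card ≤ 4 := by
  by_contra hcon
  push Not at hcon
  obtain ⟨hRf, hRd⟩ := mem_faces.1 hR
  have h1 := three_mul_card_le hF h3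
  have h2 := euler_three hF h3
  have hlt := Finset.card_lt_card (ssubset_of_adim hRf.2.1 (by omega))
  have hcF : F.card = 6 := by omega
  have hcE : (faces F 1).card = 9 := by omega
  have hcR : R.card = 5 := by omega
  have hd : (F \ R).card = 1 := by
    rw [Finset.card_sdiff_of_subset hRf.2.1]
    omega
  obtain ⟨v, hv⟩ := Finset.card_eq_one.1 hd
  have hvF : v ∈ F := (Finset.mem_sdiff.1 (hv ▸ Finset.mem_singleton_self v)).1
  have hdeg : ∀ x ∈ F, 3 ≤ (nbr F x).card := fun x hx => by
    have := adim_le_card_nbr hF hx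
    omega
  have hsum := sum_card_nbr hF
  have hv3 : (nbr F v).card ≤ 3 := by
    rw [← Finset.add_sum_erase _ _ hvF] at hsum
    have h6 : ∑ _x ∈ F.erase v, 3 ≤ ∑ x ∈ F.erase v, (nbr F x).card :=
      Finset.sum_le_sum fun x hx => hdeg x (Finset.mem_of_mem_erase hx)
    rw [Finset.sum_const, Finset.card_erase_of_mem hvF, smul_eq_mul, hcF] at h6
    omega
  have hsub : R ⊆ nbr F v := by
    intro x hx
    have h6 := hdeg x (hRf.2.1 hx)
    have h7 := card_nbr_polygon (hF.mono hRf.2.1) hRd hx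
    rw [nbr_face hRf hx] at h7
    obtain ⟨w, hw, hwR⟩ : ∃ w ∈ nbr F x, w ∉ R := by
      by_contra hc
      push Not at hc
      rw [Finset.inter_eq_right.2 hc] at h7
      omega
    have hwF := (Finset.mem_erase.1 (nbr_subset hw)).2
    have h8 : w ∈ F \ R := Finset.mem_sdiff.2 ⟨hwF, hwR⟩
    rw [hv, Finset.mem_singleton] at h8
    rw [← h8]
    exact nbr_symm.1 hw
  have := Finset.card_le_card hsub
  omega

theorem sum_le_one {V : Finset E} (hV : ConvPos V) (h4 : adim V = 4)
    (hs : ∑ F ∈ faces V 3, (((faces F 2).card : ℤ) - 4) = 2) :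
    ∑ R ∈ faces V 2, R.card ≤ 3 * (faces V 2).card + 1 := by
  have hF : ∀ F ∈ faces V 3, ConvPos F ∧ adim F = 3 := fun F hF =>
    ⟨hV.mono (mem_faces.1 hF).1.2.1, (mem_faces.1 hF).2⟩
  have h0 : ∀ F ∈ faces V 3, 0 ≤ ((faces F 2).card : ℤ) - 4 := fun F h => by
    have := four_le_faces_two (hF F h).1 (hF F h).2
    omega
  set N := (faces V 2).filter (fun R => R.card ≠ 3) with hN
  -- the two facets of a 2-face which is not a triangle
  have hbig : ∀ R ∈ N, ∀ F ∈ faces V 3, R ⊆ F → 1 ≤ ((faces F 2).card : ℤ) - 4 := by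
    intro R hR F hFV hRF
    rw [hN, Finset.mem_filter] at hR
    obtain ⟨hRf, hRd⟩ := mem_faces.1 hR.1
    by_contra hcon
    have h6 := h0 F hFV
    have h7 : (faces F 2).card = 4 := by omega
    have h8 := card_eq_four_of_faces (hF F hFV).1 (hF F hFV).2 h7
    have h9 := Finset.card_lt_card (ssubset_of_adim hRF (by rw [hRd, (hF F hFV).2]; omega))
    have h10 := three_le_card_polygon (hV.mono hRf.2.1) hRd
    exact hR.2 (by omega)
  have htwo : ∀ R ∈ N, ∃ F F', F ∈ faces V 3 ∧ F' ∈ faces V 3 ∧ F ≠ F' ∧ R = F ∩ F' ∧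
      (∀ F'' ∈ faces V 3, F'' ≠ F → F'' ≠ F' → ((faces F'' 2).card : ℤ) - 4 = 0) ∧
      (faces F 2).card = 5 := by
    intro R hR
    have hR2 := (Finset.mem_filter.1 hR).1
    obtain ⟨hRf, hRd⟩ := mem_faces.1 hR2
    obtain ⟨F, F', hne, hpair⟩ := Finset.card_eq_two.1 (two_facets h4 hR2)
    have m1 : F ∈ (faces V 3).filter (fun F => R ⊆ F) := by rw [hpair]; simp
    have m2 : F' ∈ (faces V 3).filter (fun F => R ⊆ F) := by rw [hpair]; simp
    rw [Finset.mem_filter] at m1 m2
    have b1 := hbig R hR F m1.1 m1.2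
    have b2 := hbig R hR F' m2.1 m2.2
    have hsub : ({F, F'} : Finset (Finset E)) ⊆ faces V 3 := by
      intro G hG
      rcases Finset.mem_insert.1 hG with rfl | hG
      · exact m1.1
      · rw [Finset.mem_singleton.1 hG]
        exact m2.1
    have hsplit := Finset.sum_sdiff (f := fun F => (((faces F 2).card : ℤ) - 4)) hsub
    rw [hs, Finset.sum_pair hne] at hsplit
    have hrest : 0 ≤ ∑ F ∈ faces V 3 \ {F, F'}, (((faces F 2).card : ℤ) - 4) :=
      Finset.sum_nonneg fun G hG => h0 G (Finset.mem_sdiff.1 hG).1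
    have hrest0 : ∑ F ∈ faces V 3 \ {F, F'}, (((faces F 2).card : ℤ) - 4) = 0 := by omega
    have hall := (Finset.sum_eq_zero_iff_of_nonneg (fun G hG => h0 G (Finset.mem_sdiff.1 hG).1)).1
      hrest0
    refine ⟨F, F', m1.1, m2.1, hne, ?_, ?_, by omega⟩
    · obtain ⟨f1, d1⟩ := mem_faces.1 m1.1
      obtain ⟨f2, d2⟩ := mem_faces.1 m2.1
      have hI : FaceSet V (F ∩ F') := f1.inter f2 (hRf.1.mono (Finset.subset_inter m1.2 m2.2))
      have hlt : adim (F ∩ F') < 3 := by
        rw [← d1]
        refine hI.adim_lt (Finset.ssubset_iff_subset_ne.2 ⟨Finset.inter_subset_left, fun he => ?_⟩)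
          f1.2.1
        have h6 : F ⊆ F' := by
          rw [← he]
          exact Finset.inter_subset_right
        exact hne (f1.eq_of_adim h6 f2.2.1 (by omega))
      have hge := adim_mono (Finset.subset_inter m1.2 m2.2)
      exact hRf.eq_of_adim (Finset.subset_inter m1.2 m2.2) hI.2.1 (by omega)
    · intro G hG hG1 hG2
      exact hall G (Finset.mem_sdiff.2 ⟨hG, by simp [hG1, hG2]⟩)
  have hcard : N.card ≤ 1 := by
    rw [Finset.card_le_one]
    intro R hR R' hR'
    obtain ⟨F, F', m1, m2, hne, e1, z1, -⟩ := htwo R hR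
    obtain ⟨G, G', k1, k2, hne', e2, z2, -⟩ := htwo R' hR'
    have g1 := hbig R' hR' G k1 (by rw [e2]; exact Finset.inter_subset_left)
    have g2 := hbig R' hR' G' k2 (by rw [e2]; exact Finset.inter_subset_right)
    have hG : G = F ∨ G = F' := by
      by_contra hcon
      push Not at hcon
      have := z1 G k1 hcon.1 hcon.2
      omega
    have hG' : G' = F ∨ G' = F' := by
      by_contra hcon
      push Not at hcon
      have := z1 G' k2 hcon.1 hcon.2
      omega
    rcases hG with rfl | rfl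
    · rcases hG' with rfl | rfl
      · exact absurd rfl hne'
      · rw [e1, e2]
    · rcases hG' with rfl | rfl
      · rw [e1, e2, Finset.inter_comm]
      · exact absurd rfl hne'
  have hle4 : ∀ R ∈ N, R.card ≤ 4 := by
    intro R hR
    obtain ⟨F, F', m1, m2, hne, e1, z1, h5⟩ := htwo R hR
    have hR2 := (Finset.mem_filter.1 hR).1
    refine card_le_four_of_five (hF F m1).1 (hF F m1).2 h5 ?_
    rw [faces_face (mem_faces.1 m1).1, Finset.mem_filter]
    exact ⟨hR2, by rw [e1]; exact Finset.inter_subset_left⟩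
  have hsplit := Finset.sum_filter_add_sum_filter_not (faces V 2) (fun R => R.card ≠ 3)
    (fun R => R.card)
  have hs1 : ∑ R ∈ (faces V 2).filter (fun R => R.card ≠ 3), R.card ≤ 4 * N.card := by
    calc ∑ R ∈ N, R.card ≤ ∑ _R ∈ N, 4 := Finset.sum_le_sum hle4
      _ = 4 * N.card := by rw [Finset.sum_const, smul_eq_mul, mul_comm]
  have hs2 : ∑ R ∈ (faces V 2).filter (fun R => ¬ R.card ≠ 3), R.card
      = 3 * ((faces V 2).filter (fun R => ¬ R.card ≠ 3)).card := by
    rw [Finset.sum_congr rfl (fun R hR => not_not.1 (Finset.mem_filter.1 hR).2), Finset.sum_const,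
      smul_eq_mul, mul_comm]
  have hc := Finset.card_filter_add_card_filter_not (s := faces V 2) (fun R => R.card ≠ 3)
  rw [← hN] at hc hsplit hs1
  omega

theorem Conf.lower_one {n x : ℕ} {V : Finset E4} (h : Conf n x 1 V) : 4 * n ≤ x + 11 := by
  have e0 := h.card
  have e1 := h.edges
  have e3 := h.exc
  have h2 := two_excess h.conv h.dim
  have hs : ∑ F ∈ faces V 3, (((faces F 2).card : ℤ) - 4) = 2 := by omega
  have h3 := sum_le_one h.conv h.dim hs
  obtain ⟨a, ha⟩ : ∃ a : Finset E4 → E4, ∀ R ∈ faces V 2, a R ∈ R := by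
    have : ∀ R : Finset E4, ∃ x : E4, R ∈ faces V 2 → x ∈ R := by
      intro R
      by_cases h : R ∈ faces V 2
      · obtain ⟨x, hx⟩ := (mem_faces.1 h).1.1
        exact ⟨x, fun _ => hx⟩
      · exact ⟨0, fun h' => absurd h' h⟩
    choose a ha using this
    exact ⟨a, fun R hR => ha R hR⟩
  have h4 := four_mul_card_le finrank_E4 h.conv h.dim ha
  have h5 := card_bars h.conv ha
  omega

end

end Pool.Agent.FVB
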