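import Pool.Agent.Lib.MP_e9c977_fvb.Lower

/-!
# Row OP: stacking and truncating
-/

namespace Pool.Agent.FVB

open Module Pool.Agent.FV
open scoped Classical

noncomputable section

theorem Conf.stack {n x e : ℕ} {V : Finset E4} (h : Conf n x e V) (hs : HasSimplex V) :
    ∃ V', Conf (n + 1) (x + 4) e V' ∧ HasSimplex V' ∧ HasSimple V' := by
  obtain ⟨T, hT, hc⟩ := hs
  obtain ⟨V', hV', h4', h0, h1, h2, h3, hz, hT'⟩ := exists_stack h.conv h.dim hT hc
  have e0 := h.card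
  have e1 := h.edges
  have e3 := h.exc
  exact ⟨V', ⟨hV', h4', by omega, by omega, by omega⟩, hT', hz⟩

/-- Repeated stacking. -/
theorem Conf.stacks {n x e : ℕ} {V : Finset E4} (h : Conf n x e V) (hs : HasSimplex V) (k : ℕ) :
    ∃ V', Conf (n + k) (x + 4 * k) e V' ∧ HasSimplex V' ∧ (0 < k → HasSimple V') := by
  induction k with
  | zero => exact ⟨V, h, hs, fun h' => absurd h' (lt_irrefl 0)⟩
  | succ k ih =>
    obtain ⟨V₁, h₁, hs₁, -⟩ := ih
    obtain ⟨V₂, h₂, hs₂, hz₂⟩ := h₁.stack hs₁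
    refine ⟨V₂, ?_, hs₂, fun _ => hz₂⟩
    have : n + (k + 1) = n + k + 1 := rfl
    rw [this, show x + 4 * (k + 1) = x + 4 * k + 4 by ring]
    exact h₂

/-- `k + 1` truncations of simple vertices -/
theorem Conf.truncate {n x e : ℕ} {V : Finset E4} (h : Conf n x e V) (hs : HasSimple V) (k : ℕ) :
    ∃ V', Conf (n + 3 * (k + 1)) (x + 6 * (k + 1)) (e + 2 * (k + 1)) V' ∧ HasSimplex V' := by
  have hE := h.euler
  have e0 := h.card
  have e1 := h.edges
  have e3 := h.exc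
  obtain ⟨W, hW, hW4, w0, w1, w2, w3, hw⟩ := exists_polar_four h.conv h.dim finrank_E4
  have key : ∀ k : ℕ, ∃ W' : Finset E4, ConvPos W' ∧ adim W' = 4 ∧ W'.card = W.card + k ∧
      (faces W' 1).card = (faces W 1).card + 4 * k ∧ (faces W' 2).card = (faces W 2).card + 6 * k ∧
      (faces W' 3).card = (faces W 3).card + 3 * k ∧ (∃ T' ∈ faces W' 3, T'.card = 4) ∧
      (0 < k → ∃ z ∈ W', (nbr W' z).card = 4) := by
    intro k
    induction k with
    | zero => exact ⟨W, hW, hW4, rfl, rfl, rfl, rfl, hw hs, fun h' => absurd h' (lt_irrefl 0)⟩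
    | succ k ih =>
      obtain ⟨W₁, hW₁, a1, a2, a3, a4, a5, ⟨T, hT, hc⟩, -⟩ := ih
      obtain ⟨W₂, hW₂, b1, b2, b3, b4, b5, hz, hT'⟩ := exists_stack hW₁ a1 hT hc
      exact ⟨W₂, hW₂, b1, by omega, by omega, by omega, by omega, hT', fun _ => hz⟩
  obtain ⟨W', hW', a1, a2, a3, a4, a5, -, hz⟩ := key (k + 1)
  obtain ⟨V', hV', c1, c2, c3, c4, c5, hT⟩ := exists_polar_four hW' a1 finrank_E4
  refine ⟨V', ⟨hV', c1, by omega, by omega, by omega⟩, hT (hz (by omega))⟩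

end

end Pool.Agent.FVB
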