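import Pool.Agent.Lib.MP_e9c977_fvb.Partial
import Pool.Agent.Lib.MP_e9c977_fvb.Ops
import Pool.Agent.Lib.MP_e9c977_fvb.ExcessOne
import Pool.Agent.Lib.MP_e9c977_fvb.BaseTwo
import Pool.Agent.Lib.MP_e9c977_fvb.BaseThree

/-!
# Row AS: the exact region
-/

namespace Pool.Agent.FVB

open Module Pool.Agent.FV
open scoped Classical

noncomputable section

/-- the defect of the lower bound -/
def cdef (e : ℕ) : ℕ := if Even e then 0 else if e = 1 then 2 else 1

theorem choose_succ_two (n : ℕ) : (n + 1).choose 2 = n + n.choose 2 := by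
  have h : (n + 1).choose 2 = n.choose 1 + n.choose 2 := Nat.choose_succ_succ' n 1
  rwa [Nat.choose_one_right] at h

theorem two_mul_le_choose {N : ℕ} (h : 5 ≤ N) : 2 * N ≤ N.choose 2 := by
  have h1 := two_mul_choose_two_add N
  nlinarith

/-- The polytopes of excess `K`. -/
theorem exists_family (K N : ℕ) (h5 : 5 ≤ N) (hK : 2 * K + 4 ≤ N) {n : ℕ} (hn : N ≤ n) :
    ∀ x, N.choose 2 + 4 * (n - N) ≤ x + K → x + K ≤ n.choose 2 →
      ∃ V, Conf n x K V ∧ (x + K < n.choose 2 → HasSimplex V) := by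
  have hN := two_mul_le_choose h5
  induction n, hn using Nat.le_induction with
  | base =>
    intro x h1 h2
    obtain ⟨V, y, hV, hy⟩ := exists_top K N h5 hK
    have hxy : y = x := by omega
    subst hxy
    exact ⟨V, hV, fun h => by omega⟩
  | succ n hn ih =>
    intro x h1 h2
    have hch := choose_succ_two n
    by_cases htop : x + K = (n + 1).choose 2
    · obtain ⟨V, y, hV, hy⟩ := exists_top K (n + 1) (by omega) (by omega)
      have hxy : y = x := by omega
      subst hxy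
      exact ⟨V, hV, fun h => by omega⟩
    · by_cases hlow : n.choose 2 + 4 ≤ x + K
      · obtain ⟨V, y, hV, hy, hs⟩ := exists_partial K n (x + K - n.choose 2) (by omega) (by omega)
          (by omega) (by omega)
        have hxy : y = x := by omega
        subst hxy
        exact ⟨V, hV, fun _ => hs⟩
      · obtain ⟨V, hV, hs⟩ := ih (x - 4) (by omega) (by omega)
        obtain ⟨V', hV', hs', -⟩ := hV.stack (hs (by omega))
        have hxy : x - 4 + 4 = x := by omega
        rw [hxy] at hV'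
        exact ⟨V', hV', fun _ => hs'⟩

/-- The truncated polytopes. -/
theorem exists_low (K N k : ℕ) (h5 : 5 ≤ N) (hK : 2 * K + 4 ≤ N) {m y : ℕ} (hm : N ≤ m)
    (h1 : N.choose 2 + 4 * (m - N) ≤ y + K) (h2 : y + K < m.choose 2) :
    ∃ V, Conf (m + 1 + 3 * (k + 1)) (y + 4 + 6 * (k + 1)) (K + 2 * (k + 1)) V := by
  obtain ⟨V, hV, hs⟩ := exists_family K N h5 hK hm y h1 h2.le
  obtain ⟨V', hV', -, hz⟩ := hV.stack (hs h2)
  obtain ⟨V'', hV'', -⟩ := hV'.truncate hz k
  exact ⟨V'', hV''⟩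

/-- the arithmetic of two consecutive ranges -/
theorem range_aux {e n k : ℕ} (hn : 2 * e + 9 ≤ n) (hk : 2 * (k + 1) ≤ e) :
    (2 * (e - 2 * k) + 4).choose 2 + 4 * (n - (2 * (e - 2 * k) + 4))
      ≤ (n - 1 - 3 * (k + 1)).choose 2 + 4 + 8 * (k + 1) + 4 * k := by
  obtain ⟨K, rfl⟩ : ∃ K, e = 2 * (k + 1) + K := ⟨e - 2 * (k + 1), by omega⟩
  obtain ⟨c, rfl⟩ : ∃ c, n = 2 * (2 * (k + 1) + K) + 9 + c :=
    ⟨n - (2 * (2 * (k + 1) + K) + 9), by omega⟩
  have e1 : 2 * (2 * (k + 1) + K - 2 * k) + 4 = 2 * K + 8 := by omega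
  have e2 : 2 * (2 * (k + 1) + K) + 9 + c - 1 - 3 * (k + 1) = (2 * K + 8) + (k + 1 + c) := by omega
  have e3 : 2 * (2 * (k + 1) + K) + 9 + c - (2 * K + 8) = 4 * k + 5 + c := by omega
  rw [e1, e2, e3]
  have h1 := two_mul_choose_two_add (2 * K + 8)
  have h2 := two_mul_choose_two_add ((2 * K + 8) + (k + 1 + c))
  have h3 : (k + 1 + c) ≤ (k + 1 + c) ^ 2 := by nlinarith
  have h4 : 8 * (k + 1 + c) ≤ (2 * K + 8) * (k + 1 + c) := by nlinarith
  have h5 : ((2 * K + 8) + (k + 1 + c)) ^ 2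
      = (2 * K + 8) ^ 2 + 2 * ((2 * K + 8) * (k + 1 + c)) + (k + 1 + c) ^ 2 := by ring
  rw [h5] at h2
  omega

/-- The ranges with at most `k` truncations. -/
theorem exists_range {e n : ℕ} (hn : 2 * e + 9 ≤ n) (k : ℕ) : 2 * k ≤ e → ∀ N, 5 ≤ N →
    2 * (e - 2 * k) + 4 ≤ N → N ≤ 2 * (e - 2 * k) + 5 → ∀ x,
    N.choose 2 + 4 * (n - N) ≤ x + e + 4 * k → x + e ≤ n.choose 2 → ∃ V, Conf n x e V := by
  induction k with
  | zero =>
    intro _ N h5 hN hN' x h1 h2
    obtain ⟨V, hV, -⟩ := exists_family e N h5 (by omega) (by omega) x (by omega) h2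
    exact ⟨V, hV⟩
  | succ k ih =>
    intro hk N h5 hN hN' x h1 h2
    by_cases hcase : (2 * (e - 2 * k) + 4).choose 2 + 4 * (n - (2 * (e - 2 * k) + 4))
        ≤ x + e + 4 * k
    · exact ih (by omega) _ (by omega) le_rfl (by omega) x hcase h2
    · have hr := range_aux hn hk
      have h2N := two_mul_le_choose h5
      obtain ⟨K, rfl⟩ : ∃ K, e = K + 2 * (k + 1) := ⟨e - 2 * (k + 1), by omega⟩
      obtain ⟨m, rfl⟩ : ∃ m, n = m + 1 + 3 * (k + 1) := ⟨n - 1 - 3 * (k + 1), by omega⟩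
      obtain ⟨y, rfl⟩ : ∃ y, x = y + 4 + 6 * (k + 1) := ⟨x - 4 - 6 * (k + 1), by omega⟩
      have e1 : m + 1 + 3 * (k + 1) - 1 - 3 * (k + 1) = m := by omega
      rw [e1] at hr
      exact exists_low K N k h5 (by omega) (by omega) (by omega) (by omega)

theorem exists_conf_iff {n x e : ℕ} (hn : 2 * e + 9 ≤ n) (h3 : e = 3 → x + 18 ≠ 4 * n) :
    (∃ V, Conf n x e V) ↔ 4 * n + cdef e ≤ x + 3 * e + 10 ∧ x + e ≤ n.choose 2 := by
  constructor
  · rintro ⟨V, hV⟩
    refine ⟨?_, hV.le_choose⟩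
    have h1 := hV.lower
    unfold cdef
    split_ifs with h2 h4
    · omega
    · subst h4
      have := hV.lower_one
      omega
    · have h5 : 4 * n ≠ x + 3 * e + 10 := fun h => h2 (hV.even h)
      omega
  · rintro ⟨h1, h2⟩
    rcases Nat.even_or_odd' e with ⟨k, hk | hk⟩
    · -- even
      have h10 : (5 : ℕ).choose 2 = 10 := rfl
      exact exists_range hn k (by omega) 5 le_rfl (by omega) (by omega) x (by rw [h10]; omega) h2
    · -- odd
      have hodd : ¬ Even e := by
        rw [Nat.not_even_iff_odd]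
        exact ⟨k, hk⟩
      unfold cdef at h1
      rw [if_neg hodd] at h1
      by_cases hd3 : 4 * n + 3 ≤ x + 3 * e + 10
      · have h15 : (6 : ℕ).choose 2 = 15 := rfl
        exact exists_range hn k (by omega) 6 (by norm_num) (by omega) (by omega) x
          (by rw [h15]; omega) h2
      rcases Nat.eq_zero_or_pos k with h0 | hpos
      · have he : e = 1 := by omega
        subst he
        rw [if_pos rfl] at h1
        have hx : x = 13 + 4 * (n - 6) := by omega
        obtain ⟨V, hV, hs, -⟩ := exists_base_two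
        obtain ⟨V', hV', -⟩ := hV.stacks hs (n - 6)
        have e1 : 6 + (n - 6) = n := by omega
        rw [e1, ← hx] at hV'
        exact ⟨V', hV'⟩
      · have he1 : e ≠ 1 := by omega
        rw [if_neg he1] at h1
        obtain ⟨k, rfl⟩ : ∃ l, k = l + 1 := ⟨k - 1, by omega⟩
        obtain ⟨m, rfl⟩ : ∃ m, n = m + 1 + 3 * (k + 1) := ⟨n - 1 - 3 * (k + 1), by omega⟩
        by_cases hd2 : 4 * (m + 1 + 3 * (k + 1)) + 2 = x + 3 * e + 10
        · obtain ⟨V, hV, hs, hz⟩ := exists_base_two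
          obtain ⟨V', hV', -, hz'⟩ := hV.stacks hs (m + 1 - 6)
          obtain ⟨V'', hV'', -⟩ := hV'.truncate (hz' (by omega)) k
          have e1 : 6 + (m + 1 - 6) + 3 * (k + 1) = m + 1 + 3 * (k + 1) := by omega
          have e2 : 13 + 4 * (m + 1 - 6) + 6 * (k + 1) = x := by omega
          have e3 : 1 + 2 * (k + 1) = e := by omega
          rw [e1, e2, e3] at hV''
          exact ⟨V'', hV''⟩
        · -- `δ = 1`
          have hk1 : k ≠ 0 := by
            intro hk0
            subst hk0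
            exact h3 (by omega) (by omega)
          obtain ⟨k, rfl⟩ : ∃ l, k = l + 1 := ⟨k - 1, by omega⟩
          obtain ⟨V, hV, hz⟩ := exists_base_three
          obtain ⟨V', hV', hs'⟩ := hV.truncate hz k
          obtain ⟨V'', hV'', -⟩ := hV'.stacks hs' (m + 1 + 3 - 9)
          have e1 : 9 + 3 * (k + 1) + (m + 1 + 3 - 9) = m + 1 + 3 * (k + 1 + 1) := by omega
          have e2 : 18 + 6 * (k + 1) + 4 * (m + 1 + 3 - 9) = x := by omega
          have e3 : 3 + 2 * (k + 1) = e := by omega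
          rw [e1, e2, e3] at hV''
          exact ⟨V'', hV''⟩

end

end Pool.Agent.FVB
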