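import Pool.Agent.Lib.MP_e9c977_fv.Final
import Pool.Agent.Lib.MP_e9c977_fv.Neigh

/-!
# 4-polytopes of given excess: definitions

The excess of a 4-polytope is `f₁ - f₀ - f₃`; it is `0` exactly for the simplicial ones.
`Conf n x e V`: the configuration `V` in `ℝ⁴` is in convex position, spans, and has `n` points,
`x` edges and excess `e`.
-/

namespace Pool.Agent.FVB

open Module Pool.Agent.FV
open scoped Classical

noncomputable section

/-- Euclidean 4-space. -/
abbrev E4 : Type := EuclideanSpace ℝ (Fin 4)

/-- `V` has `n` points, `x` edges and excess `e`. -/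
structure Conf (n x e : ℕ) (V : Finset E4) : Prop where
  conv : ConvPos V
  dim : adim V = 4
  card : V.card = n
  edges : (faces V 1).card = x
  exc : x = n + (faces V 3).card + e

/-- Some facet is a simplex. -/
def HasSimplex (V : Finset E4) : Prop := ∃ T ∈ faces V 3, T.card = 4

/-- Some vertex has degree four. -/
def HasSimple (V : Finset E4) : Prop := ∃ z ∈ V, (nbr V z).card = 4

end

end Pool.Agent.FVB
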