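import Pool.Agent.Lib.MP_e9c977_fvb.Pts

/-!
# The faces of the configuration
-/

namespace Pool.Agent.FVB

open Module Pool.Agent.FV
open scoped Classical

attribute [-instance] WithLp.instDecidableEq

noncomputable section

/-- The lower ends of the missing pairs. -/
def Ax (Sp : Finset ℕ) : Finset ℕ := Sp.filter (fun t => t + 2 ∈ Sp)

theorem mem_Ax {Sp : Finset ℕ} {t : ℕ} : t ∈ Ax Sp ↔ t ∈ Sp ∧ t + 2 ∈ Sp := by
  rw [Ax, Finset.mem_filter]

/-- The index sets. -/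
structure Idx (I Sp : Finset ℕ) : Prop where
  pos : ∀ s ∈ I, 1 ≤ s
  one : 1 ∈ I
  sub : Sp ⊆ I
  two' : ∀ t ∈ Sp, 2 ≤ t
  nb1' : ∀ t ∈ Sp, t + 1 ∉ Sp
  a1 : ∀ t ∈ Ax Sp, t - 1 ∈ I
  b1 : ∀ t ∈ Ax Sp, t + 1 ∈ I
  b3 : ∀ t ∈ Ax Sp, t + 3 ∈ I

/-- The weights. -/
def wt (Sp : Finset ℕ) (s : ℕ) : ℝ := if s ∈ Sp then 3 else 0

theorem wt_nonneg (Sp : Finset ℕ) (s : ℕ) : 0 ≤ wt Sp s := by
  unfold wt
  split_ifs <;> norm_num

theorem wt_mem {Sp : Finset ℕ} {s : ℕ} (h : s ∈ Sp) : wt Sp s = 3 := by simp [wt, h]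

theorem wt_not_mem {Sp : Finset ℕ} {s : ℕ} (h : s ∉ Sp) : wt Sp s = 0 := by simp [wt, h]

theorem den_pos (Sp : Finset ℕ) {s : ℕ} (h : 1 ≤ s) : 0 < (s : ℝ) ^ 4 + wt Sp s := by
  have h1 : (0 : ℝ) < s := by exact_mod_cast h
  have := wt_nonneg Sp s
  positivity

/-- The points. -/
def P (Sp : Finset ℕ) (s : ℕ) : E4 := pt (wt Sp) s

/-- The configuration. -/
def V0 (I Sp : Finset ℕ) : Finset E4 := insert 0 (I.image (P Sp))

/-- Points near the middle of an edge at the origin. -/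
structure GoodZ (I Sp : Finset ℕ) (z : E4) : Prop where
  last : 0 < ev 0 0 0 0 1 z
  g2 : ∀ s ∈ I, 0 < qt s s s s z
  g3 : ∀ t ∈ Sp, 0 < qd ((t : ℝ) - 1) (t + 1) z
  g4 : ∀ s ∈ I, 0 < qd s s z
  g5 : ∀ s ∈ I, ∀ t ∈ I, 0 < qt s s t t z
  g6 : ∀ t ∈ Sp, ∀ s ∈ I, 0 < qt ((t : ℝ) - 1) (t + 1) s s z
  g7 : ∀ t ∈ Sp, ∀ u ∈ Sp, 0 < qt ((t : ℝ) - 1) (t + 1) ((u : ℝ) - 1) (u + 1) z
  g8 : ∀ t ∈ Ax Sp, 0 < qt ((t : ℝ) - 1) (t + 1) (t + 1) (t + 3) z

section

variable {I Sp : Finset ℕ} {Z : Finset E4}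

theorem Idx.axs (_ : Idx I Sp) {t : ℕ} (ht : t ∈ Ax Sp) : t ∈ Sp := (mem_Ax.1 ht).1

theorem Idx.axt (_ : Idx I Sp) {t : ℕ} (ht : t ∈ Ax Sp) : t + 2 ∈ Sp := (mem_Ax.1 ht).2

theorem Idx.asub (hI : Idx I Sp) {t : ℕ} (ht : t ∈ Ax Sp) : t ∈ I := hI.sub (hI.axs ht)

theorem Idx.b2 (hI : Idx I Sp) (t : ℕ) (ht : t ∈ Ax Sp) : t + 2 ∈ I := hI.sub (hI.axt ht)

theorem Idx.two (hI : Idx I Sp) (t : ℕ) (ht : t ∈ Ax Sp) : 2 ≤ t := hI.two' t (hI.axs ht)

theorem Idx.na1 (hI : Idx I Sp) (t : ℕ) (ht : t ∈ Ax Sp) : t - 1 ∉ Sp := by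
  intro h
  have h2 := hI.two t ht
  have h1 := hI.nb1' _ h
  rw [show t - 1 + 1 = t by omega] at h1
  exact h1 (hI.axs ht)

theorem Idx.nb1 (hI : Idx I Sp) (t : ℕ) (ht : t ∈ Ax Sp) : t + 1 ∉ Sp := hI.nb1' t (hI.axs ht)

theorem Idx.nb3 (hI : Idx I Sp) (t : ℕ) (ht : t ∈ Ax Sp) : t + 3 ∉ Sp := hI.nb1' _ (hI.axt ht)

theorem mem_V0 {x : E4} : x ∈ V0 I Sp ↔ x = 0 ∨ ∃ s ∈ I, P Sp s = x := by
  simp [V0]

theorem zero_mem : (0 : E4) ∈ V0 I Sp ∪ Z :=
  Finset.mem_union_left _ (mem_V0.2 (Or.inl rfl))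

theorem P_mem {s : ℕ} (h : s ∈ I) : P Sp s ∈ V0 I Sp ∪ Z :=
  Finset.mem_union_left _ (mem_V0.2 (Or.inr ⟨s, h, rfl⟩))

theorem forall_W {p : E4 → Prop} (h0 : p 0) (h1 : ∀ s ∈ I, p (P Sp s)) (h2 : ∀ z ∈ Z, p z) :
    ∀ x ∈ V0 I Sp ∪ Z, p x := by
  intro x hx
  rcases Finset.mem_union.1 hx with hx | hx
  · rcases mem_V0.1 hx with rfl | ⟨s, hs, rfl⟩
    · exact h0
    · exact h1 s hs
  · exact h2 x hx

theorem P_inj (hI : Idx I Sp) {s t : ℕ} (hs : s ∈ I) (ht : t ∈ I) : P Sp s = P Sp t ↔ s = t :=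
  ⟨fun h => pt_injOn (den_pos Sp (hI.pos s hs)) (den_pos Sp (hI.pos t ht)) h, fun h => by rw [h]⟩

theorem P_ne_zero (hI : Idx I Sp) {s : ℕ} (hs : s ∈ I) : P Sp s ≠ 0 :=
  pt_ne_zero (den_pos Sp (hI.pos s hs))

theorem qt_P (hI : Idx I Sp) (a b c d : ℝ) {s : ℕ} (h : s ∈ I) :
    qt a b c d (P Sp s) =
      ((s - a) * (s - b) * (s - c) * (s - d) + wt Sp s) / ((s : ℝ) ^ 4 + wt Sp s) :=
  qt_pt _ _ _ _ (den_pos Sp (hI.pos s h))

theorem qd_P (hI : Idx I Sp) (a b : ℝ) {s : ℕ} (h : s ∈ I) :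
    qd a b (P Sp s) = ((s - a) * (s - b)) / ((s : ℝ) ^ 4 + wt Sp s) :=
  qd_pt _ _ (den_pos Sp (hI.pos s h))

theorem cu_P (hI : Idx I Sp) (b c d : ℝ) {s : ℕ} (h : s ∈ I) :
    cu b c d (P Sp s) = ((b - s) * (s - c) * (s - d)) / ((s : ℝ) ^ 4 + wt Sp s) :=
  cu_pt _ _ _ (den_pos Sp (hI.pos s h))

/-- `(s - t)² - 1 ≥ 0`. -/
theorem sq_sub_one {s t : ℕ} (h : s ≠ t) :
    (0 : ℝ) ≤ ((s : ℝ) - ((t : ℝ) - 1)) * ((s : ℝ) - (t + 1)) := by
  have := one_le_sq h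
  nlinarith

theorem face_zero (hI : Idx I Sp) (hZ : ∀ z ∈ Z, GoodZ I Sp z) : FaceSet (V0 I Sp ∪ Z) {0} := by
  have h1 : ∀ s ∈ I, 0 < ev 0 0 0 0 1 (P Sp s) := fun s hs => by
    rw [P, last_pt (den_pos Sp (hI.pos s hs))]
    have := den_pos Sp (hI.pos s hs)
    positivity
  refine faceSet_of_aff (Finset.singleton_nonempty _)
    (Finset.singleton_subset_iff.2 zero_mem) (isAff_ev 0 0 0 0 1) ?_ ?_
  · exact forall_W (by rw [ev_zero]) (fun s hs => (h1 s hs).le) (fun z hz => (hZ z hz).last.le)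
  · refine forall_W ?_ (fun s hs => ?_) (fun z hz => ?_)
    · simp [ev_zero]
    · rw [Finset.mem_singleton]
      exact ⟨fun h => absurd h (h1 s hs).ne', fun h => absurd h (P_ne_zero hI hs)⟩
    · rw [Finset.mem_singleton]
      refine ⟨fun h => absurd h (hZ z hz).last.ne', ?_⟩
      rintro rfl
      have := (hZ _ hz).last
      rw [ev_zero] at this
      exact absurd this (lt_irrefl _)

/-- Affine functions of the shape used below: positive on `Z`. -/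
theorem face_pt (hI : Idx I Sp) (hZ : ∀ z ∈ Z, GoodZ I Sp z) {s : ℕ} (hs : s ∈ I) :
    FaceSet (V0 I Sp ∪ Z) {P Sp s} := by
  have hd := den_pos Sp (hI.pos s hs)
  by_cases hSp : s ∈ Sp
  · refine faceSet_single (P_mem hs) (isAff_qd ((s : ℝ) - 1) (s + 1)) ?_ ?_
    · refine forall_W (fun _ => by rw [qd_zero]) (fun t ht hne => ?_)
        (fun z hz _ => ((hZ z hz).g3 s hSp).le)
      rw [qd_P hI _ _ ht]
      have hts : t ≠ s := fun h => hne (by rw [h])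
      exact div_nonneg (sq_sub_one hts) (den_pos Sp (hI.pos t ht)).le
    · rw [qd_P hI _ _ hs]
      exact div_neg_of_neg_of_pos (by nlinarith) hd
  · have h1 : ∀ t ∈ I, t ≠ s → 0 < qt s s s s (P Sp t) := fun t ht hts => by
      rw [qt_P hI _ _ _ _ ht]
      apply div_pos _ (den_pos Sp (hI.pos t ht))
      have h2 := one_le_sq hts
      have h3 := wt_nonneg Sp t
      nlinarith
    have h0 : qt s s s s (P Sp s) = 0 := by
      rw [qt_P hI _ _ _ _ hs, wt_not_mem hSp]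
      simp
    refine faceSet_of_aff (Finset.singleton_nonempty _)
      (Finset.singleton_subset_iff.2 (P_mem hs)) (isAff_qt s s s s) ?_ ?_
    · refine forall_W (by rw [qt_zero]; norm_num) (fun t ht => ?_)
        (fun z hz => ((hZ z hz).g2 s hs).le)
      by_cases hts : t = s
      · rw [hts, h0]
      · exact (h1 t ht hts).le
    · refine forall_W ?_ (fun t ht => ?_) (fun z hz => ?_)
      · rw [qt_zero, Finset.mem_singleton]
        exact ⟨fun h => absurd h one_ne_zero, fun h => absurd h.symm (P_ne_zero hI hs)⟩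
      · rw [Finset.mem_singleton, P_inj hI ht hs]
        by_cases hts : t = s
        · rw [hts, h0]
          simp
        · exact ⟨fun h => absurd h (h1 t ht hts).ne', fun h => absurd h hts⟩
      · rw [Finset.mem_singleton]
        refine ⟨fun h => absurd h ((hZ z hz).g2 s hs).ne', ?_⟩
        rintro rfl
        have := (hZ _ hz).g2 s hs
        rw [h0] at this
        exact absurd this (lt_irrefl _)

theorem face_zero_pt (hI : Idx I Sp) (hZ : ∀ z ∈ Z, GoodZ I Sp z) {s : ℕ} (hs : s ∈ I) :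
    FaceSet (V0 I Sp ∪ Z) {0, P Sp s} := by
  have h1 : ∀ t ∈ I, t ≠ s → 0 < qd s s (P Sp t) := fun t ht hts => by
    rw [qd_P hI _ _ ht]
    apply div_pos _ (den_pos Sp (hI.pos t ht))
    have h2 := one_le_sq hts
    nlinarith
  have h0 : qd s s (P Sp s) = 0 := by
    rw [qd_P hI _ _ hs]
    simp
  refine faceSet_of_aff (by simp) ?_ (isAff_qd s s) ?_ ?_
  · intro x hx
    rcases Finset.mem_insert.1 hx with rfl | hx
    · exact zero_mem
    · rw [Finset.mem_singleton.1 hx]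
      exact P_mem hs
  · refine forall_W (by rw [qd_zero]) (fun t ht => ?_) (fun z hz => ((hZ z hz).g4 s hs).le)
    by_cases hts : t = s
    · rw [hts, h0]
    · exact (h1 t ht hts).le
  · refine forall_W ?_ (fun t ht => ?_) (fun z hz => ?_)
    · rw [qd_zero]
      simp
    · rw [Finset.mem_insert, Finset.mem_singleton, P_inj hI ht hs]
      by_cases hts : t = s
      · rw [hts, h0]
        simp
      · constructor
        · intro h
          exact absurd h (h1 t ht hts).ne'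
        · rintro (h | h)
          · exact absurd h (P_ne_zero hI ht)
          · exact absurd h hts
    · rw [Finset.mem_insert, Finset.mem_singleton]
      refine ⟨fun h => absurd h ((hZ z hz).g4 s hs).ne', ?_⟩
      have h2 := (hZ _ hz).g4 s hs
      rintro (rfl | rfl)
      · rw [qd_zero] at h2
        exact absurd h2 (lt_irrefl _)
      · rw [h0] at h2
        exact absurd h2 (lt_irrefl _)

/-- Pairs of indices which are edges. -/
def Adj (Sp : Finset ℕ) (s t : ℕ) : Prop := ¬ (s ∈ Ax Sp ∧ t = s + 2) ∧ ¬ (t ∈ Ax Sp ∧ s = t + 2)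

theorem Adj.symm {s t : ℕ} (h : Adj Sp s t) : Adj Sp t s := ⟨h.2, h.1⟩

private theorem face_ns (hI : Idx I Sp) (hZ : ∀ z ∈ Z, GoodZ I Sp z) {s t : ℕ} (hs : s ∈ I)
    (ht : t ∈ I) (hsS : s ∉ Sp) (htS : t ∉ Sp) :
    FaceSet (V0 I Sp ∪ Z) {P Sp s, P Sp t} := by
  have h1 : ∀ u ∈ I, u ≠ s → u ≠ t → 0 < qt s s t t (P Sp u) := fun u hu hus hut => by
    rw [qt_P hI _ _ _ _ hu]
    apply div_pos _ (den_pos Sp (hI.pos u hu))
    have h2 := one_le_sq hus
    have h3 := one_le_sq hut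
    have h4 := wt_nonneg Sp u
    have h5 : (0 : ℝ) < ((u : ℝ) - s) ^ 2 * ((u : ℝ) - t) ^ 2 := by
      apply mul_pos <;> linarith
    nlinarith
  have h0 : ∀ u ∈ I, u = s ∨ u = t → qt s s t t (P Sp u) = 0 := fun u hu h => by
    rw [qt_P hI _ _ _ _ hu]
    rcases h with rfl | rfl
    · rw [wt_not_mem hsS]
      simp
    · rw [wt_not_mem htS]
      simp
  refine faceSet_of_aff (by simp) ?_ (isAff_qt s s t t) ?_ ?_
  · intro x hx
    rcases Finset.mem_insert.1 hx with rfl | hx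
    · exact P_mem hs
    · rw [Finset.mem_singleton.1 hx]
      exact P_mem ht
  · refine forall_W (by rw [qt_zero]; norm_num) (fun u hu => ?_)
      (fun z hz => ((hZ z hz).g5 s hs t ht).le)
    by_cases hus : u = s
    · rw [h0 u hu (Or.inl hus)]
    · by_cases hut : u = t
      · rw [h0 u hu (Or.inr hut)]
      · exact (h1 u hu hus hut).le
  · refine forall_W ?_ (fun u hu => ?_) (fun z hz => ?_)
    · rw [qt_zero, Finset.mem_insert, Finset.mem_singleton]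
      refine ⟨fun h => absurd h one_ne_zero, ?_⟩
      rintro (h | h)
      · exact absurd h.symm (P_ne_zero hI hs)
      · exact absurd h.symm (P_ne_zero hI ht)
    · rw [Finset.mem_insert, Finset.mem_singleton, P_inj hI hu hs, P_inj hI hu ht]
      constructor
      · intro h
        by_contra hc
        push Not at hc
        exact absurd h (h1 u hu hc.1 hc.2).ne'
      · exact h0 u hu
    · rw [Finset.mem_insert, Finset.mem_singleton]
      have h2 := (hZ _ hz).g5 s hs t ht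
      refine ⟨fun h => absurd h h2.ne', ?_⟩
      rintro (rfl | rfl)
      · rw [h0 s hs (Or.inl rfl)] at h2
        exact absurd h2 (lt_irrefl _)
      · rw [h0 t ht (Or.inr rfl)] at h2
        exact absurd h2 (lt_irrefl _)

private theorem face_sn (hI : Idx I Sp) (hZ : ∀ z ∈ Z, GoodZ I Sp z) {s t : ℕ} (hs : s ∈ I)
    (ht : t ∈ I) (hsS : s ∈ Sp) (htS : t ∉ Sp) :
    FaceSet (V0 I Sp ∪ Z) {P Sp s, P Sp t} := by
  have hst : s ≠ t := fun h => htS (h ▸ hsS)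
  have hd := den_pos Sp (hI.pos s hs)
  have h2s := hI.two' s hsS
  have hne : P Sp s ≠ P Sp t := fun h => hst ((P_inj hI hs ht).1 h)
  by_cases h1 : t = s - 1 ∨ t = s + 1
  · refine faceSet_pair (face_pt hI hZ hs) (face_pt hI hZ ht) hne
      (isAff_qd ((s : ℝ) - 1) (s + 1)) ?_ ?_ ?_ ?_
    · refine forall_W (fun _ _ => by rw [qd_zero]) (fun u hu hus _ => ?_)
        (fun z hz _ _ => ((hZ z hz).g3 s hsS).le)
      rw [qd_P hI _ _ hu]
      have hus' : u ≠ s := fun h => hus (by rw [h])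
      exact div_nonneg (sq_sub_one hus') (den_pos Sp (hI.pos u hu)).le
    · rw [qd_P hI _ _ hs]
      exact (div_neg_of_neg_of_pos (by nlinarith) hd).le
    · rw [qd_P hI _ _ ht]
      apply le_of_eq
      rw [div_eq_zero_iff]
      left
      rcases h1 with h1 | h1
      · rw [h1]
        push_cast [Nat.cast_sub (show 1 ≤ s by omega)]
        ring
      · rw [h1]
        push_cast
        ring
    · left
      rw [qd_P hI _ _ hs]
      exact div_neg_of_neg_of_pos (by nlinarith) hd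
  · push Not at h1
    have h9 : (4 : ℝ) ≤ ((s : ℝ) - t) ^ 2 := by
      have h4 : (4 : ℤ) ≤ ((s : ℤ) - t) ^ 2 := by
        have h5 : (s : ℤ) - t ≤ -2 ∨ 2 ≤ (s : ℤ) - t := by omega
        rcases h5 with h5 | h5 <;> nlinarith
      exact_mod_cast h4
    have hneg : qt ((s : ℝ) - 1) (s + 1) t t (P Sp s) < 0 := by
      rw [qt_P hI _ _ _ _ hs, wt_mem hsS]
      rw [wt_mem hsS] at hd
      apply div_neg_of_neg_of_pos _ hd
      nlinarith
    refine faceSet_pair (face_pt hI hZ hs) (face_pt hI hZ ht) hne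
      (isAff_qt ((s : ℝ) - 1) (s + 1) t t) ?_ hneg.le ?_ (Or.inl hneg)
    · refine forall_W (fun _ _ => by rw [qt_zero]; norm_num) (fun u hu hus _ => ?_)
        (fun z hz _ _ => ((hZ z hz).g6 s hsS t ht).le)
      rw [qt_P hI _ _ _ _ hu]
      have hus' : u ≠ s := fun h => hus (by rw [h])
      apply div_nonneg _ (den_pos Sp (hI.pos u hu)).le
      have h6 := sq_sub_one hus'
      have h7 := wt_nonneg Sp u
      have h8 := mul_nonneg h6 (sq_nonneg ((u : ℝ) - t))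
      nlinarith
    · rw [qt_P hI _ _ _ _ ht, wt_not_mem htS]
      simp

private theorem face_ss (hI : Idx I Sp) (hZ : ∀ z ∈ Z, GoodZ I Sp z) {s t : ℕ} (hs : s ∈ I)
    (ht : t ∈ I) (hsS : s ∈ Sp) (htS : t ∈ Sp) (hst : s ≠ t) (ha : Adj Sp s t) :
    FaceSet (V0 I Sp ∪ Z) {P Sp s, P Sp t} := by
  have hds := den_pos Sp (hI.pos s hs)
  have hdt := den_pos Sp (hI.pos t ht)
  have hne : P Sp s ≠ P Sp t := fun h => hst ((P_inj hI hs ht).1 h)
  have h16 : (9 : ℝ) ≤ ((s : ℝ) - t) ^ 2 := by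
    have h4 : (9 : ℤ) ≤ ((s : ℤ) - t) ^ 2 := by
      have e1 : t ≠ s + 1 := fun h => hI.nb1' s hsS (h ▸ htS)
      have e2 : t ≠ s + 2 := fun h => ha.1 ⟨mem_Ax.2 ⟨hsS, h ▸ htS⟩, h⟩
      have e4 : s ≠ t + 1 := fun h => hI.nb1' t htS (h ▸ hsS)
      have e5 : s ≠ t + 2 := fun h => ha.2 ⟨mem_Ax.2 ⟨htS, h ▸ hsS⟩, h⟩
      have h5 : (s : ℤ) - t ≤ -3 ∨ 3 ≤ (s : ℤ) - t := by omega
      rcases h5 with h5 | h5 <;> nlinarith
    exact_mod_cast h4
  have hneg : qt ((s : ℝ) - 1) (s + 1) ((t : ℝ) - 1) (t + 1) (P Sp s) < 0 := by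
    rw [qt_P hI _ _ _ _ hs, wt_mem hsS]
    rw [wt_mem hsS] at hds
    apply div_neg_of_neg_of_pos _ hds
    nlinarith
  have hneg' : qt ((s : ℝ) - 1) (s + 1) ((t : ℝ) - 1) (t + 1) (P Sp t) < 0 := by
    rw [qt_P hI _ _ _ _ ht, wt_mem htS]
    rw [wt_mem htS] at hdt
    apply div_neg_of_neg_of_pos _ hdt
    nlinarith
  refine faceSet_pair (face_pt hI hZ hs) (face_pt hI hZ ht) hne
    (isAff_qt ((s : ℝ) - 1) (s + 1) ((t : ℝ) - 1) (t + 1)) ?_ hneg.le hneg'.le (Or.inl hneg)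
  refine forall_W (fun _ _ => by rw [qt_zero]; norm_num) (fun u hu hus hut => ?_)
    (fun z hz _ _ => ((hZ z hz).g7 s hsS t htS).le)
  rw [qt_P hI _ _ _ _ hu]
  have hus' : u ≠ s := fun h => hus (by rw [h])
  have hut' : u ≠ t := fun h => hut (by rw [h])
  apply div_nonneg _ (den_pos Sp (hI.pos u hu)).le
  have h6 := sq_sub_one hus'
  have h6' := sq_sub_one hut'
  have h7 := wt_nonneg Sp u
  have h8 := mul_nonneg h6 h6'
  nlinarith

theorem face_pt_pt (hI : Idx I Sp) (hZ : ∀ z ∈ Z, GoodZ I Sp z) {s t : ℕ} (hs : s ∈ I)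
    (ht : t ∈ I) (hst : s ≠ t) (ha : Adj Sp s t) :
    FaceSet (V0 I Sp ∪ Z) {P Sp s, P Sp t} := by
  by_cases hsS : s ∈ Sp
  · by_cases htS : t ∈ Sp
    · exact face_ss hI hZ hs ht hsS htS hst ha
    · exact face_sn hI hZ hs ht hsS htS
  · by_cases htS : t ∈ Sp
    · rw [Finset.pair_comm]
      exact face_sn hI hZ ht hs htS hsS
    · exact face_ns hI hZ hs ht hsS htS

end

end

end Pool.Agent.FVB
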