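import Pool.Agent.Lib.MP_e9c977_fvb.Assembly

/-!
# The f-vectors of 4-polytopes close to the simplicial ones
-/

namespace Pool.Agent.FVB

open Module Pool.Agent.FV
open scoped Classical

noncomputable section

theorem isFVector_euler {f : Fin 4 → ℕ} (hf : IsFVector 4 f) : f 0 + f 2 = f 1 + f 3 := by
  rw [isFVector_iff (by norm_num)] at hf
  obtain ⟨V, hV, h4, hfV⟩ := hf
  have h0 : (faces V 0).card = f 0 := hfV 0
  have h1 : (faces V 1).card = f 1 := hfV 1
  have h2 : (faces V 2).card = f 2 := hfV 2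
  have h3 : (faces V 3).card = f 3 := hfV 3
  rw [card_faces_zero hV] at h0
  have := euler_four hV h4
  omega

/-- The description for `f₂ = 2 f₃ + e`, `f₀ ≥ 2 e + 9`. -/
theorem near_simplicial (f : Fin 4 → ℕ) (e : ℕ) (h2 : f 2 = 2 * f 3 + e) (h0 : 2 * e + 9 ≤ f 0)
    (h3 : e = 3 → f 1 + 18 ≠ 4 * f 0) :
    IsFVector 4 f ↔ f 0 + f 2 = f 1 + f 3 ∧ 4 * f 0 + cdef e ≤ f 1 + 3 * e + 10 ∧
      f 1 + e ≤ (f 0).choose 2 := by
  by_cases hE : f 0 + f 2 = f 1 + f 3
  · rw [isFVector_iff_conf f e (by omega), exists_conf_iff h0 h3]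
  · exact ⟨fun h => absurd (isFVector_euler h) hE, fun h => absurd h.1 hE⟩

end

end Pool.Agent.FVB
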