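import Pool.Agent.Lib.MP_e9c977_fvb.FacesT

/-!
# The facets with five points, and the missing edges
-/

namespace Pool.Agent.FVB

open Module Pool.Agent.FV
open scoped Classical

attribute [-instance] WithLp.instDecidableEq

noncomputable section

variable {I Sp : Finset ℕ} {Z : Finset E4}

/-- The vector `(s³, s², s, 1)`. -/
def mv (s : ℝ) : E4 := WithLp.toLp 2 ![s ^ 3, s ^ 2, s, 1]

theorem smul_P (hI : Idx I Sp) {s : ℕ} (hs : s ∈ I) :
    ((s : ℝ) ^ 4 + wt Sp s) • P Sp s = mv s := by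
  have hd := den_pos Sp (hI.pos s hs)
  ext i
  fin_cases i <;> simp [P, pt, mv] <;> field_simp

theorem mv_relation (s : ℝ) :
    mv s + mv (s + 2) = (1 / 4 : ℝ) • mv (s - 1) + (3 / 2 : ℝ) • mv (s + 1)
      + (1 / 4 : ℝ) • mv (s + 3) := by
  ext i
  fin_cases i <;> simp [mv] <;> ring

/-- The Radon relation in the facets with five points. -/
theorem aff_relation (hI : Idx I Sp) {s : ℕ} (hs : s ∈ Ax Sp) {f : E4 → ℝ} (hf : IsAff f) :
    ((s : ℝ) ^ 4 + 3) * f (P Sp s) + (((s : ℝ) + 2) ^ 4 + 3) * f (P Sp (s + 2)) =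
      (1 / 4) * ((s : ℝ) - 1) ^ 4 * f (P Sp (s - 1)) + (3 / 2) * ((s : ℝ) + 1) ^ 4 * f (P Sp (s + 1))
        + (1 / 4) * ((s : ℝ) + 3) ^ 4 * f (P Sp (s + 3)) := by
  obtain ⟨l, c, hl⟩ := hf
  have h2 := hI.two s hs
  have e0 := congrArg l (smul_P hI (hI.asub hs))
  have e1 := congrArg l (smul_P hI (hI.a1 s hs))
  have e2 := congrArg l (smul_P hI (hI.b1 s hs))
  have e3 := congrArg l (smul_P hI (hI.b2 s hs))
  have e4 := congrArg l (smul_P hI (hI.b3 s hs))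
  rw [map_smul, smul_eq_mul] at e0 e1 e2 e3 e4
  rw [wt_mem (hI.axs hs)] at e0
  rw [wt_not_mem (hI.na1 s hs)] at e1
  rw [wt_not_mem (hI.nb1 s hs)] at e2
  rw [wt_mem (hI.axt hs)] at e3
  rw [wt_not_mem (hI.nb3 s hs)] at e4
  have hm := congrArg l (mv_relation (s : ℝ))
  simp only [map_add, map_smul, smul_eq_mul] at hm
  rw [Nat.cast_sub (by omega)] at e1
  push_cast at e1 e2 e3 e4
  simp only [hl]
  have hc : (s : ℝ) ^ 4 + 3 + (((s : ℝ) + 2) ^ 4 + 3) = (1 / 4) * ((s : ℝ) - 1) ^ 4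
      + (3 / 2) * ((s : ℝ) + 1) ^ 4 + (1 / 4) * ((s : ℝ) + 3) ^ 4 := by ring
  linear_combination hm + e0 + e3 - (1 / 4) * e1 - (3 / 2) * e2 - (1 / 4) * e4 + c * hc

theorem mem_of_axis (hI : Idx I Sp) {s : ℕ} (hs : s ∈ Ax Sp) {V S : Finset E4} (hS : FaceSet V S)
    (h1 : P Sp (s - 1) ∈ V) (h2 : P Sp (s + 1) ∈ V) (h3 : P Sp (s + 3) ∈ V)
    (h4 : P Sp s ∈ S) (h5 : P Sp (s + 2) ∈ S) :
    P Sp (s - 1) ∈ S ∧ P Sp (s + 1) ∈ S ∧ P Sp (s + 3) ∈ S := by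
  obtain ⟨f, hf, h0, hz⟩ := FaceSet.exists_aff hS
  have hr := aff_relation hI hs hf
  rw [(hz _ (hS.2.1 h4)).2 h4, (hz _ (hS.2.1 h5)).2 h5, mul_zero, mul_zero, add_zero] at hr
  have a1 := h0 _ h1
  have a2 := h0 _ h2
  have a3 := h0 _ h3
  have h2s : (2 : ℝ) ≤ s := by exact_mod_cast hI.two s hs
  have c1 : 0 < (1 / 4 : ℝ) * ((s : ℝ) - 1) ^ 4 := by
    have : 0 < (s : ℝ) - 1 := by linarith
    positivity
  have c2 : 0 < (3 / 2 : ℝ) * ((s : ℝ) + 1) ^ 4 := by positivity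
  have c3 : 0 < (1 / 4 : ℝ) * ((s : ℝ) + 3) ^ 4 := by positivity
  have m1 := mul_nonneg c1.le a1
  have m2 := mul_nonneg c2.le a2
  have m3 := mul_nonneg c3.le a3
  refine ⟨(hz _ h1).1 ?_, (hz _ h2).1 ?_, (hz _ h3).1 ?_⟩
  · have : (1 / 4 : ℝ) * ((s : ℝ) - 1) ^ 4 * f (P Sp (s - 1)) = 0 := by linarith
    exact (mul_eq_zero.1 this).resolve_left c1.ne'
  · have : (3 / 2 : ℝ) * ((s : ℝ) + 1) ^ 4 * f (P Sp (s + 1)) = 0 := by linarith
    exact (mul_eq_zero.1 this).resolve_left c2.ne'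
  · have : (1 / 4 : ℝ) * ((s : ℝ) + 3) ^ 4 * f (P Sp (s + 3)) = 0 := by linarith
    exact (mul_eq_zero.1 this).resolve_left c3.ne'

theorem not_face_axis (hI : Idx I Sp) {s : ℕ} (hs : s ∈ Ax Sp) {Z : Finset E4} :
    ¬ FaceSet (V0 I Sp ∪ Z) {P Sp s, P Sp (s + 2)} := by
  intro h
  have h1 := (mem_of_axis hI hs h (P_mem (hI.a1 s hs)) (P_mem (hI.b1 s hs)) (P_mem (hI.b3 s hs))
    (by simp) (by simp)).2.1
  rw [Finset.mem_insert, Finset.mem_singleton, P_inj hI (hI.b1 s hs) (hI.asub hs),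
    P_inj hI (hI.b1 s hs) (hI.b2 s hs)] at h1
  omega

/-- The indices of a facet with five points. -/
def gI (s : ℕ) : Finset ℕ := {s - 1, s, s + 1, s + 2, s + 3}

theorem gI_subset (hI : Idx I Sp) {s : ℕ} (hs : s ∈ Ax Sp) : gI s ⊆ I := by
  intro t ht
  simp only [gI, Finset.mem_insert, Finset.mem_singleton] at ht
  rcases ht with rfl | rfl | rfl | rfl | rfl
  · exact hI.a1 s hs
  · exact hI.asub hs
  · exact hI.b1 s hs
  · exact hI.b2 s hs
  · exact hI.b3 s hs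

theorem card_gI {s : ℕ} (h : 1 ≤ s) : (gI s).card = 5 := by
  unfold gI
  rw [Finset.card_insert_of_notMem, Finset.card_insert_of_notMem, Finset.card_insert_of_notMem,
    Finset.card_insert_of_notMem, Finset.card_singleton] <;> simp <;> omega

/-- The facet with five points. -/
def G (Sp : Finset ℕ) (s : ℕ) : Finset E4 := (gI s).image (P Sp)

theorem G_subset (hI : Idx I Sp) {s : ℕ} (hs : s ∈ Ax Sp) : G Sp s ⊆ V0 I Sp ∪ Z := by
  intro x hx
  obtain ⟨t, ht, rfl⟩ := Finset.mem_image.1 hx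
  exact P_mem (gI_subset hI hs ht)

theorem injOn_P (hI : Idx I Sp) : Set.InjOn (P Sp) (I : Set ℕ) :=
  fun _ hs _ ht h => (P_inj hI hs ht).1 h

theorem card_G (hI : Idx I Sp) {s : ℕ} (hs : s ∈ Ax Sp) : (G Sp s).card = 5 := by
  rw [G, Finset.card_image_of_injOn, card_gI (hI.pos s (hI.asub hs))]
  exact (injOn_P hI).mono (by exact_mod_cast gI_subset hI hs)

/-- away from the five indices the polynomial is positive -/
theorem gq_pos {s t : ℕ} (h2 : 2 ≤ s) (h : t ∉ gI s) :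
    (0 : ℝ) < ((t : ℝ) - ((s : ℝ) - 1)) * ((t : ℝ) - (s + 1)) * ((t : ℝ) - (s + 1))
      * ((t : ℝ) - (s + 3)) := by
  simp only [gI, Finset.mem_insert, Finset.mem_singleton, not_or] at h
  have h9 : (9 : ℝ) ≤ ((t : ℝ) - (s + 1)) ^ 2 := by
    have h4 : (9 : ℤ) ≤ ((t : ℤ) - (s + 1)) ^ 2 := by
      have h5 : (t : ℤ) - (s + 1) ≤ -3 ∨ 3 ≤ (t : ℤ) - (s + 1) := by omega
      rcases h5 with h5 | h5 <;> nlinarith
    exact_mod_cast h4
  have h6 : ((t : ℝ) - ((s : ℝ) - 1)) * ((t : ℝ) - (s + 1)) * ((t : ℝ) - (s + 1))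
      * ((t : ℝ) - (s + 3)) = ((t : ℝ) - (s + 1)) ^ 2 * (((t : ℝ) - (s + 1)) ^ 2 - 4) := by ring
  rw [h6]
  apply mul_pos <;> linarith

theorem gq_zero (hI : Idx I Sp) {s : ℕ} (hs : s ∈ Ax Sp) {t : ℕ} (ht : t ∈ gI s) :
    qt ((s : ℝ) - 1) (s + 1) (s + 1) (s + 3) (P Sp t) = 0 := by
  have h2 := hI.two s hs
  rw [qt_P hI _ _ _ _ (gI_subset hI hs ht), div_eq_zero_iff]
  left
  simp only [gI, Finset.mem_insert, Finset.mem_singleton] at ht
  rcases ht with rfl | rfl | rfl | rfl | rfl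
  · rw [wt_not_mem (hI.na1 s hs), Nat.cast_sub (by omega)]
    push_cast
    ring
  · rw [wt_mem (hI.axs hs)]
    ring
  · rw [wt_not_mem (hI.nb1 s hs)]
    push_cast
    ring
  · rw [wt_mem (hI.axt hs)]
    push_cast
    ring
  · rw [wt_not_mem (hI.nb3 s hs)]
    push_cast
    ring

theorem face_G (hI : Idx I Sp) (hZ : ∀ z ∈ Z, GoodZ I Sp z) {s : ℕ} (hs : s ∈ Ax Sp) :
    FaceSet (V0 I Sp ∪ Z) (G Sp s) := by
  have h2 := hI.two s hs
  have hpos : ∀ t ∈ I, t ∉ gI s → 0 < qt ((s : ℝ) - 1) (s + 1) (s + 1) (s + 3) (P Sp t) := by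
    intro t ht htG
    rw [qt_P hI _ _ _ _ ht]
    apply div_pos _ (den_pos Sp (hI.pos t ht))
    have h3 := gq_pos h2 htG
    have h4 := wt_nonneg Sp t
    linarith
  have hmem : ∀ t ∈ I, P Sp t ∈ G Sp s → t ∈ gI s := by
    intro t ht h
    obtain ⟨u, hu, he⟩ := Finset.mem_image.1 h
    rwa [← (P_inj hI (gI_subset hI hs hu) ht).1 he]
  refine faceSet_of_aff ⟨_, Finset.mem_image_of_mem _ (show s ∈ gI s by simp [gI])⟩
    (G_subset hI hs) (isAff_qt ((s : ℝ) - 1) (s + 1) (s + 1) (s + 3)) ?_ ?_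
  · refine forall_W (by rw [qt_zero]; norm_num) (fun t ht => ?_)
      (fun z hz => ((hZ z hz).g8 s hs).le)
    by_cases htG : t ∈ gI s
    · rw [gq_zero hI hs htG]
    · exact (hpos t ht htG).le
  · refine forall_W ?_ (fun t ht => ?_) (fun z hz => ?_)
    · rw [qt_zero]
      refine ⟨fun h => absurd h one_ne_zero, fun h => ?_⟩
      obtain ⟨u, hu, he⟩ := Finset.mem_image.1 h
      exact absurd he (P_ne_zero hI (gI_subset hI hs hu))
    · by_cases htG : t ∈ gI s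
      · rw [gq_zero hI hs htG]
        exact ⟨fun _ => Finset.mem_image_of_mem _ htG, fun _ => rfl⟩
      · exact ⟨fun h => absurd h (hpos t ht htG).ne', fun h => absurd (hmem t ht h) htG⟩
    · refine ⟨fun h => absurd h ((hZ z hz).g8 s hs).ne', fun h => ?_⟩
      obtain ⟨u, hu, rfl⟩ := Finset.mem_image.1 h
      have := (hZ _ hz).g8 s hs
      rw [gq_zero hI hs hu] at this
      exact absurd this (lt_irrefl _)

end

end Pool.Agent.FVB
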