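import Pool.Agent.Lib.MP_e9c977_fvb.Place
import Mathlib.MeasureTheory.Measure.Haar.InnerProductSpace

/-!
# Row PP: existence of a generic point near the middle of an edge
-/

namespace Pool.Agent.FVB

open Module Pool.Agent.FV Filter Topology
open scoped Classical

attribute [-instance] WithLp.instDecidableEq

noncomputable section

/-- A nonempty open set is not covered by finitely many proper affine subspaces. -/
theorem exists_generic {U : Set E4} (hU : IsOpen U) (hne : U.Nonempty)
    {A : Finset (AffineSubspace ℝ E4)} (hA : ∀ s ∈ A, s ≠ ⊤) : ∃ z ∈ U, ∀ s ∈ A, z ∉ s := by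
  by_contra hcon
  push Not at hcon
  have h1 : U ⊆ ⋃ s ∈ (A : Set (AffineSubspace ℝ E4)), (s : Set E4) := by
    intro z hz
    obtain ⟨s, hs, hzs⟩ := hcon z hz
    simp only [Set.mem_iUnion]
    exact ⟨s, Finset.mem_coe.2 hs, hzs⟩
  have h2 : MeasureTheory.volume (⋃ s ∈ (A : Set (AffineSubspace ℝ E4)), (s : Set E4)) = 0 := by
    rw [MeasureTheory.measure_biUnion_null_iff A.countable_toSet]
    intro s hs
    exact MeasureTheory.Measure.addHaar_affineSubspace _ s (hA s (Finset.mem_coe.1 hs))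
  have h3 := hU.measure_pos MeasureTheory.volume hne
  have h4 := MeasureTheory.measure_mono (μ := MeasureTheory.volume) h1
  rw [h2] at h4
  exact absurd h3 (not_lt.2 h4)

/-- The filter of the points near the segment germ `½ P b + ε d`. -/
def germ (q d : E4) : Filter E4 := (𝓝[>] (0 : ℝ)).bind (fun ε => 𝓝 ((1 / 2 : ℝ) • q + ε • d))

theorem eventually_germ {q d : E4} {g : E4 → ℝ} (hg : Continuous g)
    (h : ∀ᶠ ε in 𝓝[>] (0 : ℝ), 0 < g ((1 / 2 : ℝ) • q + ε • d)) :
    ∀ᶠ z in germ q d, 0 < g z := by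
  rw [germ, eventually_bind]
  filter_upwards [h] with ε hε
  exact (hg.tendsto _).eventually (lt_mem_nhds hε)

/-- Positive at one end, nonnegative at the other. -/
theorem eventually_aff {q d : E4} {g : E4 → ℝ} (hg : IsAff g) (h0 : 0 ≤ g 0) (hq : 0 ≤ g q)
    (h : 0 < g 0 ∨ 0 < g q) : ∀ᶠ z in germ q d, 0 < g z := by
  apply eventually_germ hg.continuous
  have h1 : Continuous (fun ε : ℝ => g ((1 / 2 : ℝ) • q + ε • d)) :=
    hg.continuous.comp (continuous_const.add (continuous_id.smul continuous_const))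
  have h2 : 0 < (fun ε : ℝ => g ((1 / 2 : ℝ) • q + ε • d)) 0 := by
    obtain ⟨l, c, hl⟩ := hg
    simp only [hl, map_add, map_smul, smul_eq_mul, map_zero, zero_smul] at h0 hq h ⊢
    rcases h with h | h <;> linarith
  exact ((h1.tendsto 0).mono_left nhdsWithin_le_nhds).eventually (lt_mem_nhds h2)

/-- Zero at both ends, positive in the direction `d`. -/
theorem eventually_lin {q d : E4} {g : E4 → ℝ} {l : E4 →ₗ[ℝ] ℝ} (hg : ∀ x, g x = l x)
    (hq : g q = 0) (h : 0 < g d) : ∀ᶠ z in germ q d, 0 < g z := by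
  apply eventually_germ
  · have : g = fun x => l x := funext hg
    rw [this]
    exact LinearMap.continuous_of_finiteDimensional l
  · filter_upwards [self_mem_nhdsWithin] with ε hε
    rw [hg, map_add, map_smul, map_smul, ← hg, ← hg, hq, smul_zero, zero_add, smul_eq_mul]
    exact mul_pos hε h

/-- The direction. -/
def dir (b σ : ℝ) : E4 := WithLp.toLp 2 ![1 + (b - 1) * (σ - 1) ^ 2, 1, 1, 1]

theorem cu_dir (b σ s t : ℝ) :
    cu b s t (dir b σ) = (b - 1) * ((s - 1) * (t - 1)) - (b - 1) * (σ - 1) ^ 2 := by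
  simp [cu, ev, dir]
  ring

theorem qd_dir (b σ s t : ℝ) : qd s t (dir b σ) = (s - 1) * (t - 1) := by
  simp [qd, ev, dir]
  ring

section

variable {I Sp : Finset ℕ} {b σ : ℕ}

theorem exists_place (hI : Idx I Sp) (hbI : b ∈ I) (hmax : ∀ s ∈ I, s ≤ b) (hσ : σ ∈ I.erase b)
    (hσ1 : 1 < σ) (hbSp : b ∉ Sp) (hb4 : 4 ≤ b) : ∃ z, Place I Sp b σ z := by
  have h1 := one_mem hI hbI hmax hσ hσ1
  have hb1 : 1 < b := by
    have := hmax 1 hI.one
    have h2 := (Finset.mem_erase.1 h1).1
    omega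
  have hb1R : (1 : ℝ) < b := by exact_mod_cast hb1
  have hσ1R : (1 : ℝ) < σ := by exact_mod_cast hσ1
  have hdb := den_pos Sp (hI.pos b hbI)
  have hwb : wt Sp b = 0 := wt_not_mem hbSp
  have hle : ∀ s ∈ I, (s : ℝ) ≤ b := fun s hs => by exact_mod_cast hmax s hs
  have hspb : ∀ t ∈ Sp, t + 1 ≤ b := fun t ht => by
    have h2 := hmax t (hI.sub ht)
    have h3 : t ≠ b := fun h => hbSp (h ▸ ht)
    omega
  set d := dir (b : ℝ) (σ : ℝ) with hd
  set q := P Sp b with hq
  have qtpos : ∀ a₁ a₂ a₃ a₄ : ℝ, 0 ≤ (b - a₁) * (b - a₂) * (b - a₃) * (b - a₄) →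
      ∀ᶠ z in germ q d, 0 < qt a₁ a₂ a₃ a₄ z := by
    intro a₁ a₂ a₃ a₄ h
    refine eventually_aff (isAff_qt _ _ _ _) (by rw [qt_zero]; norm_num) ?_
      (Or.inl (by rw [qt_zero]; norm_num))
    rw [hq, qt_P hI _ _ _ _ hbI, hwb, add_zero]
    rw [hwb] at hdb
    exact div_nonneg h hdb.le
  have cucont : ∀ s t : ℝ, ∀ x, cu b s t x = cul b s t x := fun s t x => cu_eq _ _ _ _
  have cuq : ∀ s t : ℝ, cu b s t q = 0 := by
    intro s t
    rw [hq, cu_P hI _ _ _ hbI, sub_self, zero_mul, zero_mul, zero_div]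
  have negdir : ∀ {s t : ℝ}, (s - 1) * (t - 1) < (σ - 1) ^ 2 →
      ∀ᶠ z in germ q d, cu b s t z < 0 := by
    intro s t h
    have h2 : ∀ᶠ z in germ q d, 0 < - cu b s t z := by
      refine eventually_lin (l := - cul b s t) (g := fun z => - cu b s t z) ?_ ?_ ?_
      · intro x
        simp only [cucont, LinearMap.neg_apply]
      · simp only [cuq, neg_zero]
      · simp only [hd, cu_dir]
        nlinarith
    filter_upwards [h2] with z hz
    linarith
  -- the conditions
  have e_last : ∀ᶠ z in germ q d, 0 < ev 0 0 0 0 1 z := by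
    refine eventually_aff (isAff_ev _ _ _ _ _) (by rw [ev_zero]) ?_ (Or.inr ?_)
    · rw [hq, P, last_pt hdb]
      positivity
    · rw [hq, P, last_pt hdb]
      positivity
  have e_g2 : ∀ᶠ z in germ q d, ∀ s ∈ I, 0 < qt s s s s z := by
    rw [eventually_all_finset]
    intro s _
    refine qtpos _ _ _ _ ?_
    have : ((b : ℝ) - s) * (b - s) * (b - s) * (b - s) = ((b - s) ^ 2) ^ 2 := by ring
    rw [this]
    positivity
  have e_g3 : ∀ᶠ z in germ q d, ∀ t ∈ Sp, 0 < qd ((t : ℝ) - 1) (t + 1) z := by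
    rw [eventually_all_finset]
    intro t ht
    have h3 := hspb t ht
    by_cases htb : t + 1 = b
    · have hbt : (b : ℝ) = t + 1 := by exact_mod_cast htb.symm
      refine eventually_lin (l := evl 0 1 (-(((t : ℝ) - 1) + (t + 1))) (((t : ℝ) - 1) * (t + 1)))
        (g := qd ((t : ℝ) - 1) (t + 1)) ?_ ?_ ?_
      · intro x
        rw [qd, ev_eq, add_zero]
      · rw [hq, qd_P hI _ _ hbI, hbt, sub_self, mul_zero, zero_div]
      · rw [hd, qd_dir]
        have h4 : (3 : ℝ) ≤ t := by
          have : 3 ≤ t := by omega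
          exact_mod_cast this
        apply mul_pos <;> linarith
    · have h2 : 0 < qd ((t : ℝ) - 1) (t + 1) q := by
        rw [hq, qd_P hI _ _ hbI]
        apply div_pos _ hdb
        have h4 : (t : ℝ) + 1 < b := by
          have : t + 1 < b := by omega
          exact_mod_cast this
        apply mul_pos <;> linarith
      exact eventually_aff (isAff_qd _ _) (by rw [qd_zero]) h2.le (Or.inr h2)
  have e_g4 : ∀ᶠ z in germ q d, ∀ s ∈ I, 0 < qd s s z := by
    rw [eventually_all_finset]
    intro s hs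
    by_cases hsb : s = b
    · rw [hsb]
      refine eventually_lin (l := evl 0 1 (-((b : ℝ) + b)) (b * b)) (g := qd b b) ?_ ?_ ?_
      · intro x
        rw [qd, ev_eq, add_zero]
      · rw [hq, qd_P hI _ _ hbI, sub_self, mul_zero, zero_div]
      · rw [hd, qd_dir]
        have : 0 < (b : ℝ) - 1 := by linarith
        positivity
    · have h2 : 0 < qd (s : ℝ) s q := by
        rw [hq, qd_P hI _ _ hbI]
        apply div_pos _ hdb
        have h3 := one_le_sq (Ne.symm hsb)
        nlinarith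
      exact eventually_aff (isAff_qd _ _) (by rw [qd_zero]) h2.le (Or.inr h2)
  have e_g5 : ∀ᶠ z in germ q d, ∀ s ∈ I, ∀ t ∈ I, 0 < qt s s t t z := by
    rw [eventually_all_finset]
    intro s _
    rw [eventually_all_finset]
    intro t _
    refine qtpos _ _ _ _ ?_
    have : ((b : ℝ) - s) * (b - s) * (b - t) * (b - t) = (b - s) ^ 2 * (b - t) ^ 2 := by ring
    rw [this]
    positivity
  have sq1 : ∀ t ∈ Sp, 0 ≤ ((b : ℝ) - ((t : ℝ) - 1)) * (b - (t + 1)) := by
    intro t ht
    have : (t : ℝ) + 1 ≤ b := by exact_mod_cast hspb t ht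
    apply mul_nonneg <;> linarith
  have e_g6 : ∀ᶠ z in germ q d, ∀ t ∈ Sp, ∀ s ∈ I, 0 < qt ((t : ℝ) - 1) (t + 1) s s z := by
    rw [eventually_all_finset]
    intro t ht
    rw [eventually_all_finset]
    intro s _
    refine qtpos _ _ _ _ ?_
    have h2 := mul_nonneg (sq1 t ht) (sq_nonneg ((b : ℝ) - s))
    nlinarith
  have e_g7 : ∀ᶠ z in germ q d, ∀ t ∈ Sp, ∀ u ∈ Sp,
      0 < qt ((t : ℝ) - 1) (t + 1) ((u : ℝ) - 1) (u + 1) z := by
    rw [eventually_all_finset]
    intro t ht
    rw [eventually_all_finset]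
    intro u hu
    refine qtpos _ _ _ _ ?_
    have h2 := mul_nonneg (sq1 t ht) (sq1 u hu)
    nlinarith
  have e_g8 : ∀ᶠ z in germ q d, ∀ t ∈ Ax Sp, 0 < qt ((t : ℝ) - 1) (t + 1) (t + 1) (t + 3) z := by
    rw [eventually_all_finset]
    intro t ht
    refine qtpos _ _ _ _ ?_
    have : (t : ℝ) + 3 ≤ b := by exact_mod_cast hmax _ (hI.b3 t ht)
    apply mul_nonneg (mul_nonneg (mul_nonneg _ _) _) _ <;> linarith
  have e_neg : ∀ᶠ z in germ q d, ∀ s ∈ I, ∀ t ∈ I, Cons (I.erase b) s t → t ≤ σ →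
      cu b s t z < 0 := by
    rw [eventually_all_finset]
    intro s hs
    rw [eventually_all_finset]
    intro t ht
    by_cases h : Cons (I.erase b) s t ∧ t ≤ σ
    · have h2 : ∀ᶠ z in germ q d, cu b s t z < 0 := by
        apply negdir
        have h3 : (1 : ℝ) ≤ s := by exact_mod_cast hI.pos s hs
        have h4 : (s : ℝ) < t := by exact_mod_cast h.1.2.2.1
        have h5 : (t : ℝ) ≤ σ := by exact_mod_cast h.2
        have h6 : ((s : ℝ) - 1) * (t - 1) ≤ (s - 1) * (σ - 1) :=
          mul_le_mul_of_nonneg_left (by linarith) (by linarith)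
        have h7 : ((s : ℝ) - 1) * (σ - 1) < (σ - 1) * (σ - 1) :=
          mul_lt_mul_of_pos_right (by linarith) (by linarith)
        nlinarith
      filter_upwards [h2] with z hz _ _
      exact hz
    · apply Eventually.of_forall
      intro z hc hle
      exact absurd ⟨hc, hle⟩ h
  have e_pos : ∀ᶠ z in germ q d, ∀ s ∈ I, ∀ t ∈ I, Cons (I.erase b) s t → σ < t →
      0 < cu b s t z := by
    rw [eventually_all_finset]
    intro s hs
    rw [eventually_all_finset]
    intro t ht
    by_cases h : Cons (I.erase b) s t ∧ σ < t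
    · have h2 : ∀ᶠ z in germ q d, 0 < cu b s t z := by
        refine eventually_lin (l := cul b s t) (g := cu b s t) (cucont _ _) (cuq _ _) ?_
        rw [hd, cu_dir]
        have h8 : σ ≤ s := by
          by_contra hcon
          exact h.1.2.2.2 σ hσ ⟨by omega, h.2⟩
        have h3 : (σ : ℝ) ≤ s := by exact_mod_cast h8
        have h5 : (σ : ℝ) < t := by exact_mod_cast h.2
        have h6 : ((σ : ℝ) - 1) * (σ - 1) < (σ - 1) * (t - 1) :=
          mul_lt_mul_of_pos_left (by linarith) (by linarith)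
        have h7 : ((σ : ℝ) - 1) * (t - 1) ≤ (s - 1) * (t - 1) :=
          mul_le_mul_of_nonneg_right (by linarith) (by linarith)
        have h9 : ((σ : ℝ) - 1) ^ 2 < (s - 1) * (t - 1) := by nlinarith
        have h10 : 0 < (b : ℝ) - 1 := by linarith
        nlinarith
      filter_upwards [h2] with z hz _ _
      exact hz
    · apply Eventually.of_forall
      intro z hc hle
      exact absurd ⟨hc, hle⟩ h
  have e_top : ∀ᶠ z in germ q d, ∀ m ∈ I.erase b, cu b 1 m z < 0 := by
    rw [eventually_all_finset]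
    intro m _
    apply negdir
    rw [sub_self, zero_mul]
    have : 0 < (σ : ℝ) - 1 := by linarith
    positivity
  have e_hb : ∀ᶠ z in germ q d, ∀ p ∈ I.erase b, ∀ q' ∈ I.erase b, ∀ r ∈ I.erase b,
      0 < cu p q' r z / cu p q' r (P Sp b) := by
    rw [eventually_all_finset]
    intro p hp
    rw [eventually_all_finset]
    intro q' hq'
    rw [eventually_all_finset]
    intro r hr
    have hne : cu (p : ℝ) q' r (P Sp b) ≠ 0 := by
      rw [cu_P hI _ _ _ hbI]
      apply div_ne_zero _ hdb.ne'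
      refine mul_ne_zero (mul_ne_zero ?_ ?_) ?_
      · exact sub_ne_zero.2 (by exact_mod_cast (Finset.mem_erase.1 hp).1)
      · exact sub_ne_zero.2 (by exact_mod_cast (Finset.mem_erase.1 hq').1.symm)
      · exact sub_ne_zero.2 (by exact_mod_cast (Finset.mem_erase.1 hr).1.symm)
    refine eventually_aff (g := fun z => cu p q' r z / cu p q' r (P Sp b)) ?_ ?_ ?_ ?_
    · have := (isAff_cu (p : ℝ) q' r).const_mul (cu p q' r (P Sp b))⁻¹
      convert this using 2
      rw [div_eq_inv_mul]
    · simp only [cu_zero, zero_div, le_refl]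
    · simp only [← hq] at hne ⊢
      rw [div_self hne]
      norm_num
    · right
      simp only [← hq] at hne ⊢
      rw [div_self hne]
      norm_num
  have e_h0 : ∀ᶠ z in germ q d, ∀ p ∈ I.erase b, ∀ q' ∈ I.erase b, ∀ r ∈ I.erase b,
      0 < 1 - (cu p q' r z / cu p q' r (P Sp b) + cu b q' r z / cu b q' r (P Sp p)
        + cu b p r z / cu b p r (P Sp q') + cu b p q' z / cu b p q' (P Sp r)) := by
    rw [eventually_all_finset]
    intro p hp
    rw [eventually_all_finset]
    intro q' hq'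
    rw [eventually_all_finset]
    intro r hr
    have hne : cu (p : ℝ) q' r (P Sp b) ≠ 0 := by
      rw [cu_P hI _ _ _ hbI]
      apply div_ne_zero _ hdb.ne'
      refine mul_ne_zero (mul_ne_zero ?_ ?_) ?_
      · exact sub_ne_zero.2 (by exact_mod_cast (Finset.mem_erase.1 hp).1)
      · exact sub_ne_zero.2 (by exact_mod_cast (Finset.mem_erase.1 hq').1.symm)
      · exact sub_ne_zero.2 (by exact_mod_cast (Finset.mem_erase.1 hr).1.symm)
    have h0q : ∀ s t x : ℝ, cu b s t q / x = 0 := fun s t x => by rw [cuq, zero_div]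
    refine eventually_aff (g := fun z => 1 - (cu p q' r z / cu p q' r (P Sp b)
        + cu b q' r z / cu b q' r (P Sp p)
        + cu b p r z / cu b p r (P Sp q') + cu b p q' z / cu b p q' (P Sp r))) ?_ ?_ ?_ ?_
    · have := ((((isAff_cu (p : ℝ) q' r).const_mul (-(cu p q' r (P Sp b))⁻¹)).add
        ((isAff_cu (b : ℝ) q' r).const_mul (-(cu b q' r (P Sp p))⁻¹))).add
        (((isAff_cu (b : ℝ) p r).const_mul (-(cu b p r (P Sp q'))⁻¹)).add
        ((isAff_cu (b : ℝ) p q').const_mul (-(cu b p q' (P Sp r))⁻¹)))).add (IsAff.const 1)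
      convert this using 2
      simp only [div_eq_inv_mul]
      ring
    · simp only [cu_zero, zero_div, add_zero, sub_zero]
      norm_num
    · simp only [h0q, add_zero]
      rw [← hq, div_self (hq ▸ hne)]
      norm_num
    · left
      simp only [cu_zero, zero_div, add_zero, sub_zero]
      norm_num
  have e_all := e_last.and (e_g2.and (e_g3.and (e_g4.and (e_g5.and (e_g6.and (e_g7.and (e_g8.and
    (e_neg.and (e_pos.and (e_top.and (e_hb.and e_h0)))))))))))
  rw [germ, eventually_bind] at e_all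
  obtain ⟨ε, hε⟩ := e_all.exists
  obtain ⟨U, hU, hUo, hUz⟩ := eventually_nhds_iff.1 hε
  obtain ⟨z, hzU, hz⟩ := exists_generic hUo ⟨_, hUz⟩
    (A := ((V0 I Sp).powerset.filter (fun T => adim T ≤ 3)).image
      (fun T : Finset E4 => affineSpan ℝ (T : Set E4))) (by
      intro s hs htop
      obtain ⟨T, hT, rfl⟩ := Finset.mem_image.1 hs
      rw [Finset.mem_filter] at hT
      have h2 : adim T = 4 := by
        unfold adim
        rw [← direction_affineSpan, htop, AffineSubspace.direction_top, finrank_top,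
          finrank_euclideanSpace_fin]
      omega)
  obtain ⟨z1, z2, z3, z4, z5, z6, z7, z8, z9, z10, z11, z12, z13⟩ := hU z hzU
  refine ⟨z, ⟨⟨z1, z2, z3, z4, z5, z6, z7, z8⟩, ?_, ?_, ?_, ?_, ?_, ?_⟩⟩
  · intro s t hc ht
    exact z9 s (Finset.mem_erase.1 hc.1).2 t (Finset.mem_erase.1 hc.2.1).2 hc ht
  · intro s t hc ht
    exact z10 s (Finset.mem_erase.1 hc.1).2 t (Finset.mem_erase.1 hc.2.1).2 hc ht
  · intro m hm _
    exact z11 m hm
  · intro p hp q' hq' r hr _ _ _
    exact z13 p hp q' hq' r hr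
  · intro p hp q' hq' r hr _ _ _
    exact z12 p hp q' hq' r hr
  · intro T hT hT3
    exact hz _ (Finset.mem_image.2 ⟨T, Finset.mem_filter.2 ⟨Finset.mem_powerset.2 hT, hT3⟩, rfl⟩)

end

end

end Pool.Agent.FVB
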