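import Pool.Agent.Lib.MP_e9c977_fvb.Simplex3

/-!
# The inequality `2 f₁ ≤ C(f₀ + 1, 2) + f₃`

Every missing edge costs at most one unit of the excess `f₁ - f₀ - f₃`.
-/

namespace Pool.Agent.FVB

open Module Pool.Agent.FV
open scoped Classical

noncomputable section

variable {E : Type} [NormedAddCommGroup E] [InnerProductSpace ℝ E]

/-- The missing edges. -/
def miss (V : Finset E) : Finset (Finset E) := Finset.powersetCard 2 V \ faces V 1

theorem mem_miss {V B : Finset E} : B ∈ miss V ↔ (B ⊆ V ∧ B.card = 2) ∧ B ∉ faces V 1 := by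
  rw [miss, Finset.mem_sdiff, Finset.mem_powersetCard]

theorem card_miss {V : Finset E} (hV : ConvPos V) :
    (miss V).card + (faces V 1).card = V.card.choose 2 := by
  have := Finset.card_sdiff_add_card_eq_card (faces_one_subset_powersetCard hV)
  rw [Finset.card_powersetCard] at this
  exact this

theorem miss_face {V F : Finset E} (hF : FaceSet V F) :
    miss F = (miss V).filter (fun B => B ⊆ F) := by
  ext B
  rw [Finset.mem_filter, mem_miss, mem_miss, faces_face hF, Finset.mem_filter]
  constructor
  · rintro ⟨⟨h1, h2⟩, h3⟩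
    exact ⟨⟨⟨h1.trans hF.2.1, h2⟩, fun h => h3 ⟨h, h1⟩⟩, h1⟩
  · rintro ⟨⟨⟨h1, h2⟩, h3⟩, h4⟩
    exact ⟨⟨h4, h2⟩, fun h => h3 h.1⟩

/-- The missing edges in a 2-face. -/
def missBd (F : Finset E) : Finset (Finset E) :=
  (miss F).filter (fun B => ∃ R ∈ faces F 2, B ⊆ R)

private theorem nonempty_of_adim' {V : Finset E} {n : ℕ} (h : adim V = n + 1) : V.Nonempty :=
  nonempty_of_adim h

/-- The three-dimensional inequality. -/
theorem three_charge {F : Finset E} (hF : ConvPos F) (h3 : adim F = 3) :
    (faces F 2).card + (missBd F).card ≤ 2 * (miss F).card + 4 := by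
  have hv := four_le_card h3
  have he := euler_three hF h3
  have hm := card_miss hF
  have hc := two_mul_choose_two_add F.card
  have hsum := sum_card_two_faces hF h3
  have hcard3 : ∀ R ∈ faces F 2, 3 ≤ R.card := fun R hR =>
    three_le_card_polygon (hF.mono (mem_faces.1 hR).1.2.1) (mem_faces.1 hR).2
  have hle : 3 * (faces F 2).card ≤ 2 * (faces F 1).card := by
    rw [← hsum]
    calc 3 * (faces F 2).card = ∑ _R ∈ faces F 2, 3 := by
          rw [Finset.sum_const, smul_eq_mul, mul_comm]
      _ ≤ _ := Finset.sum_le_sum hcard3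
  have hbd : (missBd F).card ≤ (miss F).card := Finset.card_filter_le _ _
  by_cases hcase : 4 * (faces F 1).card ≤ F.card ^ 2 + F.card + 4
  · -- `D_bd ≤ D`
    have h1 : (faces F 2).card ≤ (miss F).card + 4 := by
      zify at hcase hm hc ⊢
      nlinarith
    omega
  · have hx : (faces F 1).card + 6 ≤ 3 * F.card := by omega
    have hv' : F.card = 5 ∨ F.card = 6 := by
      have h1 : F.card ^ 2 + 28 < 11 * F.card := by
        zify at hcase hx ⊢
        linarith
      have h2 : F.card < 7 := by
        by_contra hcon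
        push Not at hcon
        have : 7 * F.card + 28 ≤ 11 * F.card → False ∨ True := fun _ => Or.inr trivial
        nlinarith
      have h4 : 4 < F.card := by
        by_contra hcon
        have h5 : F.card = 4 := by omega
        rw [h5] at h1
        norm_num at h1
      omega
    -- all 2-faces are triangles
    have hxe : (faces F 1).card + 6 = 3 * F.card := by
      rcases hv' with h | h
      · rw [h] at hcase hx ⊢
        omega
      · rw [h] at hcase hx ⊢
        omega
    have htri : ∀ R ∈ faces F 2, R.card = 3 := by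
      have h1 : ∑ _R ∈ faces F 2, 3 = ∑ R ∈ faces F 2, R.card := by
        rw [hsum, Finset.sum_const, smul_eq_mul]
        omega
      have h2 := (Finset.sum_eq_sum_iff_of_le hcard3).1 h1
      exact fun R hR => (h2 R hR).symm
    have hbd0 : missBd F = ∅ := by
      rw [missBd, Finset.filter_eq_empty_iff]
      rintro B hB ⟨R, hR, hBR⟩
      obtain ⟨⟨-, hB2⟩, hB1⟩ := mem_miss.1 hB
      obtain ⟨hRf, hRd⟩ := mem_faces.1 hR
      apply hB1
      obtain ⟨x, y, hxy, rfl⟩ := Finset.card_eq_two.1 hB2
      exact mem_faces.2 ⟨hRf.of_subset_simplex (by rw [htri R hR, hRd]) (by simp) hBR,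
        adim_pair hxy⟩
    rw [hbd0, Finset.card_empty]
    rcases hv' with h | h
    · rw [h] at hxe hm he
      have h5 : (5 : ℕ).choose 2 = 10 := rfl
      rw [h5] at hm
      push_cast at he
      omega
    · rw [h] at hxe hm he
      have h5 : (6 : ℕ).choose 2 = 15 := rfl
      rw [h5] at hm
      push_cast at he
      omega

theorem two_facets {V : Finset E} (h4 : adim V = 4) {R : Finset E} (hR : R ∈ faces V 2) :
    ((faces V 3).filter (fun F => R ⊆ F)).card = 2 := by
  have hR' := mem_faces.1 hR
  have h := diamond hR'.1 (FaceSet.self (nonempty_of_adim' h4)) hR'.1.2.1 (by rw [h4, hR'.2])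
  rw [hR'.2] at h
  rw [← h]
  congr 1
  apply Finset.filter_congr
  intro F hF
  have := (mem_faces.1 hF).1.2.1
  simp [this]

/-- Two different faces of dimension at most `k + 1` containing a missing pair meet in a face of
dimension at least two. -/
private theorem two_le_adim_of_missing {V : Finset E} (hV : ConvPos V) {B S : Finset E}
    (hB : B ∈ miss V) (hS : FaceSet V S) (hBS : B ⊆ S) : 2 ≤ adim S := by
  obtain ⟨⟨-, hB2⟩, hB1⟩ := mem_miss.1 hB
  obtain ⟨x, y, hxy, rfl⟩ := Finset.card_eq_two.1 hB2
  have h1 : 1 ≤ adim S := by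
    rw [← adim_pair hxy]
    exact adim_mono hBS
  rcases Nat.lt_or_ge (adim S) 2 with h2 | h2
  · exfalso
    apply hB1
    obtain ⟨a, b, hab, rfl⟩ := (hV.mono hS.2.1).card_eq_two (show adim S = 1 by omega)
    have : ({x, y} : Finset E) = {a, b} := Finset.eq_of_subset_of_card_le hBS (by
      rw [Finset.card_pair hab, Finset.card_pair hxy])
    rw [this]
    exact mem_faces.2 ⟨hS, adim_pair hab⟩
  · exact h2

/-- the facets containing a missing pair, weighted -/
private theorem charge_le {V : Finset E} (hV : ConvPos V) (h4 : adim V = 4) {B : Finset E}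
    (hB : B ∈ miss V) :
    2 * ((faces V 3).filter (fun F => B ⊆ F)).card
      ≤ ((faces V 3).filter (fun F => B ∈ missBd F)).card + 2 := by
  by_cases h1 : ((faces V 3).filter (fun F => B ⊆ F)).card ≤ 1
  · omega
  push Not at h1
  obtain ⟨F, hF, F', hF', hne⟩ := Finset.one_lt_card.1 h1
  rw [Finset.mem_filter] at hF hF'
  obtain ⟨hFf, hF3⟩ := mem_faces.1 hF.1
  obtain ⟨hFf', hF3'⟩ := mem_faces.1 hF'.1
  have hBne : B.Nonempty := by
    rw [← Finset.card_pos, (mem_miss.1 hB).1.2]
    norm_num
  have hmeet : ∀ F1 ∈ faces V 3, ∀ F2 ∈ faces V 3, F1 ≠ F2 → B ⊆ F1 → B ⊆ F2 →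
      F1 ∩ F2 ∈ faces V 2 := by
    intro F1 hF1 F2 hF2 hne12 hB1 hB2
    obtain ⟨f1, d1⟩ := mem_faces.1 hF1
    obtain ⟨f2, d2⟩ := mem_faces.1 hF2
    have hsub : B ⊆ F1 ∩ F2 := Finset.subset_inter hB1 hB2
    have hf := f1.inter f2 (hBne.mono hsub)
    have hge := two_le_adim_of_missing hV hB hf hsub
    have hlt : adim (F1 ∩ F2) < adim F1 := by
      refine hf.adim_lt (Finset.ssubset_iff_subset_ne.2 ⟨Finset.inter_subset_left, fun h => ?_⟩)
        f1.2.1
      have h2 : F1 ⊆ F2 := by
        rw [← h]
        exact Finset.inter_subset_right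
      exact hne12 (f1.eq_of_adim h2 f2.2.1 (by omega))
    exact mem_faces.2 ⟨hf, by omega⟩
  set R := F ∩ F' with hR
  have hRm : R ∈ faces V 2 := hmeet F hF.1 F' hF'.1 hne hF.2 hF'.2
  have hBR : B ⊆ R := Finset.subset_inter hF.2 hF'.2
  obtain ⟨hRf, hRd⟩ := mem_faces.1 hRm
  have hall : ∀ F'' ∈ faces V 3, B ⊆ F'' → R ⊆ F'' := by
    intro F'' hF'' hBF''
    by_cases he : F = F''
    · rw [← he]
      exact Finset.inter_subset_left
    have hR'' := hmeet F hF.1 F'' hF'' he hF.2 hBF''
    obtain ⟨hRf'', hRd''⟩ := mem_faces.1 hR''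
    have hsub : B ⊆ R ∩ (F ∩ F'') := Finset.subset_inter hBR (Finset.subset_inter hF.2 hBF'')
    have hf := hRf.inter hRf'' (hBne.mono hsub)
    have hge := two_le_adim_of_missing hV hB hf hsub
    have h2 : R ∩ (F ∩ F'') = R :=
      hf.eq_of_adim Finset.inter_subset_left hRf.2.1 (by omega)
    rw [← h2]
    exact Finset.inter_subset_right.trans Finset.inter_subset_right
  have hcount : ((faces V 3).filter (fun F => B ⊆ F)).card = 2 := by
    rw [← two_facets h4 hRm]
    congr 1
    apply Finset.filter_congr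
    intro F'' hF''
    exact ⟨hall F'' hF'', fun h => hBR.trans h⟩
  have hbd : (faces V 3).filter (fun F => B ⊆ F) ⊆
      (faces V 3).filter (fun F => B ∈ missBd F) := by
    intro F'' hF''
    rw [Finset.mem_filter] at hF'' ⊢
    refine ⟨hF''.1, ?_⟩
    have hf'' := (mem_faces.1 hF''.1).1
    rw [missBd, Finset.mem_filter, miss_face hf'', Finset.mem_filter]
    refine ⟨⟨hB, hF''.2⟩, R, ?_, hBR⟩
    rw [faces_face hf'', Finset.mem_filter]
    exact ⟨hRm, hall F'' hF''.1 hF''.2⟩
  have := Finset.card_le_card hbd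
  omega

/-- Each missing edge costs at most one unit of excess. -/
theorem excess_le_miss {V : Finset E} (hV : ConvPos V) (h4 : adim V = 4) :
    (faces V 1).card ≤ V.card + (faces V 3).card + (miss V).card := by
  have h1 := two_excess hV h4
  -- sum of the charges over the facets
  have h2 : ∑ F ∈ faces V 3, ((faces F 2).card + (missBd F).card)
      ≤ ∑ F ∈ faces V 3, (2 * (miss F).card + 4) :=
    Finset.sum_le_sum fun F hF => three_charge (hV.mono (mem_faces.1 hF).1.2.1) (mem_faces.1 hF).2
  have h3 : ∑ F ∈ faces V 3, (miss F).card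
      = ∑ B ∈ miss V, ((faces V 3).filter (fun F => B ⊆ F)).card := by
    have := Finset.sum_card_bipartiteAbove_eq_sum_card_bipartiteBelow
      (s := faces V 3) (t := miss V) (fun F B => B ⊆ F)
    simp only [Finset.bipartiteAbove, Finset.bipartiteBelow] at this
    rw [← this]
    exact Finset.sum_congr rfl fun F hF => by rw [miss_face (mem_faces.1 hF).1]
  have h5 : ∑ F ∈ faces V 3, (missBd F).card
      = ∑ B ∈ miss V, ((faces V 3).filter (fun F => B ∈ missBd F)).card := by
    have := Finset.sum_card_bipartiteAbove_eq_sum_card_bipartiteBelow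
      (s := faces V 3) (t := miss V) (fun F B => B ∈ missBd F)
    simp only [Finset.bipartiteAbove, Finset.bipartiteBelow] at this
    rw [← this]
    refine Finset.sum_congr rfl fun F hF => ?_
    congr 1
    ext B
    rw [Finset.mem_filter]
    constructor
    · intro h
      have h' := h
      rw [missBd, Finset.mem_filter, miss_face (mem_faces.1 hF).1, Finset.mem_filter] at h'
      exact ⟨h'.1.1, h⟩
    · exact fun h => h.2
  have h6 : ∑ B ∈ miss V, 2 * ((faces V 3).filter (fun F => B ⊆ F)).card
      ≤ ∑ B ∈ miss V, (((faces V 3).filter (fun F => B ∈ missBd F)).card + 2) :=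
    Finset.sum_le_sum fun B hB => charge_le hV h4 hB
  rw [← Finset.mul_sum, ← h3, Finset.sum_add_distrib, ← h5, Finset.sum_const, smul_eq_mul] at h6
  rw [Finset.sum_add_distrib, Finset.sum_add_distrib, ← Finset.mul_sum, Finset.sum_const,
    smul_eq_mul] at h2
  rw [Finset.sum_sub_distrib, Finset.sum_const, nsmul_eq_mul] at h1
  have h7 : (∑ F ∈ faces V 3, ((faces F 2).card : ℤ))
      = ((∑ F ∈ faces V 3, (faces F 2).card : ℕ) : ℤ) := by push_cast; rfl
  rw [h7] at h1
  omega

/-- The new inequality. -/
theorem excess_le {V : Finset E} (hV : ConvPos V) (h4 : adim V = 4) :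
    2 * (faces V 1).card ≤ (V.card + 1).choose 2 + (faces V 3).card := by
  have h1 := excess_le_miss hV h4
  have h2 := card_miss hV
  have h3 : (V.card + 1).choose 2 = V.card + V.card.choose 2 := by
    rw [Nat.choose_succ_succ' V.card 1, Nat.choose_one_right]
  omega

end

end Pool.Agent.FVB
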