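import Pool.Agent.Lib.MP_e9c977_fvb.Generic

/-!
# Row PP: the polytopes with one vertex of given degree
-/

namespace Pool.Agent.FVB

open Module Pool.Agent.FV
open scoped Classical

attribute [-instance] WithLp.instDecidableEq

noncomputable section

/-- An element with exactly `j` larger ones. -/
theorem exists_rank {S : Finset ℕ} {j : ℕ} (hj : j < S.card) :
    ∃ σ ∈ S, (S.filter (fun y => σ < y)).card = j := by
  induction j with
  | zero =>
    have hne : S.Nonempty := Finset.card_pos.1 hj
    refine ⟨S.max' hne, S.max'_mem hne, ?_⟩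
    rw [Finset.card_eq_zero, Finset.filter_eq_empty_iff]
    intro y hy
    have := S.le_max' y hy
    omega
  | succ j ih =>
    obtain ⟨σ, hσ, hc⟩ := ih (by omega)
    have h1 : ∃ u ∈ S, u < σ := by
      by_contra hcon
      push Not at hcon
      have h2 : S ⊆ insert σ (S.filter (fun y => σ < y)) := by
        intro y hy
        rw [Finset.mem_insert, Finset.mem_filter]
        have := hcon y hy
        by_cases hyσ : y = σ
        · exact Or.inl hyσ
        · exact Or.inr ⟨hy, by omega⟩
      have h3 := Finset.card_le_card h2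
      have h4 := Finset.card_insert_le σ (S.filter (fun y => σ < y))
      omega
    obtain ⟨s, hs⟩ := exists_pred hσ h1
    refine ⟨s, hs.1, ?_⟩
    have h2 : S.filter (fun y => s < y) = insert σ (S.filter (fun y => σ < y)) := by
      ext y
      rw [Finset.mem_insert, Finset.mem_filter, Finset.mem_filter]
      constructor
      · rintro ⟨hy, hsy⟩
        by_cases hyσ : y = σ
        · exact Or.inl hyσ
        · right
          refine ⟨hy, ?_⟩
          by_contra hcon
          exact hs.2.2.2 y hy ⟨hsy, by omega⟩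
      · have := hs.2.2.1
        rintro (rfl | ⟨hy, hσy⟩)
        · exact ⟨hσ, this⟩
        · exact ⟨hy, by omega⟩
    rw [h2, Finset.card_insert_of_notMem (by simp), hc]

theorem exists_partial (K n κ : ℕ) (h : 5 ≤ n) (hK : 2 * K + 4 ≤ n) (h4 : 4 ≤ κ) (hκ : κ ≤ n) :
    ∃ V x, Conf (n + 1) x K V ∧ x + K = n.choose 2 + κ ∧ HasSimplex V := by
  obtain ⟨b, rfl⟩ : ∃ b, n = b + 1 := ⟨n - 1, by omega⟩
  have hI := idx (K := K) (M := b) (by omega)
  have hc := card_II b
  have hI4 : 4 ≤ (II b).card := by omega
  have hbI : b ∈ II b := mem_II.2 ⟨by omega, le_rfl⟩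
  have hmax : ∀ s ∈ II b, s ≤ b := fun s hs => (mem_II.1 hs).2
  have hbSp : b ∉ SS K := fun h => by
    rw [mem_SS] at h
    omega
  have hce : ((II b).erase b).card = b - 1 := by
    rw [Finset.card_erase_of_mem hbI, hc]
  obtain ⟨σ, hσ, hj⟩ := exists_rank (S := (II b).erase b) (j := b + 1 - κ) (by omega)
  have hσ1 : 1 < σ := by
    by_contra hcon
    have h1 : ((II b).erase b).erase σ ⊆ ((II b).erase b).filter (fun y => σ < y) := by
      intro y hy
      rw [Finset.mem_erase] at hy
      rw [Finset.mem_filter]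
      have h2 := hI.pos y (Finset.mem_erase.1 hy.2).2
      have h3 := hI.pos σ (Finset.mem_erase.1 hσ).2
      exact ⟨hy.2, by omega⟩
    have h2 := Finset.card_le_card h1
    rw [Finset.card_erase_of_mem hσ] at h2
    omega
  obtain ⟨z, hz⟩ := exists_place hI hbI hmax hσ hσ1 hbSp (by omega)
  have e1 := card_edges_place hI hbI hmax hσ hσ1 hz
  have e2 := excess_place hI hbI hmax hσ hσ1 hz hI4
  have e3 := hasSimplex_place hI hbI hmax hσ hσ1 hz hI4
  have hV := convPos_place hI hbI hmax hσ hσ1 hz
  have hd := adim_W hI (Z := {z}) hI4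
  have hcard : (V0 (II b) (SS K) ∪ {z}).card = b + 1 + 1 := by
    rw [Finset.card_union_of_disjoint (by simpa using hz.not_mem), card_V0 hI, hc,
      Finset.card_singleton]
  rw [card_Ax_SS] at e1 e2
  rw [hj, hc] at e1
  have hch : (b + 2).choose 2 = (b + 1).choose 2 + (b + 1) := by
    have h6 : (b + 1 + 1).choose 2 = (b + 1).choose 1 + (b + 1).choose 2 :=
      Nat.choose_succ_succ' _ 1
    rw [Nat.choose_one_right] at h6
    rw [show b + 2 = b + 1 + 1 from rfl, h6]
    omega
  rw [hch] at e1
  refine ⟨V0 (II b) (SS K) ∪ {z}, (faces (V0 (II b) (SS K) ∪ {z}) 1).card,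
    ⟨hV, hd, hcard, rfl, ?_⟩, ?_, e3⟩
  · rw [hcard] at e2
    omega
  · omega

end

end Pool.Agent.FVB
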