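import Pool.Agent.Lib.MP_e9c977_fvb.Rep

/-!
# Adding a generic vertex near an edge
-/

namespace Pool.Agent.FVB

open Module Pool.Agent.FV
open scoped Classical

attribute [-instance] WithLp.instDecidableEq

noncomputable section

/-- Consecutive elements. -/
def Cons (S : Finset ℕ) (s t : ℕ) : Prop := s ∈ S ∧ t ∈ S ∧ s < t ∧ ∀ u ∈ S, ¬ (s < u ∧ u < t)

theorem exists_pred {S : Finset ℕ} {y : ℕ} (hy : y ∈ S) (h : ∃ u ∈ S, u < y) :
    ∃ s, Cons S s y := by
  obtain ⟨u, hu, huy⟩ := h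
  have hne : (S.filter (fun v => v < y)).Nonempty := ⟨u, Finset.mem_filter.2 ⟨hu, huy⟩⟩
  have h1 := Finset.max'_mem _ hne
  rw [Finset.mem_filter] at h1
  refine ⟨_, h1.1, hy, h1.2, fun v hv hv' => ?_⟩
  have := Finset.le_max' (S.filter (fun v => v < y)) v (Finset.mem_filter.2 ⟨hv, hv'.2⟩)
  omega

theorem exists_succ {S : Finset ℕ} {y : ℕ} (hy : y ∈ S) (h : ∃ u ∈ S, y < u) :
    ∃ s, Cons S y s := by
  obtain ⟨u, hu, huy⟩ := h
  have hne : (S.filter (fun v => y < v)).Nonempty := ⟨u, Finset.mem_filter.2 ⟨hu, huy⟩⟩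
  have h1 := Finset.min'_mem _ hne
  rw [Finset.mem_filter] at h1
  refine ⟨_, hy, h1.1, h1.2, fun v hv hv' => ?_⟩
  have := Finset.min'_le (S.filter (fun v => y < v)) v (Finset.mem_filter.2 ⟨hv, hv'.1⟩)
  omega

/-- The position of the new vertex. -/
structure Place (I Sp : Finset ℕ) (b σ : ℕ) (z : E4) : Prop where
  good : GoodZ I Sp z
  neg : ∀ s t, Cons (I.erase b) s t → t ≤ σ → cu b s t z < 0
  pos : ∀ s t, Cons (I.erase b) s t → σ < t → 0 < cu b s t z
  top : ∀ m ∈ I.erase b, (∀ u ∈ I.erase b, u ≤ m) → cu b 1 m z < 0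
  h0 : ∀ p ∈ I.erase b, ∀ q ∈ I.erase b, ∀ r ∈ I.erase b, p ≠ q → p ≠ r → q ≠ r →
    0 < 1 - (cu p q r z / cu p q r (P Sp b) + cu b q r z / cu b q r (P Sp p)
        + cu b p r z / cu b p r (P Sp q) + cu b p q z / cu b p q (P Sp r))
  hb : ∀ p ∈ I.erase b, ∀ q ∈ I.erase b, ∀ r ∈ I.erase b, p ≠ q → p ≠ r → q ≠ r →
    0 < cu p q r z / cu p q r (P Sp b)
  gen : ∀ T ⊆ V0 I Sp, adim T ≤ 3 → z ∉ affineSpan ℝ (T : Set E4)

section

variable {I Sp : Finset ℕ} {b σ : ℕ} {z : E4}

theorem Place.not_mem (hz : Place I Sp b σ z) : z ∉ V0 I Sp := by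
  intro h
  refine hz.gen {z} (Finset.singleton_subset_iff.2 h) (by rw [adim_singleton]; omega) ?_
  exact mem_affineSpan ℝ (by simp)

theorem Place.goodZ (hz : Place I Sp b σ z) : ∀ y ∈ ({z} : Finset E4), GoodZ I Sp y := by
  intro y hy
  rw [Finset.mem_singleton.1 hy]
  exact hz.good

theorem cu_nonneg (hI : Idx I Sp) (hmax : ∀ s ∈ I, s ≤ b) {s t : ℕ}
    (h : Cons (I.erase b) s t) : ∀ x ∈ V0 I Sp, 0 ≤ cu b s t x := by
  intro x hx
  rcases mem_V0.1 hx with rfl | ⟨u, hu, rfl⟩
  · rw [cu_zero]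
  · rw [cu_P hI _ _ _ hu]
    apply div_nonneg _ (den_pos Sp (hI.pos u hu)).le
    by_cases hub : u = b
    · rw [hub, sub_self, zero_mul, zero_mul]
    · have hb : (0 : ℝ) ≤ b - u := by
        have : (u : ℝ) ≤ b := by exact_mod_cast hmax u hu
        linarith
      have h1 : (0 : ℝ) ≤ ((u : ℝ) - s) * ((u : ℝ) - t) := by
        have h2 := h.2.2.2 u (Finset.mem_erase.2 ⟨hub, hu⟩)
        have h3 := h.2.2.1
        rcases Nat.lt_or_ge s u with h4 | h4
        · have h5 : t ≤ u := by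
            by_contra hcon
            exact h2 ⟨h4, by omega⟩
          apply mul_nonneg
          · have : (s : ℝ) < u := by exact_mod_cast h4
            linarith
          · have : (t : ℝ) ≤ u := by exact_mod_cast h5
            linarith
        · apply mul_nonneg_of_nonpos_of_nonpos
          · have : (u : ℝ) ≤ s := by exact_mod_cast h4
            linarith
          · have : (u : ℝ) ≤ t := by exact_mod_cast (h4.trans h3.le)
            linarith
      rw [mul_assoc]
      exact mul_nonneg hb h1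

variable (hI : Idx I Sp) (hbI : b ∈ I) (hmax : ∀ s ∈ I, s ≤ b) (hσ : σ ∈ I.erase b) (hσ1 : 1 < σ)
  (hz : Place I Sp b σ z)

include hI hbI hmax hσ hσ1

theorem one_mem : 1 ∈ I.erase b := by
  rw [Finset.mem_erase] at hσ ⊢
  refine ⟨?_, hI.one⟩
  have := hmax σ hσ.2
  omega

/-- A visible index lies in a visible consecutive pair. -/
theorem visible_pair {y : ℕ} (hy : y ∈ I.erase b) (hyσ : y ≤ σ) :
    ∃ s t, Cons (I.erase b) s t ∧ t ≤ σ ∧ (y = s ∨ y = t) := by
  have h1 := one_mem hI hbI hmax hσ hσ1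
  have hpos := hI.pos y (Finset.mem_erase.1 hy).2
  by_cases hy1 : y = 1
  · obtain ⟨t, ht⟩ := exists_succ (S := I.erase b) (y := y) hy ⟨σ, hσ, by omega⟩
    refine ⟨y, t, ht, ?_, Or.inl rfl⟩
    by_contra hcon
    exact ht.2.2.2 σ hσ ⟨by omega, by omega⟩
  · obtain ⟨s, hs⟩ := exists_pred (S := I.erase b) (y := y) hy ⟨1, h1, by omega⟩
    exact ⟨s, y, hs, hyσ, Or.inr rfl⟩

include hz

/-- `z` is a vertex. -/
theorem face_z : FaceSet (V0 I Sp ∪ {z}) {z} := by
  obtain ⟨s, t, hc, ht, -⟩ := visible_pair hI hbI hmax hσ hσ1 hσ le_rfl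
  refine faceSet_single (by simp) (isAff_cu b s t) ?_ (hz.neg s t hc ht)
  intro x hx hxz
  rcases Finset.mem_union.1 hx with hx | hx
  · exact cu_nonneg hI hmax hc x hx
  · exact absurd (Finset.mem_singleton.1 hx) hxz

theorem convPos_place : ConvPos (V0 I Sp ∪ {z}) := by
  intro x hx
  rcases Finset.mem_union.1 hx with hx | hx
  · rcases mem_V0.1 hx with rfl | ⟨s, hs, rfl⟩
    · exact face_zero hI hz.goodZ
    · exact face_pt hI hz.goodZ hs
  · rw [Finset.mem_singleton.1 hx]
    exact face_z hI hbI hmax hσ hσ1 hz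

/-- A point on a visible facet is a neighbour of `z`. -/
theorem face_z_of_zero {x : E4} (hx : x ∈ V0 I Sp) {s t : ℕ} (hc : Cons (I.erase b) s t)
    (ht : t ≤ σ) (h0 : cu b s t x = 0) : FaceSet (V0 I Sp ∪ {z}) {z, x} := by
  have hxz : z ≠ x := fun h => hz.not_mem (h ▸ hx)
  have hneg := hz.neg s t hc ht
  refine faceSet_pair (face_z hI hbI hmax hσ hσ1 hz)
    (convPos_place hI hbI hmax hσ hσ1 hz x (Finset.mem_union_left _ hx)) hxz
    (isAff_cu b s t) ?_ hneg.le h0.le (Or.inl hneg)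
  intro y hy hyz _
  rcases Finset.mem_union.1 hy with hy | hy
  · exact cu_nonneg hI hmax hc y hy
  · exact absurd (Finset.mem_singleton.1 hy) hyz

theorem face_z_zero : FaceSet (V0 I Sp ∪ {z}) {z, 0} := by
  obtain ⟨s, t, hc, ht, -⟩ := visible_pair hI hbI hmax hσ hσ1 hσ le_rfl
  exact face_z_of_zero hI hbI hmax hσ hσ1 hz (mem_V0.2 (Or.inl rfl)) hc ht (cu_zero _ _ _)

theorem face_z_b : FaceSet (V0 I Sp ∪ {z}) {z, P Sp b} := by
  obtain ⟨s, t, hc, ht, -⟩ := visible_pair hI hbI hmax hσ hσ1 hσ le_rfl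
  refine face_z_of_zero hI hbI hmax hσ hσ1 hz (mem_V0.2 (Or.inr ⟨b, hbI, rfl⟩)) hc ht ?_
  rw [cu_P hI _ _ _ hbI, sub_self, zero_mul, zero_mul, zero_div]

theorem face_z_visible {y : ℕ} (hy : y ∈ I.erase b) (hyσ : y ≤ σ) :
    FaceSet (V0 I Sp ∪ {z}) {z, P Sp y} := by
  obtain ⟨s, t, hc, ht, hst⟩ := visible_pair hI hbI hmax hσ hσ1 hy hyσ
  have hyI := (Finset.mem_erase.1 hy).2
  refine face_z_of_zero hI hbI hmax hσ hσ1 hz (mem_V0.2 (Or.inr ⟨y, hyI, rfl⟩)) hc ht ?_
  rw [cu_P hI _ _ _ hyI]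
  rcases hst with rfl | rfl
  · rw [sub_self, mul_zero, zero_mul, zero_div]
  · rw [sub_self, mul_zero, zero_div]

/-- The invisible vertices are no neighbours of `z`. -/
theorem not_face_z {y : ℕ} (hy : y ∈ I.erase b) (hyσ : σ < y) :
    ¬ FaceSet (V0 I Sp ∪ {z}) {z, P Sp y} := by
  intro hface
  obtain ⟨f, hf, hf0, hfz⟩ := FaceSet.exists_aff hface
  have h1 := one_mem hI hbI hmax hσ hσ1
  have hyI := (Finset.mem_erase.1 hy).2
  have hyb := (Finset.mem_erase.1 hy).1
  have fz : f z = 0 := (hfz z (by simp)).2 (by simp)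
  have fy : f (P Sp y) = 0 := (hfz _ (P_mem hyI)).2 (by simp)
  have f0 : 0 < f 0 := by
    refine lt_of_le_of_ne (hf0 0 zero_mem) (fun h => ?_)
    have h2 := (hfz 0 zero_mem).1 h.symm
    rw [Finset.mem_insert, Finset.mem_singleton] at h2
    rcases h2 with h2 | h2
    · exact hz.not_mem (h2 ▸ mem_V0.2 (Or.inl rfl))
    · exact P_ne_zero hI hyI h2.symm
  have fnn : ∀ s ∈ I, 0 ≤ f (P Sp s) := fun s hs => hf0 _ (P_mem hs)
  -- the two neighbours of `y`
  obtain ⟨p, hp⟩ := exists_pred (S := I.erase b) hy ⟨σ, hσ, hyσ⟩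
  have hpI := (Finset.mem_erase.1 hp.1).2
  have hpb := (Finset.mem_erase.1 hp.1).1
  have hpy := hp.2.2.1
  have hσp : σ ≤ p := by
    by_contra hcon
    exact hp.2.2.2 σ hσ ⟨by omega, hyσ⟩
  have lt_b : ∀ s ∈ I.erase b, (s : ℝ) < b := fun s hs => by
    have h2 := hmax s (Finset.mem_erase.1 hs).2
    have h3 := (Finset.mem_erase.1 hs).1
    have h4 : s < b := by omega
    exact_mod_cast h4
  have den := fun s hs => den_pos Sp (hI.pos s hs)
  have hpyR : (p : ℝ) < y := by exact_mod_cast hpy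
  obtain ⟨q, hqS, hqy, hqp, hq1, hq2⟩ : ∃ q ∈ I.erase b, q ≠ y ∧ q ≠ p ∧
      0 < cu b y q z / cu b y q (P Sp p) ∧ 0 < cu b p y z / cu b p y (P Sp q) := by
    by_cases hs : ∃ u ∈ I.erase b, y < u
    · obtain ⟨q, hq⟩ := exists_succ (S := I.erase b) hy hs
      have hqI := (Finset.mem_erase.1 hq.2.1).2
      have hyq := hq.2.2.1
      have hyqR : (y : ℝ) < q := by exact_mod_cast hyq
      refine ⟨q, hq.2.1, by omega, by omega, ?_, ?_⟩
      · refine div_pos (hz.pos y q hq (by omega)) ?_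
        rw [cu_P hI _ _ _ hpI]
        refine div_pos ?_ (den p hpI)
        have := lt_b p hp.1
        rw [mul_assoc]
        exact mul_pos (by linarith) (mul_pos_of_neg_of_neg (by linarith) (by linarith))
      · refine div_pos (hz.pos p y hp hyσ) ?_
        rw [cu_P hI _ _ _ hqI]
        refine div_pos ?_ (den q hqI)
        have := lt_b q hq.2.1
        exact mul_pos (mul_pos (by linarith) (by linarith)) (by linarith)
    · push Not at hs
      have hp1 : (1 : ℝ) < p := by
        have : 1 < p := by omega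
        exact_mod_cast this
      refine ⟨1, h1, by omega, by omega, ?_, ?_⟩
      · have h2 := hz.top y hy hs
        rw [cu_comm] at h2
        push_cast
        refine div_pos_of_neg_of_neg h2 ?_
        rw [cu_P hI _ _ _ hpI]
        refine div_neg_of_neg_of_pos ?_ (den p hpI)
        have := lt_b p hp.1
        exact mul_neg_of_neg_of_pos (mul_neg_of_pos_of_neg (by linarith) (by linarith))
          (by linarith)
      · refine div_pos (hz.pos p y hp hyσ) ?_
        rw [cu_P hI _ _ _ hI.one]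
        refine div_pos ?_ (den 1 hI.one)
        have := lt_b 1 h1
        push_cast at this ⊢
        rw [mul_assoc]
        exact mul_pos (by linarith) (mul_pos_of_neg_of_neg (by linarith) (by linarith))
  have hqI := (Finset.mem_erase.1 hqS).2
  have hqb := (Finset.mem_erase.1 hqS).1
  have hrep := aff_rep hI hbI hpI hyI hqI hpb.symm hyb.symm hqb.symm (by omega) (Ne.symm hqp)
    (Ne.symm hqy) hf z
  have c0 := hz.h0 p hp.1 y hy q hqS (by omega) (Ne.symm hqp) (Ne.symm hqy)
  have cb := hz.hb p hp.1 y hy q hqS (by omega) (Ne.symm hqp) (Ne.symm hqy)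
  rw [fz, fy, mul_zero, add_zero] at hrep
  have t0 := mul_pos c0 f0
  have t1 := mul_nonneg cb.le (fnn b hbI)
  have t2 := mul_nonneg hq1.le (fnn p hpI)
  have t3 := mul_nonneg hq2.le (fnn q hqI)
  linarith

/-- The indices of the invisible vertices. -/
theorem card_edges_place :
    (faces (V0 I Sp ∪ {z}) 1).card + ((Ax Sp).card + ((I.erase b).filter (fun y => σ < y)).card)
      = (I.card + 2).choose 2 := by
  have hV := convPos_place hI hbI hmax hσ hσ1 hz
  have hzV := hz.not_mem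
  set N : Finset (Finset E4) :=
    ((I.erase b).filter (fun y => σ < y)).image (fun y => ({z, P Sp y} : Finset E4)) with hN
  have memN : ∀ {S : Finset E4}, S ∈ N ↔ ∃ y ∈ I.erase b, σ < y ∧ ({z, P Sp y} : Finset E4) = S := by
    intro S
    rw [hN, Finset.mem_image]
    constructor
    · rintro ⟨y, hy, rfl⟩
      rw [Finset.mem_filter] at hy
      exact ⟨y, hy.1, hy.2, rfl⟩
    · rintro ⟨y, hy, hy', rfl⟩
      exact ⟨y, Finset.mem_filter.2 ⟨hy, hy'⟩, rfl⟩
  have hP : ∀ s ∈ I, z ≠ P Sp s := fun s hs h => hzV (h ▸ mem_V0.2 (Or.inr ⟨s, hs, rfl⟩))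
  have hMz : ∀ S ∈ Mi Sp, z ∉ S := by
    intro S hS hzS
    obtain ⟨s, hs, rfl⟩ := mem_Mi.1 hS
    rw [Finset.mem_insert, Finset.mem_singleton] at hzS
    rcases hzS with h | h
    · exact hP s (hI.asub hs) h
    · exact hP (s + 2) (hI.b2 s hs) h
  have hNz : ∀ S ∈ N, z ∈ S := by
    intro S hS
    obtain ⟨y, -, -, rfl⟩ := memN.1 hS
    simp
  have hdisj : Disjoint (Mi Sp) N := by
    rw [Finset.disjoint_left]
    intro S h1 h2
    exact hMz S h1 (hNz S h2)
  have hcardN : N.card = ((I.erase b).filter (fun y => σ < y)).card := by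
    rw [hN, Finset.card_image_of_injOn]
    intro y hy y' hy' h
    rw [Finset.mem_coe, Finset.mem_filter, Finset.mem_erase] at hy hy'
    have h2 : P Sp y ∈ ({z, P Sp y'} : Finset E4) := by
      have h3 : ({z, P Sp y} : Finset E4) = {z, P Sp y'} := h
      rw [← h3]
      simp
    rw [Finset.mem_insert, Finset.mem_singleton] at h2
    rcases h2 with h2 | h2
    · exact absurd h2.symm (hP y hy.1.2)
    · exact (P_inj hI hy.1.2 hy'.1.2).1 h2
  have hsub : Mi Sp ∪ N ⊆ Finset.powersetCard 2 (V0 I Sp ∪ {z}) := by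
    apply Finset.union_subset
    · intro S hS
      have h2 := Finset.mem_powersetCard.1 (Mi_subset hI hS)
      exact Finset.mem_powersetCard.2 ⟨h2.1.trans Finset.subset_union_left, h2.2⟩
    · intro S hS
      obtain ⟨y, hy, -, rfl⟩ := memN.1 hS
      have hyI := (Finset.mem_erase.1 hy).2
      rw [Finset.mem_powersetCard]
      refine ⟨?_, Finset.card_pair (hP y hyI)⟩
      intro x hx
      rcases Finset.mem_insert.1 hx with rfl | hx
      · simp
      · rw [Finset.mem_singleton.1 hx]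
        exact P_mem hyI
  -- pairs with `z`
  have hpz : ∀ x ∈ V0 I Sp, (FaceSet (V0 I Sp ∪ {z}) {z, x} ↔ ({z, x} : Finset E4) ∉ Mi Sp ∪ N) := by
    intro x hx
    have h1 : ({z, x} : Finset E4) ∉ Mi Sp := fun h => hMz _ h (by simp)
    rw [Finset.mem_union, not_or]
    have hxN : ({z, x} : Finset E4) ∈ N ↔ ∃ y ∈ I.erase b, σ < y ∧ P Sp y = x := by
      rw [memN]
      constructor
      · rintro ⟨y, hy, hy', he⟩
        refine ⟨y, hy, hy', ?_⟩
        have h2 : P Sp y ∈ ({z, x} : Finset E4) := by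
          rw [← he]
          simp
        rw [Finset.mem_insert, Finset.mem_singleton] at h2
        exact h2.resolve_left (fun h => hP y (Finset.mem_erase.1 hy).2 h.symm)
      · rintro ⟨y, hy, hy', rfl⟩
        exact ⟨y, hy, hy', rfl⟩
    rw [hxN]
    constructor
    · intro hf
      refine ⟨h1, ?_⟩
      rintro ⟨y, hy, hy', rfl⟩
      exact not_face_z hI hbI hmax hσ hσ1 hz hy hy' hf
    · rintro ⟨-, h2⟩
      rcases mem_V0.1 hx with rfl | ⟨s, hs, rfl⟩
      · exact face_z_zero hI hbI hmax hσ hσ1 hz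
      · by_cases hsb : s = b
        · rw [hsb]
          exact face_z_b hI hbI hmax hσ hσ1 hz
        · have hsS : s ∈ I.erase b := Finset.mem_erase.2 ⟨hsb, hs⟩
          by_cases hsσ : s ≤ σ
          · exact face_z_visible hI hbI hmax hσ hσ1 hz hsS hsσ
          · exact absurd ⟨s, hsS, by omega, rfl⟩ h2
  have h := card_edges_of_missing hV hsub (fun x hx y hy hxy => by
    rcases Finset.mem_union.1 hx with hx | hx
    · rcases Finset.mem_union.1 hy with hy | hy
      · rw [face_pair_iff hI hz.goodZ hx hy hxy, Finset.mem_union, not_or]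
        refine ⟨fun h => ⟨h, fun h' => ?_⟩, fun h => h.1⟩
        have h2 := hNz _ h'
        rw [Finset.mem_insert, Finset.mem_singleton] at h2
        rcases h2 with h2 | h2
        · exact hzV (h2 ▸ hx)
        · exact hzV (h2 ▸ hy)
      · rw [Finset.mem_singleton.1 hy, Finset.pair_comm]
        exact hpz x hx
    · rcases Finset.mem_union.1 hy with hy | hy
      · rw [Finset.mem_singleton.1 hx]
        exact hpz y hy
      · exact absurd ((Finset.mem_singleton.1 hx).trans (Finset.mem_singleton.1 hy).symm) hxy)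
  rw [Finset.card_union_of_disjoint hdisj, card_Mi hI, hcardN] at h
  rw [h, Finset.card_union_of_disjoint (by simpa using hzV), card_V0 hI, Finset.card_singleton]

/-- The excess stays. -/
theorem excess_place (h4 : 4 ≤ I.card) :
    (faces (V0 I Sp ∪ {z}) 1).card
      = (V0 I Sp ∪ {z}).card + (faces (V0 I Sp ∪ {z}) 3).card + (Ax Sp).card := by
  have hV := convPos_place hI hbI hmax hσ hσ1 hz
  have hd := adim_W hI (Z := {z}) h4
  have hzV := hz.not_mem
  have h1 := card_Ax_le hI hz.goodZ h4 hV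
  have h2 := two_excess hV hd
  have h3 := excess_V0 hI h4
  have hV0 := convPos_V0 hI
  have hd0 := adim_W hI (Z := ∅) h4
  rw [Finset.union_empty] at hd0
  have h5 := two_excess hV0 hd0
  have hins : V0 I Sp ∪ {z} = insert z (V0 I Sp) := by
    rw [Finset.union_comm]
    rfl
  have hle : ∑ F ∈ faces (V0 I Sp ∪ {z}) 3, (((faces F 2).card : ℤ) - 4)
      ≤ ∑ F ∈ faces (V0 I Sp) 3, (((faces F 2).card : ℤ) - 4) := by
    have h6 : ∑ F ∈ (faces (V0 I Sp ∪ {z}) 3).filter (fun F => z ∉ F),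
        (((faces F 2).card : ℤ) - 4) = ∑ F ∈ faces (V0 I Sp ∪ {z}) 3, (((faces F 2).card : ℤ) - 4) := by
      apply Finset.sum_filter_of_ne
      intro F hF hne hzF
      apply hne
      obtain ⟨hFf, hFd⟩ := mem_faces.1 hF
      have h7 := facet_through (z := z) (V := V0 I Sp) hz.gen (F := F) (by rw [← hins]; exact hF) hzF
      have h8 := card_two_face hI h4 h7
      have h9 : F.card = 4 := by
        rw [Finset.card_erase_of_mem hzF] at h8
        omega
      rw [faces_two_simplex (hV.mono hFf.2.1) hFd h9]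
      norm_num
    rw [← h6]
    apply Finset.sum_le_sum_of_subset_of_nonneg
    · intro F hF
      rw [Finset.mem_filter] at hF
      obtain ⟨hFf, hFd⟩ := mem_faces.1 hF.1
      refine mem_faces.2 ⟨hFf.of_subset Finset.subset_union_left ?_, hFd⟩
      intro x hx
      rcases Finset.mem_union.1 (hFf.2.1 hx) with h | h
      · exact h
      · rw [Finset.mem_singleton.1 h] at hx
        exact absurd hx hF.2
    · intro F hF _
      obtain ⟨hFf, hFd⟩ := mem_faces.1 hF
      have := four_le_faces_two (hV0.mono hFf.2.1) hFd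
      omega
  omega

theorem hasSimplex_place (h4 : 4 ≤ I.card) : HasSimplex (V0 I Sp ∪ {z}) := by
  have hd := adim_W hI (Z := {z}) h4
  have hins : V0 I Sp ∪ {z} = insert z (V0 I Sp) := by
    rw [Finset.union_comm]
    rfl
  obtain ⟨F, hF, hzF⟩ := exists_face_between (face_z hI hbI hmax hσ hσ1 hz) (i := 3)
    (by rw [adim_singleton]; omega) (by omega)
  have hzF' : z ∈ F := hzF (by simp)
  refine ⟨F, hF, ?_⟩
  have h7 := facet_through (z := z) (V := V0 I Sp) hz.gen (F := F) (by rw [← hins]; exact hF) hzF'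
  have h8 := card_two_face hI h4 h7
  rw [Finset.card_erase_of_mem hzF'] at h8
  omega

end

end

end Pool.Agent.FVB
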