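import Pool.Agent.Lib.MP_e9c977_fvb.Aff

/-!
# The points

`pt w s = (s³, s², s, 1) / (s⁴ + w s)`.  Affine functions are polynomials `F` of degree at most
four: the value at the origin is the leading coefficient, the value at `pt w s` is
`(F s + w s * lead F) / (s⁴ + w s)`.
-/

namespace Pool.Agent.FVB

open Module Pool.Agent.FV
open scoped Classical

noncomputable section

/-- The affine function of the polynomial `a u⁴ + b u³ + c u² + d u + e`. -/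
def ev (a b c d e : ℝ) (x : E4) : ℝ := a + b * x 0 + c * x 1 + d * x 2 + e * x 3

/-- The linear part. -/
def evl (b c d e : ℝ) : E4 →ₗ[ℝ] ℝ where
  toFun x := b * x 0 + c * x 1 + d * x 2 + e * x 3
  map_add' x y := by
    simp only [PiLp.add_apply]
    ring
  map_smul' r x := by
    simp only [PiLp.smul_apply, smul_eq_mul, RingHom.id_apply]
    ring

theorem ev_eq (a b c d e : ℝ) (x : E4) : ev a b c d e x = evl b c d e x + a := by
  simp only [ev, evl, LinearMap.coe_mk, AddHom.coe_mk]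
  ring

theorem isAff_ev (a b c d e : ℝ) : IsAff (ev a b c d e) := ⟨evl b c d e, a, ev_eq a b c d e⟩

/-- The point. -/
def pt (w : ℕ → ℝ) (s : ℕ) : E4 :=
  WithLp.toLp 2 ![(s : ℝ) ^ 3 / ((s : ℝ) ^ 4 + w s), (s : ℝ) ^ 2 / ((s : ℝ) ^ 4 + w s),
    (s : ℝ) / ((s : ℝ) ^ 4 + w s), 1 / ((s : ℝ) ^ 4 + w s)]

theorem ev_zero (a b c d e : ℝ) : ev a b c d e 0 = a := by simp [ev]

theorem ev_pt (a b c d e : ℝ) {w : ℕ → ℝ} {s : ℕ} (h : 0 < (s : ℝ) ^ 4 + w s) :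
    ev a b c d e (pt w s) =
      (a * (s : ℝ) ^ 4 + b * (s : ℝ) ^ 3 + c * (s : ℝ) ^ 2 + d * s + e + w s * a) /
        ((s : ℝ) ^ 4 + w s) := by
  simp [ev, pt]
  field_simp
  ring

/-- `(u - a)(u - b)(u - c)(u - d)` -/
def qt (a b c d : ℝ) : E4 → ℝ :=
  ev 1 (-(a + b + c + d)) (a * b + a * c + a * d + b * c + b * d + c * d)
    (-(a * b * c + a * b * d + a * c * d + b * c * d)) (a * b * c * d)

/-- `(u - a)(u - b)` -/
def qd (a b : ℝ) : E4 → ℝ := ev 0 0 1 (-(a + b)) (a * b)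

/-- `(b - u)(u - s)(u - t)` -/
def cu (b s t : ℝ) : E4 → ℝ :=
  ev 0 (-1) (b + s + t) (-(b * s + b * t + s * t)) (b * s * t)

theorem isAff_qt (a b c d : ℝ) : IsAff (qt a b c d) := isAff_ev _ _ _ _ _
theorem isAff_qd (a b : ℝ) : IsAff (qd a b) := isAff_ev _ _ _ _ _
theorem isAff_cu (b s t : ℝ) : IsAff (cu b s t) := isAff_ev _ _ _ _ _

theorem qt_zero (a b c d : ℝ) : qt a b c d 0 = 1 := ev_zero _ _ _ _ _
theorem qd_zero (a b : ℝ) : qd a b 0 = 0 := ev_zero _ _ _ _ _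
theorem cu_zero (b s t : ℝ) : cu b s t 0 = 0 := ev_zero _ _ _ _ _

theorem qt_pt (a b c d : ℝ) {w : ℕ → ℝ} {s : ℕ} (h : 0 < (s : ℝ) ^ 4 + w s) :
    qt a b c d (pt w s) = ((s - a) * (s - b) * (s - c) * (s - d) + w s) / ((s : ℝ) ^ 4 + w s) := by
  rw [qt, ev_pt _ _ _ _ _ h]
  congr 1
  ring

theorem qd_pt (a b : ℝ) {w : ℕ → ℝ} {s : ℕ} (h : 0 < (s : ℝ) ^ 4 + w s) :
    qd a b (pt w s) = ((s - a) * (s - b)) / ((s : ℝ) ^ 4 + w s) := by
  rw [qd, ev_pt _ _ _ _ _ h]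
  congr 1
  ring

theorem cu_pt (b s t : ℝ) {w : ℕ → ℝ} {u : ℕ} (h : 0 < (u : ℝ) ^ 4 + w u) :
    cu b s t (pt w u) = ((b - u) * (u - s) * (u - t)) / ((u : ℝ) ^ 4 + w u) := by
  rw [cu, ev_pt _ _ _ _ _ h]
  congr 1
  ring

/-- The last coordinate. -/
theorem last_pt {w : ℕ → ℝ} {s : ℕ} (h : 0 < (s : ℝ) ^ 4 + w s) :
    ev 0 0 0 0 1 (pt w s) = 1 / ((s : ℝ) ^ 4 + w s) := by
  rw [ev_pt _ _ _ _ _ h]
  congr 1
  ring

theorem one_le_sq {s t : ℕ} (h : s ≠ t) : (1 : ℝ) ≤ ((s : ℝ) - t) ^ 2 := by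
  have h1 : (1 : ℤ) ≤ ((s : ℤ) - t) ^ 2 := by
    have h2 : (s : ℤ) - t ≠ 0 := by omega
    have h3 : 0 < ((s : ℤ) - t) ^ 2 := by positivity
    omega
  exact_mod_cast h1

theorem pt_injOn {w : ℕ → ℝ} {s t : ℕ} (hs : 0 < (s : ℝ) ^ 4 + w s) (ht : 0 < (t : ℝ) ^ 4 + w t)
    (h : pt w s = pt w t) : s = t := by
  by_contra hne
  have h1 := qd_pt (s : ℝ) s hs
  have h2 := qd_pt (s : ℝ) s ht
  rw [h, h2, sub_self, mul_zero, zero_div] at h1
  have h3 := one_le_sq (Ne.symm hne)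
  have h4 : 0 < ((t : ℝ) - s) * (t - s) / ((t : ℝ) ^ 4 + w t) := by
    apply div_pos _ ht
    nlinarith
  linarith

theorem pt_ne_zero {w : ℕ → ℝ} {s : ℕ} (hs : 0 < (s : ℝ) ^ 4 + w s) : pt w s ≠ 0 := by
  intro h
  have h1 := last_pt hs
  rw [h, ev_zero] at h1
  have : 0 < 1 / ((s : ℝ) ^ 4 + w s) := by positivity
  linarith

end

end Pool.Agent.FVB
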