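import Pool.Agent.Lib.MP_e9c977_fvb.Top

/-!
# Coordinates, triangles, and facets through a generic point
-/

namespace Pool.Agent.FVB

open Module Pool.Agent.FV
open scoped Classical

attribute [-instance] WithLp.instDecidableEq

noncomputable section

/-- The linear function `cu`. -/
def cul (b s t : ℝ) : E4 →ₗ[ℝ] ℝ := evl (-1) (b + s + t) (-(b * s + b * t + s * t)) (b * s * t)

theorem cu_eq (b s t : ℝ) (x : E4) : cu b s t x = cul b s t x := by
  rw [cu, cul, ev_eq, add_zero]

theorem cu_comm (b s t : ℝ) (x : E4) : cu b s t x = cu b t s x := by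
  simp only [cu, ev]
  ring

section rep

variable {I Sp : Finset ℕ}

/-- Coordinates in the basis `P a₁, P a₂, P a₃, P a₄`. -/
theorem aff_rep (hI : Idx I Sp) {a b c d : ℕ} (ha : a ∈ I) (hb : b ∈ I) (hc : c ∈ I) (hd : d ∈ I)
    (hab : a ≠ b) (hac : a ≠ c) (had : a ≠ d) (hbc : b ≠ c) (hbd : b ≠ d) (hcd : c ≠ d)
    {f : E4 → ℝ} (hf : IsAff f) (x : E4) :
    f x = (1 - (cu b c d x / cu b c d (P Sp a) + cu a c d x / cu a c d (P Sp b)
        + cu a b d x / cu a b d (P Sp c) + cu a b c x / cu a b c (P Sp d))) * f 0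
      + cu b c d x / cu b c d (P Sp a) * f (P Sp a) + cu a c d x / cu a c d (P Sp b) * f (P Sp b)
      + cu a b d x / cu a b d (P Sp c) * f (P Sp c)
      + cu a b c x / cu a b c (P Sp d) * f (P Sp d) := by
  obtain ⟨l, k, hl⟩ := hf
  -- values of `cu`
  have hne : ∀ {p q r s : ℕ}, s ∈ I → p ≠ s → s ≠ q → s ≠ r →
      cu (p : ℝ) (q : ℝ) (r : ℝ) (P Sp s) ≠ 0 := by
    intro p q r s hs h1 h2 h3
    rw [cu_P hI _ _ _ hs]
    apply div_ne_zero _ (den_pos Sp (hI.pos s hs)).ne'
    refine mul_ne_zero (mul_ne_zero ?_ ?_) ?_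
    · exact sub_ne_zero.2 (by exact_mod_cast h1)
    · exact sub_ne_zero.2 (by exact_mod_cast h2)
    · exact sub_ne_zero.2 (by exact_mod_cast h3)
  have z1 : ∀ {p q r : ℕ}, p ∈ I → cu (p : ℝ) (q : ℝ) (r : ℝ) (P Sp p) = 0 := by
    intro p q r hp
    rw [cu_P hI _ _ _ hp, sub_self, zero_mul, zero_mul, zero_div]
  have z2 : ∀ {p q r : ℕ}, q ∈ I → cu (p : ℝ) (q : ℝ) (r : ℝ) (P Sp q) = 0 := by
    intro p q r hq
    rw [cu_P hI _ _ _ hq, sub_self, mul_zero, zero_mul, zero_div]
  have z3 : ∀ {p q r : ℕ}, r ∈ I → cu (p : ℝ) (q : ℝ) (r : ℝ) (P Sp r) = 0 := by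
    intro p q r hr
    rw [cu_P hI _ _ _ hr, sub_self, mul_zero, zero_div]
  have na := hne ha hab.symm hac had (p := b)
  have nb := hne hb hab hbc hbd (p := a)
  have nc := hne hc hac hbc.symm hcd (p := a)
  have nd := hne hd had hbd.symm hcd.symm (p := a)
  set g : E4 →ₗ[ℝ] ℝ := l - ((l (P Sp a) / cu b c d (P Sp a)) • cul b c d
    + (l (P Sp b) / cu a c d (P Sp b)) • cul a c d
    + (l (P Sp c) / cu a b d (P Sp c)) • cul a b d
    + (l (P Sp d) / cu a b c (P Sp d)) • cul a b c) with hg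
  have hgx : ∀ y, g y = l y - (l (P Sp a) / cu b c d (P Sp a) * cu b c d y
      + l (P Sp b) / cu a c d (P Sp b) * cu a c d y
      + l (P Sp c) / cu a b d (P Sp c) * cu a b d y
      + l (P Sp d) / cu a b c (P Sp d) * cu a b c y) := by
    intro y
    simp only [hg, LinearMap.sub_apply, LinearMap.add_apply, LinearMap.smul_apply, smul_eq_mul,
      cu_eq]
  have hg0 : g = 0 := by
    apply eq_zero_of_four (J := {a, b, c, d})
    · rw [Finset.card_insert_of_notMem (by simp [hab, hac, had]),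
        Finset.card_insert_of_notMem (by simp [hbc, hbd]), Finset.card_pair hcd]
    · intro s hs
      simp only [Finset.mem_insert, Finset.mem_singleton] at hs
      have key : ∀ s ∈ I, g (P Sp s) = 0 → g (mv (s : ℝ)) = 0 := fun s hs h => by
        rw [← smul_P hI hs, map_smul, h, smul_zero]
      rcases hs with rfl | rfl | rfl | rfl
      · apply key _ ha
        rw [hgx, z1 ha, z1 ha, z1 ha, div_mul_cancel₀ _ na]
        ring
      · apply key _ hb
        rw [hgx, z1 hb, z2 hb, z2 hb, div_mul_cancel₀ _ nb]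
        ring
      · apply key _ hc
        rw [hgx, z2 hc, z2 hc, z3 hc, div_mul_cancel₀ _ nc]
        ring
      · apply key _ hd
        rw [hgx, z3 hd, z3 hd, z3 hd, div_mul_cancel₀ _ nd]
        ring
  have h1 := hgx x
  rw [hg0, LinearMap.zero_apply] at h1
  simp only [hl, map_zero]
  linear_combination -h1

/-- All 2-faces of `V0` are triangles. -/
theorem card_two_face (hI : Idx I Sp) (h4 : 4 ≤ I.card) {R : Finset E4}
    (hR : R ∈ faces (V0 I Sp) 2) : R.card = 3 := by
  have hV := convPos_V0 hI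
  obtain ⟨hRf, hRd⟩ := mem_faces.1 hR
  have hRc := hV.mono hRf.2.1
  have h3 := three_le_card_polygon hRc hRd
  by_contra hne
  obtain ⟨u, hu⟩ := hRf.1
  have hn := card_nbr_polygon hRc hRd hu
  -- a non-neighbour of `u`
  obtain ⟨w, hwR, hw⟩ : ∃ w ∈ R, w ∉ insert u (nbr R u) := by
    by_contra hcon
    push Not at hcon
    have h5 := Finset.card_le_card (show R ⊆ insert u (nbr R u) from hcon)
    have h6 := Finset.card_insert_le u (nbr R u)
    omega
  rw [Finset.mem_insert, not_or] at hw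
  have hnf : ¬ FaceSet (V0 I Sp) {u, w} := by
    intro h
    apply hw.2
    rw [mem_nbr]
    refine ⟨hw.1, h.of_subset hRf.2.1 ?_⟩
    intro y hy
    rcases Finset.mem_insert.1 hy with rfl | hy
    · exact hu
    · rw [Finset.mem_singleton.1 hy]
      exact hwR
  have hZ : ∀ z ∈ (∅ : Finset E4), GoodZ I Sp z := fun z hz => absurd hz (Finset.notMem_empty z)
  have h7 := face_pair_iff hI hZ (hRf.2.1 hu) (hRf.2.1 hwR) (Ne.symm hw.1)
  rw [Finset.union_empty] at h7
  have h8 : ({u, w} : Finset E4) ∈ Mi Sp := by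
    by_contra hcon
    exact hnf (h7.2 hcon)
  obtain ⟨s, hs, he⟩ := mem_Mi.1 h8
  have hmem : ∀ y ∈ ({P Sp s, P Sp (s + 2)} : Finset E4), y ∈ R := by
    intro y hy
    rw [he] at hy
    rcases Finset.mem_insert.1 hy with rfl | hy
    · exact hu
    · rw [Finset.mem_singleton.1 hy]
      exact hwR
  have hs0 := hmem (P Sp s) (by simp)
  have hs2 := hmem (P Sp (s + 2)) (by simp)
  have hPm : ∀ t ∈ I, P Sp t ∈ V0 I Sp := fun t ht => mem_V0.2 (Or.inr ⟨t, ht, rfl⟩)
  have h9 := mem_of_axis hI hs hRf (hPm _ (hI.a1 s hs)) (hPm _ (hI.b1 s hs)) (hPm _ (hI.b3 s hs))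
    hs0 hs2
  have hG : G Sp s ⊆ R := by
    intro y hy
    obtain ⟨t, ht, rfl⟩ := Finset.mem_image.1 hy
    simp only [gI, Finset.mem_insert, Finset.mem_singleton] at ht
    rcases ht with rfl | rfl | rfl | rfl | rfl
    · exact h9.1
    · exact hs0
    · exact h9.2.1
    · exact hs2
    · exact h9.2.2
  have h10 := adim_mono hG
  rw [adim_G hI hZ h4 hs, hRd] at h10
  omega

end rep

section generic

variable {E : Type} [NormedAddCommGroup E] [InnerProductSpace ℝ E]

/-- If `z` is not in the affine span of `S`, the rest of a pyramid with apex `z`. -/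
theorem pyramid {S : Finset E} {z : E} (hS : S.Nonempty)
    (hz : z ∉ affineSpan ℝ (S : Set E)) :
    adim (insert z S) = adim S + 1 ∧ FaceSet (insert z S) S := by
  obtain ⟨s, hs⟩ := hS
  have hzs : z - s ∉ vectorSpan ℝ (S : Set E) := by
    intro h
    apply hz
    have h1 : (z - s) +ᵥ s ∈ affineSpan ℝ (S : Set E) := by
      refine AffineSubspace.vadd_mem_of_mem_direction ?_ (mem_affineSpan ℝ (Finset.mem_coe.2 hs))
      rwa [direction_affineSpan]
    rwa [vadd_eq_add, sub_add_cancel] at h1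
  obtain ⟨g, hg1, hg2⟩ := Submodule.exists_le_ker_of_notMem hzs
  have hgS : ∀ y ∈ S, g y = g s := by
    intro y hy
    have h1 : y - s ∈ vectorSpan ℝ (S : Set E) :=
      vsub_mem_vectorSpan ℝ (Finset.mem_coe.2 hy) (Finset.mem_coe.2 hs)
    have h2 := hg2 h1
    rw [LinearMap.mem_ker, map_sub] at h2
    linarith
  have hgz : g z - g s ≠ 0 := by
    rw [← map_sub]
    exact hg1
  have hzS : z ∉ S := fun h => hgz (by rw [hgS z h, sub_self])
  have hface : FaceSet (insert z S) S := by
    refine faceSet_of_aff ⟨s, hs⟩ (Finset.subset_insert _ _)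
      (f := fun x => (g z - g s)⁻¹ * (g x - g s)) ?_ ?_ ?_
    · exact IsAff.const_mul ⟨g, -g s, fun x => by ring⟩ _
    · intro x hx
      rcases Finset.mem_insert.1 hx with rfl | hx
      · rw [inv_mul_cancel₀ hgz]
        norm_num
      · rw [hgS x hx, sub_self, mul_zero]
    · intro x hx
      rcases Finset.mem_insert.1 hx with rfl | hx
      · rw [inv_mul_cancel₀ hgz]
        exact ⟨fun h => absurd h one_ne_zero, fun h => absurd h hzS⟩
      · rw [hgS x hx, sub_self, mul_zero]
        exact ⟨fun _ => hx, fun _ => rfl⟩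
  refine ⟨?_, hface⟩
  have h1 := adim_insert_le S z
  have h2 := hface.adim_lt (T := insert z S)
    (Finset.ssubset_iff_subset_ne.2 ⟨Finset.subset_insert _ _, fun h => hzS (by
      rw [h]
      exact Finset.mem_insert_self _ _)⟩) subset_rfl
  omega

/-- Facets through a generic point are pyramids over 2-faces. -/
theorem facet_through {V : Finset E} {z : E}
    (hz : ∀ T ⊆ V, adim T ≤ 3 → z ∉ affineSpan ℝ (T : Set E)) {F : Finset E}
    (hF : F ∈ faces (insert z V) 3) (hzF : z ∈ F) :
    F.erase z ∈ faces V 2 := by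
  obtain ⟨hFf, hFd⟩ := mem_faces.1 hF
  have hsub : F.erase z ⊆ V := by
    intro x hx
    rw [Finset.mem_erase] at hx
    rcases Finset.mem_insert.1 (hFf.2.1 hx.2) with h | h
    · exact absurd h hx.1
    · exact h
  have hne : (F.erase z).Nonempty := by
    rw [Finset.nonempty_iff_ne_empty]
    intro h
    have h1 := Finset.insert_erase hzF
    rw [h] at h1
    rw [← h1] at hFd
    have h2 : adim (insert z (∅ : Finset E)) = 0 := adim_singleton z
    omega
  have h3 : adim (F.erase z) ≤ 3 := by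
    rw [← hFd]
    exact adim_mono (Finset.erase_subset _ _)
  obtain ⟨h4, h5⟩ := pyramid hne (hz _ hsub h3)
  rw [Finset.insert_erase hzF] at h4 h5
  refine mem_faces.2 ⟨?_, by omega⟩
  exact (hFf.trans h5).of_subset (Finset.subset_insert _ _) hsub

end generic

end

end Pool.Agent.FVB
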