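import Pool.Agent.Lib.MP_e9c977_fvb.Count
import Pool.Agent.Lib.MP_e9c977_fvb.Ineq

/-!
# Row TT: the polytopes with `f₁ + e = C(f₀, 2)`
-/

namespace Pool.Agent.FVB

open Module Pool.Agent.FV
open scoped Classical

attribute [-instance] WithLp.instDecidableEq

noncomputable section

/-- The indices. -/
def II (M : ℕ) : Finset ℕ := Finset.Icc 1 M

/-- The special indices `2, 4, …, 2K + 2`. -/
def SS (K : ℕ) : Finset ℕ := (Finset.range (K + 1)).image (fun k => 2 * k + 2)

theorem mem_II {M s : ℕ} : s ∈ II M ↔ 1 ≤ s ∧ s ≤ M := by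
  rw [II, Finset.mem_Icc]

theorem mem_SS {K s : ℕ} : s ∈ SS K ↔ 2 ≤ s ∧ s ≤ 2 * K + 2 ∧ s % 2 = 0 := by
  rw [SS, Finset.mem_image]
  constructor
  · rintro ⟨k, hk, rfl⟩
    rw [Finset.mem_range] at hk
    omega
  · rintro ⟨h1, h2, h3⟩
    exact ⟨s / 2 - 1, Finset.mem_range.2 (by omega), by omega⟩

theorem card_II (M : ℕ) : (II M).card = M := by
  rw [II, Nat.card_Icc]
  omega

theorem mem_Ax_SS {K s : ℕ} : s ∈ Ax (SS K) ↔ 2 ≤ s ∧ s ≤ 2 * K ∧ s % 2 = 0 := by
  rw [mem_Ax, mem_SS, mem_SS]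
  omega

theorem card_Ax_SS (K : ℕ) : (Ax (SS K)).card = K := by
  have h : Ax (SS K) = (Finset.range K).image (fun k => 2 * k + 2) := by
    ext s
    rw [mem_Ax_SS, Finset.mem_image]
    constructor
    · rintro ⟨h1, h2, h3⟩
      exact ⟨s / 2 - 1, Finset.mem_range.2 (by omega), by omega⟩
    · rintro ⟨k, hk, rfl⟩
      rw [Finset.mem_range] at hk
      omega
  rw [h, Finset.card_image_of_injective, Finset.card_range]
  intro a b h
  simp only at h
  omega

theorem idx {K M : ℕ} (h : 2 * K + 3 ≤ M) : Idx (II M) (SS K) where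
  pos s hs := (mem_II.1 hs).1
  one := by
    rw [mem_II]
    omega
  sub s hs := by
    rw [mem_SS] at hs
    rw [mem_II]
    omega
  two' s hs := by
    rw [mem_SS] at hs
    omega
  nb1' s hs h' := by
    rw [mem_SS] at hs h'
    omega
  a1 s hs := by
    rw [mem_Ax_SS] at hs
    rw [mem_II]
    omega
  b1 s hs := by
    rw [mem_Ax_SS] at hs
    rw [mem_II]
    omega
  b3 s hs := by
    rw [mem_Ax_SS] at hs
    rw [mem_II]
    omega

/-- The excess of `V0` is the number of missing pairs. -/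
theorem excess_V0 {I Sp : Finset ℕ} (hI : Idx I Sp) (h4 : 4 ≤ I.card) :
    (faces (V0 I Sp) 1).card = (V0 I Sp).card + (faces (V0 I Sp) 3).card + (Ax Sp).card := by
  have hZ : ∀ z ∈ (∅ : Finset E4), GoodZ I Sp z := fun z hz => absurd hz (Finset.notMem_empty z)
  have hc := convPos_V0 hI
  have h1 := card_Ax_le hI hZ h4 (by rw [Finset.union_empty]; exact hc)
  have h2 := card_edges_V0 hI
  have hd := adim_W hI (Z := ∅) h4
  rw [Finset.union_empty] at h1 hd
  have h3 := excess_le hc hd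
  have h5 := card_V0 hI
  have h6 : (I.card + 1 + 1).choose 2 = (I.card + 1) + (I.card + 1).choose 2 := by
    rw [Nat.choose_succ_succ' (I.card + 1) 1, Nat.choose_one_right]
  rw [h5, h6] at h3
  omega

theorem exists_top (K n : ℕ) (h : 5 ≤ n) (hK : 2 * K + 4 ≤ n) :
    ∃ V x, Conf n x K V ∧ x + K = n.choose 2 := by
  obtain ⟨M, rfl⟩ : ∃ M, n = M + 1 := ⟨n - 1, by omega⟩
  have hI := idx (K := K) (M := M) (by omega)
  have h4 : 4 ≤ (II M).card := by rw [card_II]; omega
  have h1 := card_edges_V0 hI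
  have h2 := excess_V0 hI h4
  have h3 := card_V0 hI
  have hd := adim_W hI (Z := ∅) h4
  rw [Finset.union_empty] at hd
  rw [card_II] at h1 h3
  rw [card_Ax_SS] at h1 h2
  exact ⟨V0 (II M) (SS K), (faces (V0 (II M) (SS K)) 1).card,
    ⟨convPos_V0 hI, hd, by omega, rfl, by omega⟩, h1⟩

end

end Pool.Agent.FVB
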